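import Mathlib

/-!
# Several complex variables: continuity of the derivative, Cauchy integrals with parameters,
identity theorem on convex sets, a Hartogs type extension lemma.
-/

set_option autoImplicit false

open Set Filter Topology Metric MeasureTheory
open scoped Real

namespace Pool.Agent.MEP

section C1

variable {E : Type*} [NormedAddCommGroup E] [NormedSpace ℂ E] [FiniteDimensional ℂ E]

/-- The derivative of a holomorphic function of several variables is continuous. -/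
theorem continuousOn_fderiv_of_differentiableOn {f : E → ℂ} {U : Set E} (hU : IsOpen U)
    (hf : DifferentiableOn ℂ f U) : ContinuousOn (fun x => fderiv ℂ f x) U := by
  have : ProperSpace E := FiniteDimensional.proper ℂ E
  rw [continuousOn_clm_apply]
  intro v x0 hx0
  apply ContinuousAt.continuousWithinAt
  obtain ⟨r0, hr0, hball⟩ := Metric.isOpen_iff.mp hU x0 hx0
  set r := r0 / 4 with hr
  have hrpos : 0 < r := by positivity
  set ρ := r / (‖v‖ + 1) with hρ
  have hρpos : 0 < ρ := by positivity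
  have hρv : ρ * ‖v‖ ≤ r := by
    rw [hρ, div_mul_eq_mul_div, div_le_iff₀ (by positivity)]
    nlinarith [norm_nonneg v]
  have hK : closedBall x0 (2 * r) ⊆ U := by
    refine (closedBall_subset_ball ?_).trans hball
    rw [hr]; linarith
  have hmem : ∀ x ∈ ball x0 r, ∀ ζ ∈ closedBall (0 : ℂ) ρ, x + ζ • v ∈ closedBall x0 (2 * r) := by
    intro x hx ζ hζ
    rw [mem_closedBall, dist_eq_norm]
    rw [mem_ball, dist_eq_norm] at hx
    rw [mem_closedBall_zero_iff] at hζ
    calc ‖x + ζ • v - x0‖ = ‖(x - x0) + ζ • v‖ := by congr 1; abel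
      _ ≤ ‖x - x0‖ + ‖ζ • v‖ := norm_add_le _ _
      _ ≤ r + ρ * ‖v‖ := by
        rw [norm_smul]; gcongr
      _ ≤ 2 * r := by linarith
  -- Cauchy formula
  have hformula : ∀ x ∈ ball x0 r, fderiv ℂ f x v =
      (2 * π * Complex.I : ℂ)⁻¹ • ∮ ζ in C(0, ρ), ((ζ - 0) ^ 2)⁻¹ • f (x + ζ • v) := by
    intro x hx
    have hd : DifferentiableOn ℂ (fun ζ : ℂ => f (x + ζ • v)) (closedBall 0 ρ) := by
      intro ζ hζ
      have h1 : DifferentiableAt ℂ f (x + ζ • v) :=
        (hf _ (hK (hmem x hx ζ hζ))).differentiableAt (hU.mem_nhds (hK (hmem x hx ζ hζ)))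
      have h2 : DifferentiableAt ℂ (fun ζ : ℂ => x + ζ • v) ζ := by fun_prop
      exact (h1.comp ζ h2).differentiableWithinAt
    have hder : deriv (fun ζ : ℂ => f (x + ζ • v)) 0 = fderiv ℂ f x v := by
      have h0 : x + (0 : ℂ) • v = x := by simp
      have h1 : HasFDerivAt f (fderiv ℂ f x) (x + (0 : ℂ) • v) := by
        rw [h0]
        have : x ∈ U := hK (by simpa using hmem x hx 0 (by simp [hρpos.le]))
        exact ((hf x this).differentiableAt (hU.mem_nhds this)).hasFDerivAt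
      have h2 : HasDerivAt (fun ζ : ℂ => x + ζ • v) v 0 := by
        simpa using ((hasDerivAt_id (0 : ℂ)).smul_const v).const_add x
      exact (h1.comp_hasDerivAt (0 : ℂ) h2).deriv
    have := hd.deriv_eq_smul_circleIntegral hρpos
    rw [hder] at this
    simp only [one_div] at this
    rw [this, inv_smul_smul₀]
    simp [Real.pi_ne_zero]
  have hev : (fun x => fderiv ℂ f x v) =ᶠ[𝓝 x0] fun x =>
      (2 * π * Complex.I : ℂ)⁻¹ • ∮ ζ in C(0, ρ), ((ζ - 0) ^ 2)⁻¹ • f (x + ζ • v) := by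
    filter_upwards [ball_mem_nhds x0 hrpos] with x hx using hformula x hx
  refine ContinuousAt.congr ?_ hev.symm
  apply ContinuousAt.fun_const_smul
  have hfc : ContinuousOn f (closedBall x0 (2 * r)) := hf.continuousOn.mono hK
  obtain ⟨C, hC⟩ := (isCompact_closedBall x0 (2 * r)).exists_bound_of_continuousOn hfc
  have hcm : ∀ θ : ℝ, circleMap 0 ρ θ ∈ closedBall (0 : ℂ) ρ := fun θ =>
    sphere_subset_closedBall (circleMap_mem_sphere 0 hρpos.le θ)
  have hcne : ∀ θ : ℝ, circleMap 0 ρ θ ≠ 0 := fun θ => circleMap_ne_center hρpos.ne'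
  have hcont : ∀ x ∈ ball x0 r, Continuous fun θ : ℝ =>
      deriv (circleMap 0 ρ) θ • ((circleMap 0 ρ θ - 0) ^ 2)⁻¹ • f (x + circleMap 0 ρ θ • v) := by
    intro x hx
    have h1 : Continuous fun θ : ℝ => f (x + circleMap 0 ρ θ • v) := by
      rw [continuous_iff_continuousAt]
      intro θ
      have h3 : ContinuousAt f (x + circleMap 0 ρ θ • v) :=
        (hf.continuousOn).continuousAt (hU.mem_nhds (hK (hmem x hx _ (hcm θ))))
      have h4 : ContinuousAt (fun θ : ℝ => x + circleMap 0 ρ θ • v) θ := by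
        have := continuous_circleMap 0 ρ
        fun_prop
      exact ContinuousAt.comp (f := fun θ : ℝ => x + circleMap 0 ρ θ • v) h3 h4
    have h2 : Continuous fun θ : ℝ => ((circleMap 0 ρ θ - 0) ^ 2)⁻¹ := by
      refine Continuous.inv₀ (by have := continuous_circleMap 0 ρ; fun_prop) fun θ => ?_
      simpa using hcne θ
    have h5 : Continuous fun θ : ℝ => deriv (circleMap 0 ρ) θ := by
      simp only [deriv_circleMap]
      have := continuous_circleMap 0 ρ
      fun_prop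
    exact h5.smul (h2.smul h1)
  refine intervalIntegral.continuousAt_of_dominated_interval (bound := fun _ => ρ * ((ρ ^ 2)⁻¹ * C))
    ?_ ?_ intervalIntegrable_const ?_
  · filter_upwards [ball_mem_nhds x0 hrpos] with x hx
    exact (hcont x hx).aestronglyMeasurable
  · filter_upwards [ball_mem_nhds x0 hrpos] with x hx
    refine Eventually.of_forall fun θ _ => ?_
    rw [norm_smul, norm_smul, deriv_circleMap, norm_mul, norm_inv, norm_pow]
    simp only [sub_zero, norm_circleMap_zero, Complex.norm_I, mul_one, abs_of_pos hρpos]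
    gcongr
    exact hC _ (hmem x hx _ (hcm θ))
  · refine Eventually.of_forall fun θ _ => ?_
    apply ContinuousAt.fun_const_smul
    apply ContinuousAt.fun_const_smul
    have h3 : ContinuousAt f (x0 + circleMap 0 ρ θ • v) :=
      (hf.continuousOn).continuousAt (hU.mem_nhds (hK (hmem x0 (mem_ball_self hrpos) _ (hcm θ))))
    exact ContinuousAt.comp (f := fun x => x + circleMap 0 ρ θ • v) h3 (by fun_prop)

end C1

section Param

variable {F : Type*} [NormedAddCommGroup F] [NormedSpace ℂ F] [FiniteDimensional ℂ F]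

/-- Cauchy integrals depending on parameters are holomorphic. -/
theorem differentiableOn_circleIntegral_param {g : ℂ × F → ℂ} {R : ℝ} (hR : 0 < R) {V : Set F}
    (hV : IsOpen V) {Q : Set (ℂ × F)} (hQ : IsOpen Q) (hg : DifferentiableOn ℂ g Q)
    (hsub : sphere (0 : ℂ) R ×ˢ V ⊆ Q) :
    DifferentiableOn ℂ (fun w : ℂ × F => ∮ ζ in C(0, R), (ζ - w.1)⁻¹ * g (ζ, w.2))
      (ball (0 : ℂ) R ×ˢ V) := by
  have : ProperSpace F := FiniteDimensional.proper ℂ F
  intro w0 hw0
  apply DifferentiableAt.differentiableWithinAt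
  have hopen : IsOpen (ball (0 : ℂ) R ×ˢ V) := isOpen_ball.prod hV
  obtain ⟨ε0, hε0, hball⟩ := Metric.isOpen_iff.mp hopen w0 hw0
  set ε := ε0 / 2 with hε
  have hεpos : 0 < ε := by positivity
  have hs : closedBall w0 ε ⊆ ball (0 : ℂ) R ×ˢ V :=
    (closedBall_subset_ball (by rw [hε]; linarith)).trans hball
  -- derivative of the integrand
  set Fn : ℂ × F → ℝ → ℂ := fun w θ =>
    deriv (circleMap 0 R) θ • ((circleMap 0 R θ - w.1)⁻¹ * g (circleMap 0 R θ, w.2)) with hFn
  set Fn' : ℂ × F → ℝ → (ℂ × F) →L[ℂ] ℂ := fun w θ =>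
    deriv (circleMap 0 R) θ • ((circleMap 0 R θ - w.1)⁻¹ •
      ((fderiv ℂ g (circleMap 0 R θ, w.2)).comp
        ((ContinuousLinearMap.inr ℂ ℂ F).comp (ContinuousLinearMap.snd ℂ ℂ F))) +
      (g (circleMap 0 R θ, w.2) * ((circleMap 0 R θ - w.1) ^ 2)⁻¹) • ContinuousLinearMap.fst ℂ ℂ F)
    with hFn'
  have hcs : ∀ θ : ℝ, circleMap 0 R θ ∈ sphere (0 : ℂ) R := fun θ => circleMap_mem_sphere 0 hR.le θ
  have hne : ∀ w ∈ ball (0 : ℂ) R ×ˢ V, ∀ θ : ℝ, circleMap 0 R θ - w.1 ≠ 0 := by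
    intro w hw θ h
    have h1 := hcs θ
    rw [sub_eq_zero] at h
    rw [h, mem_sphere_iff_norm, sub_zero] at h1
    have h2 := hw.1
    rw [mem_ball_zero_iff] at h2
    exact absurd h1 h2.ne
  have hQm : ∀ w ∈ ball (0 : ℂ) R ×ˢ V, ∀ θ : ℝ, (circleMap 0 R θ, w.2) ∈ Q :=
    fun w hw θ => hsub ⟨hcs θ, hw.2⟩
  have hdiff : ∀ w ∈ ball (0 : ℂ) R ×ˢ V, ∀ θ : ℝ, HasFDerivAt (fun w => Fn w θ) (Fn' w θ) w := by
    intro w hw θ
    have h1 : HasFDerivAt g (fderiv ℂ g (circleMap 0 R θ, w.2)) (circleMap 0 R θ, w.2) :=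
      ((hg _ (hQm w hw θ)).differentiableAt (hQ.mem_nhds (hQm w hw θ))).hasFDerivAt
    have h2 : HasFDerivAt (fun w : ℂ × F => (circleMap 0 R θ, w.2))
        ((ContinuousLinearMap.inr ℂ ℂ F).comp (ContinuousLinearMap.snd ℂ ℂ F)) w := by
      have h := (hasFDerivAt_const (circleMap 0 R θ) w).prodMk (hasFDerivAt_snd (𝕜 := ℂ) (p := w))
      exact h.congr_fderiv (by ext <;> simp)
    have h3 : HasFDerivAt (fun w : ℂ × F => g (circleMap 0 R θ, w.2))
        ((fderiv ℂ g (circleMap 0 R θ, w.2)).comp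
          ((ContinuousLinearMap.inr ℂ ℂ F).comp (ContinuousLinearMap.snd ℂ ℂ F))) w :=
      HasFDerivAt.comp (f := fun w : ℂ × F => (circleMap 0 R θ, w.2)) w h1 h2
    have h4 : HasFDerivAt (fun w : ℂ × F => (circleMap 0 R θ - w.1)⁻¹)
        ((((circleMap 0 R θ - w.1) ^ 2)⁻¹) • ContinuousLinearMap.fst ℂ ℂ F) w := by
      have h5 : HasFDerivAt (fun w : ℂ × F => circleMap 0 R θ - w.1)
          (-(ContinuousLinearMap.fst ℂ ℂ F)) w := by
        have := (hasFDerivAt_fst (𝕜 := ℂ) (p := w)).const_sub (circleMap 0 R θ)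
        exact this
      have h6 := (hasDerivAt_inv (hne w hw θ)).comp_hasFDerivAt w h5
      exact h6.congr_fderiv (by ext <;> simp)
    have h7 := (h4.mul h3).const_smul (deriv (circleMap 0 R) θ)
    exact h7.congr_fderiv (by simp only [hFn', smul_smul])
  -- joint continuity
  have hgc : ContinuousOn g Q := hg.continuousOn
  have hg'c := continuousOn_fderiv_of_differentiableOn hQ hg
  have hmaps : MapsTo (fun z : (ℂ × F) × ℝ => (circleMap 0 R z.2, z.1.2))
      ((ball (0 : ℂ) R ×ˢ V) ×ˢ (univ : Set ℝ)) Q := fun z hz => hQm z.1 hz.1 z.2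
  have hcc := continuous_circleMap 0 R
  have hpc : ContinuousOn (fun z : (ℂ × F) × ℝ => (circleMap 0 R z.2, z.1.2))
      ((ball (0 : ℂ) R ×ˢ V) ×ˢ (univ : Set ℝ)) := by
    apply Continuous.continuousOn
    fun_prop
  have hdc : Continuous fun z : (ℂ × F) × ℝ => deriv (circleMap 0 R) z.2 := by
    simp only [deriv_circleMap]
    fun_prop
  have hinvc : ContinuousOn (fun z : (ℂ × F) × ℝ => (circleMap 0 R z.2 - z.1.1)⁻¹)
      ((ball (0 : ℂ) R ×ˢ V) ×ˢ (univ : Set ℝ)) := by
    refine ContinuousOn.inv₀ (Continuous.continuousOn (by fun_prop)) fun z hz => hne z.1 hz.1 z.2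
  have hFc : ContinuousOn (fun z : (ℂ × F) × ℝ => Fn z.1 z.2)
      ((ball (0 : ℂ) R ×ˢ V) ×ˢ (univ : Set ℝ)) := by
    exact hdc.continuousOn.fun_smul (hinvc.fun_mul (hgc.comp hpc hmaps))
  have hF'c : ContinuousOn (fun z : (ℂ × F) × ℝ => Fn' z.1 z.2)
      ((ball (0 : ℂ) R ×ˢ V) ×ˢ (univ : Set ℝ)) := by
    refine hdc.continuousOn.fun_smul (ContinuousOn.fun_add (hinvc.fun_smul ?_)
      (ContinuousOn.fun_smul ?_ continuousOn_const))
    · exact (hg'c.comp hpc hmaps).clm_comp continuousOn_const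
    · refine (hgc.comp hpc hmaps).fun_mul ?_
      have := hinvc.fun_pow 2
      simpa only [inv_pow] using this
  have hFcθ : ∀ w ∈ ball (0 : ℂ) R ×ˢ V, Continuous (Fn w) := by
    intro w hw
    rw [← continuousOn_univ]
    exact hFc.comp (f := fun θ : ℝ => (w, θ)) (by fun_prop) fun θ _ => ⟨hw, mem_univ _⟩
  have hF'cθ : ∀ w ∈ ball (0 : ℂ) R ×ˢ V, Continuous (Fn' w) := by
    intro w hw
    rw [← continuousOn_univ]
    exact hF'c.comp (f := fun θ : ℝ => (w, θ)) (by fun_prop) fun θ _ => ⟨hw, mem_univ _⟩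
  have hcomp : IsCompact (closedBall w0 ε ×ˢ Icc (0 : ℝ) (2 * π)) :=
    (isCompact_closedBall w0 ε).prod isCompact_Icc
  obtain ⟨C, hC⟩ := hcomp.exists_bound_of_continuousOn
    (hF'c.mono (prod_mono hs (subset_univ _)))
  have key : HasFDerivAt (fun w => ∫ θ in (0 : ℝ)..2 * π, Fn w θ) (∫ θ in (0 : ℝ)..2 * π, Fn' w0 θ) w0 := by
    refine intervalIntegral.hasFDerivAt_integral_of_dominated_of_fderiv_le (bound := fun _ => C)
      (closedBall_mem_nhds w0 hεpos) ?_ ?_ ?_ ?_ intervalIntegrable_const ?_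
    · filter_upwards [closedBall_mem_nhds w0 hεpos] with w hw
      exact (hFcθ w (hs hw)).aestronglyMeasurable
    · exact (hFcθ w0 hw0).intervalIntegrable _ _
    · exact (hF'cθ w0 hw0).aestronglyMeasurable
    · refine Eventually.of_forall fun θ hθ w hw => hC (w, θ) ⟨hw, ?_⟩
      rw [uIoc_of_le (by positivity)] at hθ
      exact ⟨hθ.1.le, hθ.2⟩
    · exact Eventually.of_forall fun θ _ w hw => hdiff w (hs hw) θ
  exact key.differentiableAt

end Param

section Identity

variable {E F : Type*} [NormedAddCommGroup E] [NormedSpace ℂ E] [NormedAddCommGroup F]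
  [NormedSpace ℂ F] [CompleteSpace F]

/-- identity theorem on convex open sets -/
theorem eq_zero_of_convex {B : Set E} (hB : Convex ℝ B) (hBo : IsOpen B) {h : E → F}
    (hd : DifferentiableOn ℂ h B) {x0 : E} (hx0 : x0 ∈ B) (h0 : ∀ᶠ x in 𝓝 x0, h x = 0) :
    ∀ x ∈ B, h x = 0 := by
  intro x hx
  set L : ℂ → E := fun ζ => x0 + ζ • (x - x0) with hL
  have hLc : Continuous L := by fun_prop
  set U : Set ℂ := L ⁻¹' B with hU
  have hUo : IsOpen U := hBo.preimage hLc
  have hUc : Convex ℝ U := by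
    intro a ha b hb s t hs ht hst
    have : L (s • a + t • b) = s • L a + t • L b := by
      simp only [hL]
      have h1 : t = 1 - s := by linarith
      rw [h1, ← Complex.coe_smul s (x0 + a • (x - x0)), ← Complex.coe_smul (1 - s) (x0 + b • (x - x0)),
        Complex.real_smul, Complex.real_smul]
      push_cast
      module
    show L (s • a + t • b) ∈ B
    rw [this]
    exact hB ha hb hs ht hst
  have hφ : DifferentiableOn ℂ (fun ζ => h (L ζ)) U := by
    refine hd.comp (t := B) ?_ (fun ζ hζ => hζ)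
    apply Differentiable.differentiableOn
    fun_prop
  have h0U : (0 : ℂ) ∈ U := by simp [hU, hL, hx0]
  have h1U : (1 : ℂ) ∈ U := by simp [hU, hL, hx]
  have hev : (fun ζ => h (L ζ)) =ᶠ[𝓝 0] 0 := by
    have : Tendsto L (𝓝 0) (𝓝 x0) := by
      have := hLc.tendsto 0
      simpa [hL] using this
    exact this.eventually h0
  have := (hφ.analyticOnNhd hUo).eqOn_zero_of_preconnected_of_eventuallyEq_zero
    hUc.isPreconnected h0U hev h1U
  simpa [hL] using this

theorem eqOn_of_convex {B : Set E} (hB : Convex ℝ B) (hBo : IsOpen B) {h k : E → F}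
    (hd : DifferentiableOn ℂ h B) (hk : DifferentiableOn ℂ k B) {x0 : E} (hx0 : x0 ∈ B)
    (h0 : ∀ᶠ x in 𝓝 x0, h x = k x) : EqOn h k B := by
  intro x hx
  have := eq_zero_of_convex hB hBo (hd.sub hk) hx0 (by
    filter_upwards [h0] with y hy
    simp [hy]) x hx
  simpa [sub_eq_zero] using this

end Identity

section Hartogs

variable {F : Type*} [NormedAddCommGroup F] [NormedSpace ℂ F] [FiniteDimensional ℂ F]

/-- Hartogs type extension lemma. -/
theorem hartogs_extension {r R ρ : ℝ} (hρ : 0 ≤ ρ) (hρR : ρ < R) (hRr : R < r) {V V0 : Set F}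
    (hV : IsOpen V) (hVc : Convex ℝ V) (hV0 : IsOpen V0) (hV0V : V0 ⊆ V) (hne : V0.Nonempty)
    {Q : Set (ℂ × F)} (hQ : IsOpen Q)
    (hQ1 : ball (0 : ℂ) r ×ˢ V0 ⊆ Q) (hQ2 : {a : ℂ | ρ < ‖a‖ ∧ ‖a‖ < r} ×ˢ V ⊆ Q)
    {g : ℂ × F → ℂ} (hg : DifferentiableOn ℂ g Q) :
    ∃ G : ℂ × F → ℂ, DifferentiableOn ℂ G (ball (0 : ℂ) R ×ˢ V) ∧
      (∀ a ∈ ball (0 : ℂ) R, ∀ y ∈ V0, G (a, y) = g (a, y)) ∧
      ∀ a ∈ ball (0 : ℂ) R, ρ < ‖a‖ → ∀ y ∈ V, G (a, y) = g (a, y) := by
  have hR : 0 < R := hρ.trans_lt hρR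
  refine ⟨fun w => (2 * π * Complex.I : ℂ)⁻¹ * ∮ ζ in C(0, R), (ζ - w.1)⁻¹ * g (ζ, w.2), ?_, ?_⟩
  · refine DifferentiableOn.const_mul ?_ _
    refine differentiableOn_circleIntegral_param hR hV hQ hg ?_
    intro z hz
    refine hQ2 ⟨?_, hz.2⟩
    have := hz.1
    rw [mem_sphere_iff_norm, sub_zero] at this
    exact ⟨by rw [this]; exact hρR, by rw [this]; exact hRr⟩
  · have h1 : ∀ a ∈ ball (0 : ℂ) R, ∀ y ∈ V0,
        (2 * π * Complex.I : ℂ)⁻¹ * ∮ ζ in C(0, R), (ζ - a)⁻¹ * g (ζ, y) = g (a, y) := by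
      intro a ha y hy
      have hd : DifferentiableOn ℂ (fun ζ : ℂ => g (ζ, y)) (closedBall 0 R) := by
        intro ζ hζ
        have hm : (ζ, y) ∈ Q := hQ1 ⟨closedBall_subset_ball hRr hζ, hy⟩
        have h2 : DifferentiableAt ℂ g (ζ, y) := (hg _ hm).differentiableAt (hQ.mem_nhds hm)
        have h3 : DifferentiableAt ℂ (fun ζ : ℂ => (ζ, y)) ζ := by fun_prop
        exact (DifferentiableAt.comp (f := fun ζ : ℂ => (ζ, y)) ζ h2 h3).differentiableWithinAt
      have hdc : DiffContOnCl ℂ (fun ζ : ℂ => g (ζ, y)) (ball 0 R) := hd.diffContOnCl_ball subset_rfl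
      have := hdc.two_pi_i_inv_smul_circleIntegral_sub_inv_smul ha
      simpa only [smul_eq_mul] using this
    refine ⟨h1, ?_⟩
    intro a ha hρa y hy
    obtain ⟨y0, hy0⟩ := hne
    have ha' : ‖a‖ < R := by rwa [mem_ball_zero_iff] at ha
    have hmem : ∀ y ∈ V, (a, y) ∈ Q := fun y hy => hQ2 ⟨⟨hρa, ha'.trans hRr⟩, hy⟩
    have hd1 : DifferentiableOn ℂ (fun y : F => g (a, y)) V := by
      intro y hy
      have h2 : DifferentiableAt ℂ g (a, y) :=
        (hg _ (hmem y hy)).differentiableAt (hQ.mem_nhds (hmem y hy))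
      have h3 : DifferentiableAt ℂ (fun y : F => (a, y)) y := by fun_prop
      exact (DifferentiableAt.comp (f := fun y : F => (a, y)) y h2 h3).differentiableWithinAt
    have hG := (differentiableOn_circleIntegral_param hR hV hQ hg (by
      intro z hz
      refine hQ2 ⟨?_, hz.2⟩
      have := hz.1
      rw [mem_sphere_iff_norm, sub_zero] at this
      exact ⟨by rw [this]; exact hρR, by rw [this]; exact hRr⟩)).const_mul (2 * π * Complex.I : ℂ)⁻¹
    have hd2 : DifferentiableOn ℂ (fun y : F =>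
        (2 * π * Complex.I : ℂ)⁻¹ * ∮ ζ in C(0, R), (ζ - a)⁻¹ * g (ζ, y)) V := by
      intro y hy
      have hm : (a, y) ∈ ball (0 : ℂ) R ×ˢ V := ⟨ha, hy⟩
      have h2 := (hG _ hm).differentiableAt ((isOpen_ball.prod hV).mem_nhds hm)
      have h3 : DifferentiableAt ℂ (fun y : F => (a, y)) y := by fun_prop
      exact (DifferentiableAt.comp (f := fun y : F => (a, y)) y h2 h3).differentiableWithinAt
    have := eqOn_of_convex hVc hV hd2 hd1 (hV0V hy0) (by
      filter_upwards [hV0.mem_nhds hy0] with y' hy'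
      exact h1 a ha y' hy')
    exact this hy

end Hartogs

end Pool.Agent.MEP
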