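import Pool.Agent.MEP.Glue

/-!
# Holomorphic maps are meromorphic; identity principle on connected manifolds
-/

set_option autoImplicit false

open Set Filter Topology Metric
open scoped Manifold ContDiff

namespace Pool.Agent.MEP

section

variable {n m : ℕ} {S : Type} [TopologicalSpace S] [ChartedSpace (Fin n → ℂ) S]
  {X : Type} [TopologicalSpace X] [ChartedSpace (Fin m → ℂ) X]

lemma isAnalyticSubset_empty {E H M : Type} [NormedAddCommGroup E] [NormedSpace ℂ E]
    [TopologicalSpace H] {I : ModelWithCorners ℂ E H} [TopologicalSpace M] [ChartedSpace H M]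
    {Ω : Set M} (hΩ : IsOpen Ω) : IsAnalyticSubset I Ω ∅ := by
  refine ⟨empty_subset _, fun p hp => ⟨Ω, hΩ, hp, subset_rfl, 1, fun _ _ => 1, fun _ => ?_, ?_⟩⟩
  · exact mdifferentiableOn_const
  · intro q _
    simp

lemma codimGeTwo_empty : CodimGeTwo (n := n) (∅ : Set S) := by
  intro p hp
  exact hp.elim

lemma graphClosure_of_continuousOn [T2Space X] {Ω : Set S} (hΩ : IsOpen Ω) {F : S → X}
    (hF : ContinuousOn F Ω) : graphClosure Ω ∅ F = {z : S × X | z.1 ∈ Ω ∧ z.2 = F z.1} := by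
  ext ⟨x, y⟩
  simp only [graphClosure, sdiff_empty, mem_inter_iff, mem_prod, mem_univ, and_true, mem_ofPred_eq]
  constructor
  · rintro ⟨hcl, hx⟩
    refine ⟨hx, ?_⟩
    by_contra hne
    have h1 : ContinuousAt F x := hF.continuousAt (hΩ.mem_nhds hx)
    have h2 : ∀ᶠ z : S × X in 𝓝 (x, y), z.2 ≠ F z.1 := by
      have h3 : ContinuousAt (fun z : S × X => (z.2, F z.1)) (x, y) :=
        continuousAt_snd.prodMk (ContinuousAt.comp (g := F) h1 continuousAt_fst)
      exact h3.eventually ((isClosed_diagonal (X := X)).isOpen_compl.mem_nhds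
        (show (y, F x) ∈ (diagonal X)ᶜ from hne))
    rw [mem_closure_iff_nhds] at hcl
    obtain ⟨z, hz1, hz2⟩ := hcl _ h2
    exact hz1 hz2.2
  · rintro ⟨hx, rfl⟩
    exact ⟨subset_closure ⟨hx, rfl⟩, hx⟩

variable [IsManifold 𝓘(ℂ, Fin m → ℂ) ω X] [T2Space X]

/-- holomorphic maps are meromorphic -/
lemma isMeromorphicMap_of_mdifferentiableOn {Ω : Set S} (hΩ : IsOpen Ω) {Y : Set X} {F : S → X}
    (hF : MDifferentiableOn 𝓘(ℂ, Fin n → ℂ) 𝓘(ℂ, Fin m → ℂ) F Ω) (hFY : MapsTo F Ω Y) :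
    IsMeromorphicMap (n := n) (m := m) Ω Y ∅ F := by
  have hFc : ContinuousOn F Ω := hF.continuousOn
  refine ⟨isAnalyticSubset_empty hΩ, codimGeTwo_empty, by simpa using hF, by simpa using hFY, ?_, ?_⟩
  · rw [graphClosure_of_continuousOn hΩ hFc]
    refine ⟨fun z hz => ⟨hz.1, mem_univ _⟩, ?_⟩
    rintro ⟨x, y⟩ ⟨hx, -⟩
    have hx' : x ∈ Ω := hx
    have h1 : ContinuousAt F x := hFc.continuousAt (hΩ.mem_nhds hx')
    by_cases hy : y = F x
    · subst hy
      set e := chartAt (Fin m → ℂ) (F x) with he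
      have hsrc : F x ∈ e.source := mem_chart_source _ _
      have hΩ' : IsOpen (Ω ∩ F ⁻¹' e.source) := hFc.isOpen_inter_preimage hΩ e.open_source
      refine ⟨(Ω ∩ F ⁻¹' e.source) ×ˢ e.source, hΩ'.prod e.open_source, ⟨⟨hx', hsrc⟩, hsrc⟩, ?_,
        m, fun i z => e z.2 i - e (F z.1) i, ?_, ?_⟩
      · exact prod_mono inter_subset_left (subset_univ _)
      · intro i
        rintro ⟨a, b⟩ ⟨⟨ha, ha'⟩, hb⟩
        apply MDifferentiableAt.mdifferentiableWithinAt
        have ha2 : F a ∈ e.source := ha'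
        have hb2 : b ∈ e.source := hb
        have h2 : MDifferentiableAt 𝓘(ℂ, Fin m → ℂ) 𝓘(ℂ, Fin m → ℂ) e b :=
          mdifferentiableAt_atlas (chart_mem_atlas _ _) hb2
        have h3 : MDifferentiableAt 𝓘(ℂ, Fin m → ℂ) 𝓘(ℂ, Fin m → ℂ) e (F a) :=
          mdifferentiableAt_atlas (chart_mem_atlas _ _) ha2
        have h4 : MDifferentiableAt 𝓘(ℂ, Fin n → ℂ) 𝓘(ℂ, Fin m → ℂ) F a :=
          (hF a ha).mdifferentiableAt (hΩ.mem_nhds ha)
        have h5 : MDifferentiableAt (𝓘(ℂ, Fin n → ℂ).prod 𝓘(ℂ, Fin m → ℂ)) 𝓘(ℂ, Fin m → ℂ)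
            (fun z : S × X => e z.2) (a, b) :=
          MDifferentiableAt.comp (g := e) (f := fun z : S × X => z.2) (a, b) h2 mdifferentiableAt_snd
        have h6 : MDifferentiableAt (𝓘(ℂ, Fin n → ℂ).prod 𝓘(ℂ, Fin m → ℂ)) 𝓘(ℂ, Fin m → ℂ)
            (fun z : S × X => e (F z.1)) (a, b) := by
          have h7 : MDifferentiableAt 𝓘(ℂ, Fin n → ℂ) 𝓘(ℂ, Fin m → ℂ) (fun a => e (F a)) a :=
            MDifferentiableAt.comp (g := e) a h3 h4
          exact MDifferentiableAt.comp (g := fun a => e (F a)) (f := fun z : S × X => z.1) (a, b) h7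
            mdifferentiableAt_fst
        have h8 := h5.sub h6
        have h9 : MDifferentiableAt 𝓘(ℂ, Fin m → ℂ) 𝓘(ℂ, ℂ) (fun w : Fin m → ℂ => w i)
            (e b - e (F a)) := by
          apply DifferentiableAt.mdifferentiableAt
          exact differentiableAt_apply i _
        exact MDifferentiableAt.comp (g := fun w : Fin m → ℂ => w i)
          (f := fun z : S × X => e z.2 - e (F z.1)) (a, b) h9 h8
      · rintro ⟨a, b⟩ ⟨⟨ha, ha'⟩, hb⟩
        have ha2 : F a ∈ e.source := ha'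
        have hb2 : b ∈ e.source := hb
        show (a ∈ Ω ∧ b = F a) ↔ ∀ i, e b i - e (F a) i = 0
        constructor
        · rintro ⟨_, rfl⟩ i
          exact sub_self _
        · intro h
          refine ⟨ha, e.injOn hb2 ha2 (funext fun i => sub_eq_zero.mp (h i))⟩
    · have h2 : ∀ᶠ z : S × X in 𝓝 (x, y), z.2 ≠ F z.1 := by
        have h3 : ContinuousAt (fun z : S × X => (z.2, F z.1)) (x, y) :=
          continuousAt_snd.prodMk (ContinuousAt.comp (g := F) h1 continuousAt_fst)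
        exact h3.eventually ((isClosed_diagonal (X := X)).isOpen_compl.mem_nhds
          (show (y, F x) ∈ (diagonal X)ᶜ from hy))
      obtain ⟨V, hV, hVo, hxV⟩ := eventually_nhds_iff.mp h2
      refine ⟨V ∩ Ω ×ˢ univ, hVo.inter (hΩ.prod isOpen_univ), ⟨hxV, hx', mem_univ _⟩,
        inter_subset_right, 1, fun _ _ => 1, fun _ => mdifferentiableOn_const, ?_⟩
      rintro ⟨a, b⟩ ⟨hab, ha, _⟩
      show (a ∈ Ω ∧ b = F a) ↔ ∀ i : Fin 1, (1 : ℂ) = 0
      constructor
      · rintro ⟨_, h⟩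
        exact absurd h (hV _ hab)
      · intro h
        exact absurd (h 0) one_ne_zero
  · intro K hKΩ hK
    rw [graphClosure_of_continuousOn hΩ hFc]
    have h1 : {z : S × X | z.1 ∈ Ω ∧ z.2 = F z.1} ∩ K ×ˢ (univ : Set X) =
        (fun x => (x, F x)) '' K := by
      ext ⟨a, b⟩
      simp only [mem_inter_iff, mem_ofPred_eq, mem_prod, mem_univ, and_true, mem_image,
        Prod.mk.injEq]
      constructor
      · rintro ⟨⟨_, rfl⟩, ha⟩
        exact ⟨a, ha, rfl, rfl⟩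
      · rintro ⟨x, hx, rfl, rfl⟩
        exact ⟨⟨hKΩ hx, rfl⟩, hx⟩
    rw [h1]
    exact hK.image_of_continuousOn (continuousOn_id.prodMk (hFc.mono hKΩ))

end

section Identity

variable {n : ℕ} {S : Type} [TopologicalSpace S] [ChartedSpace (Fin n → ℂ) S]
  [IsManifold 𝓘(ℂ, Fin n → ℂ) ω S]

/-- identity principle on a connected complex manifold -/
theorem eq_zero_of_connected [PreconnectedSpace S] {h : S → ℂ}
    (hh : MDifferentiable 𝓘(ℂ, Fin n → ℂ) 𝓘(ℂ, ℂ) h) {x0 : S} (h0 : ∀ᶠ x in 𝓝 x0, h x = 0) :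
    ∀ x, h x = 0 := by
  have hsub : (univ : Set S) ⊆ {a | ∀ᶠ z in 𝓝 a, h z = 0} := by
    refine isPreconnected_univ.subset_of_closure_inter_subset isOpen_setOfPred_eventually_nhds
      ⟨x0, mem_univ _, h0⟩ ?_
    rintro p ⟨hp, _⟩
    set e := chartAt (Fin n → ℂ) p with he
    have hpt : e p ∈ e.target := mem_chart_target _ _
    have hps : p ∈ e.source := mem_chart_source _ _
    obtain ⟨ε, hε, hεb⟩ := Metric.isOpen_iff.mp e.open_target _ hpt
    have hN : IsOpen (e.source ∩ e ⁻¹' ball (e p) ε) := e.isOpen_inter_preimage isOpen_ball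
    have hpN : p ∈ e.source ∩ e ⁻¹' ball (e p) ε := ⟨hps, mem_ball_self hε⟩
    rw [mem_closure_iff_nhds] at hp
    obtain ⟨b, ⟨hbs, hbb⟩, hb⟩ := hp _ (hN.mem_nhds hpN)
    have hd : DifferentiableOn ℂ (fun x => h (e.symm x)) (ball (e p) ε) := by
      intro x hx
      apply DifferentiableAt.differentiableWithinAt
      rw [← mdifferentiableAt_iff_differentiableAt]
      exact MDifferentiableAt.comp (g := h) x (hh _)
        (mdifferentiableAt_atlas_symm (chart_mem_atlas _ p) (hεb hx))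
    have hev : ∀ᶠ x in 𝓝 (e b), h (e.symm x) = 0 := by
      have h1 : ContinuousAt e.symm (e b) := e.continuousAt_symm (e.map_source hbs)
      have h2 : e.symm (e b) = b := e.left_inv hbs
      have hb' : ∀ᶠ z in 𝓝 (e.symm (e b)), h z = 0 := by rw [h2]; exact hb
      exact h1.eventually hb'
    have key := eq_zero_of_convex (convex_ball _ _) isOpen_ball hd hbb hev
    show ∀ᶠ z in 𝓝 p, h z = 0
    filter_upwards [hN.mem_nhds hpN] with z hz
    have := key (e z) hz.2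
    rwa [e.left_inv hz.1] at this
  intro x
  exact (hsub (mem_univ x)).self_of_nhds

end Identity

lemma mdifferentiableAt_pi_of {E H M : Type*} [NormedAddCommGroup E] [NormedSpace ℂ E]
    [TopologicalSpace H] {I : ModelWithCorners ℂ E H} [TopologicalSpace M] [ChartedSpace H M]
    {k : ℕ} {g : M → Fin k → ℂ} {x : M} (h : ∀ i, MDifferentiableAt I 𝓘(ℂ, ℂ) (fun y => g y i) x) :
    MDifferentiableAt I 𝓘(ℂ, Fin k → ℂ) g x := by
  rw [mdifferentiableAt_iff]
  refine ⟨continuousAt_pi.mpr fun i => (h i).continuousAt, ?_⟩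
  have h1 : ∀ i, DifferentiableWithinAt ℂ (writtenInExtChartAt I 𝓘(ℂ, ℂ) x (fun y => g y i))
      (range I) (extChartAt I x x) := fun i => ((mdifferentiableAt_iff _ _).mp (h i)).2
  rw [differentiableWithinAt_pi]
  intro i
  exact h1 i

section Extension

variable {n : ℕ} {S : Type} [TopologicalSpace S] [ChartedSpace (Fin n → ℂ) S]
  [IsManifold 𝓘(ℂ, Fin n → ℂ) ω S]

/-- If the coordinates of a lift extend then so does the map. -/
theorem extend_of_lift [PreconnectedSpace S] {D : Set S} (hD : IsOpen D) (hne : D.Nonempty)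
    (hext : ∀ g : S → ℂ, MDifferentiableOn 𝓘(ℂ, Fin n → ℂ) 𝓘(ℂ, ℂ) g D →
      ∃ G : S → ℂ, MDifferentiable 𝓘(ℂ, Fin n → ℂ) 𝓘(ℂ, ℂ) G ∧ EqOn G g D)
    {f : S → XX} (hf : MDifferentiableOn 𝓘(ℂ, Fin n → ℂ) 𝓘(ℂ, E5) f D) {t : ℂ} (ht : t ≠ 0)
    (ht1 : ‖t‖ < 1) (hft : ∀ q ∈ D, pim (f q) = t) {G0 : S → E5} (hG0 : ContinuousOn G0 D)
    (hG0U : MapsTo G0 D USet) (hG0q : ∀ x ∈ D, qE (G0 x) = f x) :
    ∃ F : S → XX, MDifferentiable 𝓘(ℂ, Fin n → ℂ) 𝓘(ℂ, E5) F ∧ (∀ q ∈ D, F q = f q) ∧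
      ∀ q, pim (F q) = t := by
  have hd : MDifferentiableOn 𝓘(ℂ, Fin n → ℂ) 𝓘(ℂ, E5) G0 D :=
    lift_mdifferentiableOn hD hf hG0 hG0U hG0q
  have hdi : ∀ i : Fin 5, MDifferentiableOn 𝓘(ℂ, Fin n → ℂ) 𝓘(ℂ, ℂ) (fun x => G0 x i) D := by
    intro i x hx
    have h1 : MDifferentiableAt 𝓘(ℂ, Fin n → ℂ) 𝓘(ℂ, E5) G0 x :=
      (hd x hx).mdifferentiableAt (hD.mem_nhds hx)
    have h2 : MDifferentiableAt 𝓘(ℂ, E5) 𝓘(ℂ, ℂ) (fun w : E5 => w i) (G0 x) := by
      apply DifferentiableAt.mdifferentiableAt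
      exact differentiableAt_apply i _
    exact (MDifferentiableAt.comp (g := fun w : E5 => w i) x h2 h1).mdifferentiableWithinAt
  choose G hG hGD using fun i => hext _ (hdi i)
  set Gv : S → E5 := fun x i => G i x with hGv
  have hGvd : MDifferentiable 𝓘(ℂ, Fin n → ℂ) 𝓘(ℂ, E5) Gv := by
    intro x
    exact mdifferentiableAt_pi_of fun i => hG i x
  have hGvD : ∀ x ∈ D, Gv x = G0 x := fun x hx => funext fun i => hGD i hx
  have htau : ∀ x, tau (Gv x) - t = 0 := by
    obtain ⟨x0, hx0⟩ := hne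
    have h1 : MDifferentiable 𝓘(ℂ, Fin n → ℂ) 𝓘(ℂ, ℂ) (fun x => tau (Gv x) - t) := by
      intro x
      have h2 : MDifferentiableAt 𝓘(ℂ, E5) 𝓘(ℂ, ℂ) (fun w : E5 => tau w - t) (Gv x) := by
        apply DifferentiableAt.mdifferentiableAt
        exact ((contDiff_tau.differentiable (by simp)) _).sub_const t
      exact MDifferentiableAt.comp (g := fun w : E5 => tau w - t) x h2 (hGvd x)
    refine eq_zero_of_connected (n := n) h1 (x0 := x0) ?_
    filter_upwards [hD.mem_nhds hx0] with x hx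
    rw [hGvD x hx, ← pim_qE (hG0U hx), hG0q x hx, hft x hx, sub_self]
  have hGvU : ∀ x, Gv x ∈ USet := by
    intro x
    have h1 : tau (Gv x) = t := sub_eq_zero.mp (htau x)
    refine ⟨?_, by rw [h1]; exact ht1⟩
    by_contra hcon
    push Not at hcon
    rw [tau, hcon.1, hcon.2] at h1
    simp only [zero_mul, sub_zero] at h1
    exact ht h1.symm
  refine ⟨fun x => qE (Gv x), ?_, ?_, ?_⟩
  · intro x
    exact MDifferentiableAt.comp (g := qE) x (qE_mdifferentiableAt (hGvU x)) (hGvd x)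
  · intro q hq
    show qE (Gv q) = f q
    rw [hGvD q hq, hG0q q hq]
  · intro q
    show pim (qE (Gv q)) = t
    rw [pim_qE (hGvU q)]
    exact sub_eq_zero.mp (htau q)

end Extension

/-- the fibres over `t ≠ 0` have the meromorphic extension property (simply connected domains) -/
theorem hasExtensionPropertySC_fibre {t : ℂ} (ht : t ≠ 0) (ht1 : ‖t‖ < 1) :
    HasExtensionPropertySC (m := 5) (pim ⁻¹' {t}) := by
  intro n S _ _ _ _ _ _ D hD hsc A f hf
  obtain ⟨_, hDo, hDc, hext⟩ := hD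
  obtain ⟨f', hf', hf'f, hf't⟩ := removable hDo hf.indeterminacy_analytic hf.indeterminacy_codim
    hf.holomorphic ht ht1 (fun q hq => hf.mapsTo hq)
  have hlc : LocallyPathConnectedSpace S := ChartedSpace.locallyPathConnectedSpace (Fin n → ℂ) S
  obtain ⟨G0, hG0, hG0U, hG0q⟩ := exists_lift hsc hDo.locallyPathConnectedSpace hf'.continuousOn
  obtain ⟨F, hF, hFf, hFt⟩ := extend_of_lift hDo hDc.nonempty hext hf' ht ht1 hf't hG0 hG0U hG0q
  refine ⟨∅, F, isMeromorphicMap_of_mdifferentiableOn isOpen_univ hF.mdifferentiableOn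
    (fun q _ => hFt q), ?_⟩
  rintro q ⟨hq, hqA⟩
  rw [hFf q hq, hf'f q ⟨hq, fun h => hqA (Or.inl h)⟩]

end Pool.Agent.MEP
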