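import Mathlib

/-!
# Definitions: analytic subsets, meromorphic maps (Remmert), Stein manifolds,
the meromorphic extension property for simply connected domains, deformations over the disc

Complex manifolds are Mathlib manifolds with model `𝓘(ℂ, Fin n → ℂ)` and an analytic atlas
(`IsManifold 𝓘(ℂ, Fin n → ℂ) ω`), Hausdorff and second countable; holomorphic means
`MDifferentiable` over `ℂ`, as usual in Mathlib.
-/

set_option autoImplicit false

open Set Filter Topology
open scoped Manifold ContDiff

namespace Pool.Agent.MEP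

/-- `A` is an analytic subset of the open subset `Ω` of the complex manifold `M`: every point of
`Ω` has an open neighbourhood `V ⊆ Ω` in which `A` is the set of common zeros of finitely many
holomorphic functions. -/
def IsAnalyticSubset {E H : Type} [NormedAddCommGroup E] [NormedSpace ℂ E] [TopologicalSpace H]
    (I : ModelWithCorners ℂ E H) {M : Type} [TopologicalSpace M] [ChartedSpace H M]
    (Ω A : Set M) : Prop :=
  A ⊆ Ω ∧ ∀ p ∈ Ω, ∃ V : Set M, IsOpen V ∧ p ∈ V ∧ V ⊆ Ω ∧ ∃ (k : ℕ) (g : Fin k → M → ℂ),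
    (∀ i, MDifferentiableOn I 𝓘(ℂ, ℂ) (g i) V) ∧ ∀ q ∈ V, (q ∈ A ↔ ∀ i, g i q = 0)

/-- The subset `A` of the complex manifold `S` (of dimension `n`) has codimension at least two:
through every point `p` of `A` there is, in the chart at `p`, a complex affine plane in which
`p` is an isolated point of `A`. -/
def CodimGeTwo {n : ℕ} {S : Type} [TopologicalSpace S] [ChartedSpace (Fin n → ℂ) S]
    (A : Set S) : Prop :=
  ∀ p ∈ A, ∃ v w : Fin n → ℂ, LinearIndependent ℂ ![v, w] ∧
    ∀ᶠ z : ℂ × ℂ in 𝓝[≠] 0, (chartAt (Fin n → ℂ) p).symm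
      (chartAt (Fin n → ℂ) p p + z.1 • v + z.2 • w) ∉ A

section Meromorphic

variable {n m : ℕ} {S : Type} [TopologicalSpace S] [ChartedSpace (Fin n → ℂ) S]
  {X : Type} [TopologicalSpace X] [ChartedSpace (Fin m → ℂ) X]

/-- The closure in `Ω × X` of the graph of `f` over `Ω \ A`. -/
def graphClosure (Ω A : Set S) (f : S → X) : Set (S × X) :=
  closure {z : S × X | z.1 ∈ Ω \ A ∧ z.2 = f z.1} ∩ Ω ×ˢ univ

/-- `f` is a meromorphic map, in the sense of Remmert, from the open subset `Ω` of the complex
manifold `S` to the closed complex submanifold `Y` of the complex manifold `X`: `f` is holomorphic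
outside an analytic subset `A` of `Ω` of codimension at least two, and the closure of its graph is
an analytic subset of `Ω × X` and is proper over `Ω`. Only the values of `f` on `Ω \ A` matter. -/
structure IsMeromorphicMap (Ω : Set S) (Y : Set X) (A : Set S) (f : S → X) : Prop where
  indeterminacy_analytic : IsAnalyticSubset 𝓘(ℂ, Fin n → ℂ) Ω A
  indeterminacy_codim : CodimGeTwo (n := n) A
  holomorphic : MDifferentiableOn 𝓘(ℂ, Fin n → ℂ) 𝓘(ℂ, Fin m → ℂ) f (Ω \ A)
  mapsTo : MapsTo f (Ω \ A) Y
  graph_analytic : IsAnalyticSubset (𝓘(ℂ, Fin n → ℂ).prod 𝓘(ℂ, Fin m → ℂ)) (Ω ×ˢ (univ : Set X))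
    (graphClosure Ω A f)
  graph_proper : ∀ K ⊆ Ω, IsCompact K → IsCompact (graphClosure Ω A f ∩ K ×ˢ (univ : Set X))

end Meromorphic

/-- The hull of `K` with respect to the holomorphic functions of the complex manifold `S`: the
points `p` with `|g(p)| ≤ sup_K |g|` for all holomorphic functions `g` on `S`. -/
def holomorphicHull (n : ℕ) {S : Type} [TopologicalSpace S] [ChartedSpace (Fin n → ℂ) S]
    (K : Set S) : Set S :=
  {p : S | ∀ g : S → ℂ, MDifferentiable 𝓘(ℂ, Fin n → ℂ) 𝓘(ℂ, ℂ) g →
    ∀ c : ℝ, (∀ q ∈ K, ‖g q‖ ≤ c) → ‖g p‖ ≤ c}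

/-- The map `g` from the `n`-dimensional complex manifold `S` to `ℂⁿ` gives local coordinates at
`p`: its derivative at `p`, in the chart at `p`, is invertible. -/
def IsCoordinateAt {n : ℕ} {S : Type} [TopologicalSpace S] [ChartedSpace (Fin n → ℂ) S]
    (g : S → (Fin n → ℂ)) (p : S) : Prop :=
  (fderiv ℂ (g ∘ (chartAt (Fin n → ℂ) p).symm) (chartAt (Fin n → ℂ) p p)).IsInvertible

/-- Stein manifolds of dimension `n`: holomorphically convex, holomorphically separable complex
manifolds with local coordinates given by global holomorphic functions. -/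
structure IsStein (n : ℕ) (S : Type) [TopologicalSpace S] [ChartedSpace (Fin n → ℂ) S] : Prop where
  holomorphically_convex : ∀ K : Set S, IsCompact K → IsCompact (holomorphicHull n K)
  separates_points : ∀ p q : S, p ≠ q → ∃ g : S → ℂ,
    MDifferentiable 𝓘(ℂ, Fin n → ℂ) 𝓘(ℂ, ℂ) g ∧ g p ≠ g q
  local_coordinates : ∀ p : S, ∃ g : S → (Fin n → ℂ),
    MDifferentiable 𝓘(ℂ, Fin n → ℂ) 𝓘(ℂ, Fin n → ℂ) g ∧ IsCoordinateAt g p

/-- The Stein manifold `S` is the envelope of holomorphy of its subdomain `D`: every holomorphic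
function on `D` extends to a holomorphic function on `S`. (The envelope of holomorphy of a domain
`D` in a Stein manifold is itself a Stein manifold that contains `D` as a domain, so these are
exactly all pairs formed by a domain in a Stein manifold and its envelope of holomorphy.) -/
def IsEnvelopeOfHolomorphy (n : ℕ) {S : Type} [TopologicalSpace S] [ChartedSpace (Fin n → ℂ) S]
    (D : Set S) : Prop :=
  IsStein n S ∧ IsOpen D ∧ IsConnected D ∧
    ∀ g : S → ℂ, MDifferentiableOn 𝓘(ℂ, Fin n → ℂ) 𝓘(ℂ, ℂ) g D →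
      ∃ G : S → ℂ, MDifferentiable 𝓘(ℂ, Fin n → ℂ) 𝓘(ℂ, ℂ) G ∧ EqOn G g D

/-- The meromorphic extension property of the closed complex submanifold `Y` of `X`: whenever `D`
is a domain in a Stein manifold, with envelope of holomorphy `S`, every meromorphic map `f : D → Y`
admits a meromorphic extension `F : S → Y`. (As `Y` is a closed submanifold, maps into `Y` are maps
into `X` with values in `Y`.) -/
def HasExtensionProperty {m : ℕ} {X : Type} [TopologicalSpace X] [ChartedSpace (Fin m → ℂ) X]
    (Y : Set X) : Prop :=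
  ∀ (n : ℕ) (S : Type) [TopologicalSpace S] [T2Space S] [SecondCountableTopology S]
    [ConnectedSpace S] [ChartedSpace (Fin n → ℂ) S] [IsManifold 𝓘(ℂ, Fin n → ℂ) ω S] (D : Set S),
    IsEnvelopeOfHolomorphy n D →
    ∀ (A : Set S) (f : S → X), IsMeromorphicMap (n := n) (m := m) D Y A f →
      ∃ (B : Set S) (F : S → X), IsMeromorphicMap (n := n) (m := m) univ Y B F ∧
        EqOn F f (D \ (A ∪ B))

/-- The meromorphic extension property for simply connected domains: the same as
`HasExtensionProperty`, but only for the domains `D` that are simply connected. (All Hartogs figures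
are simply connected.) -/
def HasExtensionPropertySC {m : ℕ} {X : Type} [TopologicalSpace X] [ChartedSpace (Fin m → ℂ) X]
    (Y : Set X) : Prop :=
  ∀ (n : ℕ) (S : Type) [TopologicalSpace S] [T2Space S] [SecondCountableTopology S]
    [ConnectedSpace S] [ChartedSpace (Fin n → ℂ) S] [IsManifold 𝓘(ℂ, Fin n → ℂ) ω S] (D : Set S),
    IsEnvelopeOfHolomorphy n D → SimplyConnectedSpace D →
    ∀ (A : Set S) (f : S → X), IsMeromorphicMap (n := n) (m := m) D Y A f →
      ∃ (B : Set S) (F : S → X), IsMeromorphicMap (n := n) (m := m) univ Y B F ∧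
        EqOn F f (D \ (A ∪ B))

/-- The holomorphic function `π` on the complex manifold `X` has rank one at `x`: its differential
at `x` is a nonzero linear form. -/
def HasRankOneAt {m : ℕ} {X : Type} [TopologicalSpace X] [ChartedSpace (Fin m → ℂ) X]
    (π : X → ℂ) (x : X) : Prop :=
  ∃ L : (Fin m → ℂ) →L[ℂ] ℂ, L ≠ 0 ∧ HasMFDerivAt 𝓘(ℂ, Fin m → ℂ) 𝓘(ℂ, ℂ) π x L

/-- `π : X → ℂ` is a complex deformation over the unit disc `Δ`: the complex manifold `X` is mapped
holomorphically and properly onto `Δ`, with differential of rank one and connected fibres. -/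
structure IsDeformation {m : ℕ} {X : Type} [TopologicalSpace X] [ChartedSpace (Fin m → ℂ) X]
    (π : X → ℂ) : Prop where
  holomorphic : MDifferentiable 𝓘(ℂ, Fin m → ℂ) 𝓘(ℂ, ℂ) π
  range_eq : range π = Metric.ball (0 : ℂ) 1
  rank_one : ∀ x, HasRankOneAt (m := m) π x
  proper : ∀ K ⊆ Metric.ball (0 : ℂ) 1, IsCompact K → IsCompact (π ⁻¹' K)
  connected : ∀ t ∈ Metric.ball (0 : ℂ) 1, IsConnected (π ⁻¹' {t})

end Pool.Agent.MEP
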