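import Mathlib

/-!
# The group acting on the universal cover of the deformation

`U = {(x,y,u,v,s) ∈ ℂ⁵ : (x,y) ≠ 0, |xv - yu| < 1}` and the group generated by
`(x,y,u,v,s) ↦ (x,y,u + λ₁ x, v + λ₁ y, s + λ₂)` (`λ` in the lattice `ℤ[i][φ]`) and
`(x,y,u,v,s) ↦ (φ⁻¹x, φ⁻¹y, φu, φv, φ⁻²s)`.
-/

set_option autoImplicit false

open Set Filter Topology

namespace Pool.Agent.MEP

/-- the golden ratio -/
noncomputable def gr : ℝ := Real.goldenRatio

/-- the golden ratio as a complex number -/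
noncomputable def gc : ℂ := (gr : ℂ)

lemma gr_pos : 0 < gr := Real.goldenRatio_pos
lemma one_lt_gr : 1 < gr := Real.one_lt_goldenRatio
lemma gr_lt_two : gr < 2 := Real.goldenRatio_lt_two
lemma gr_ne : gr ≠ 0 := Real.goldenRatio_ne_zero
lemma gc_ne : gc ≠ 0 := by unfold gc; exact_mod_cast gr_ne

lemma gr_sq : gr ^ 2 = gr + 1 := Real.goldenRatio_sq
lemma gc_sq : gc ^ 2 = gc + 1 := by unfold gc; exact_mod_cast gr_sq

lemma gc_inv : gc⁻¹ = gc - 1 := by
  have h := gc_sq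
  have h0 := gc_ne
  field_simp
  linear_combination -h

/-- the five-dimensional model space -/
abbrev E5 := Fin 5 → ℂ

/-- The function `xv - yu` on `ℂ⁵`. -/
def tau (p : E5) : ℂ := p 0 * p 3 - p 1 * p 2

/-- The open subset `{(x,y) ≠ 0, |xv - yu| < 1}` of `ℂ⁵`. -/
def USet : Set E5 := {p | (p 0 ≠ 0 ∨ p 1 ≠ 0) ∧ ‖tau p‖ < 1}

lemma continuous_tau : Continuous tau := by
  unfold tau; fun_prop

lemma isOpen_USet : IsOpen USet := by
  have h1 : IsOpen {p : E5 | p 0 ≠ 0} := isOpen_ne_fun (by fun_prop) (by fun_prop)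
  have h2 : IsOpen {p : E5 | p 1 ≠ 0} := isOpen_ne_fun (by fun_prop) (by fun_prop)
  have h3 : IsOpen {p : E5 | ‖tau p‖ < 1} :=
    isOpen_lt (continuous_tau.norm) continuous_const
  exact (h1.union h2).inter h3

/-- `U` as an open subset of `ℂ⁵`. -/
def UOpen : TopologicalSpace.Opens E5 := ⟨USet, isOpen_USet⟩

/-- the affine map `T_l ∘ h^k` -/
noncomputable def act (k : ℤ) (l : ℂ × ℂ) (p : E5) : E5 :=
  ![gc ^ (-k) * p 0, gc ^ (-k) * p 1, gc ^ k * p 2 + l.1 * (gc ^ (-k) * p 0),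
    gc ^ k * p 3 + l.1 * (gc ^ (-k) * p 1), gc ^ (-(2 * k)) * p 4 + l.2]

@[simp] lemma act_zero' (k : ℤ) (l : ℂ × ℂ) (p : E5) : act k l p 0 = gc ^ (-k) * p 0 := rfl
@[simp] lemma act_one' (k : ℤ) (l : ℂ × ℂ) (p : E5) : act k l p 1 = gc ^ (-k) * p 1 := rfl
@[simp] lemma act_two' (k : ℤ) (l : ℂ × ℂ) (p : E5) :
    act k l p 2 = gc ^ k * p 2 + l.1 * (gc ^ (-k) * p 0) := rfl
@[simp] lemma act_three' (k : ℤ) (l : ℂ × ℂ) (p : E5) :
    act k l p 3 = gc ^ k * p 3 + l.1 * (gc ^ (-k) * p 1) := rfl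
@[simp] lemma act_four' (k : ℤ) (l : ℂ × ℂ) (p : E5) :
    act k l p 4 = gc ^ (-(2 * k)) * p 4 + l.2 := rfl

lemma ext5 {p q : E5} (h0 : p 0 = q 0) (h1 : p 1 = q 1) (h2 : p 2 = q 2) (h3 : p 3 = q 3)
    (h4 : p 4 = q 4) : p = q := by
  funext i; fin_cases i <;> assumption

lemma gc_zpow_neg_mul (k : ℤ) : gc ^ (-k) * gc ^ k = 1 := by
  rw [← zpow_add₀ gc_ne]; simp

lemma gc_zpow_mul_neg (k : ℤ) : gc ^ k * gc ^ (-k) = 1 := by
  rw [← zpow_add₀ gc_ne]; simp

lemma tau_act (k : ℤ) (l : ℂ × ℂ) (p : E5) : tau (act k l p) = tau p := by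
  have h := gc_zpow_neg_mul k
  simp only [tau, act_zero', act_one', act_two', act_three']
  linear_combination (p 0 * p 3 - p 1 * p 2) * h

lemma act_mem {k : ℤ} {l : ℂ × ℂ} {p : E5} (hp : p ∈ USet) : act k l p ∈ USet := by
  refine ⟨?_, ?_⟩
  · have h : gc ^ (-k) ≠ 0 := zpow_ne_zero _ gc_ne
    rcases hp.1 with h' | h'
    · left; rw [act_zero']; exact mul_ne_zero h h'
    · right; rw [act_one']; exact mul_ne_zero h h'
  · rw [tau_act]; exact hp.2

lemma act_act (k m : ℤ) (l l' : ℂ × ℂ) (p : E5) :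
    act k l (act m l' p) = act (k + m) (l.1 + gc ^ (2 * k) * l'.1, l.2 + gc ^ (-(2 * k)) * l'.2) p := by
  have e1 : gc ^ (-(k + m)) = gc ^ (-k) * gc ^ (-m) := by rw [← zpow_add₀ gc_ne]; congr 1; ring
  have e2 : gc ^ (k + m) = gc ^ k * gc ^ m := zpow_add₀ gc_ne _ _
  have e3 : gc ^ (2 * k) = gc ^ k * gc ^ k := by rw [← zpow_add₀ gc_ne]; congr 1; ring
  have e4 : gc ^ (-(2 * (k + m))) = gc ^ (-(2 * k)) * gc ^ (-(2 * m)) := by
    rw [← zpow_add₀ gc_ne]; congr 1; ring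
  have h := gc_zpow_neg_mul k
  apply ext5
  · simp only [act_zero', e1]; ring
  · simp only [act_one', e1]; ring
  · simp only [act_zero', act_two', e1, e2, e3]
    linear_combination (-(gc ^ k * l'.1 * gc ^ (-m) * p 0)) * h
  · simp only [act_one', act_three', e1, e2, e3]
    linear_combination (-(gc ^ k * l'.1 * gc ^ (-m) * p 1)) * h
  · simp only [act_four', e4]; ring

lemma act_zero_zero (p : E5) : act 0 0 p = p := by
  apply ext5 <;> simp

/-- the lattice `ℤ[i][φ]` embedded in `ℂ²` by its two embeddings over `ℚ(i)` -/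
def Lam : AddSubgroup (ℂ × ℂ) where
  carrier := {l | ∃ a b : GaussianInt, l.1 = (a : ℂ) + (b : ℂ) * gc ∧ l.2 = (a : ℂ) + (b : ℂ) * (1 - gc)}
  add_mem' := by
    rintro l l' ⟨a, b, h1, h2⟩ ⟨a', b', h1', h2'⟩
    refine ⟨a + a', b + b', ?_, ?_⟩
    · simp only [Prod.fst_add, h1, h1', GaussianInt.toComplex_add]; ring
    · simp only [Prod.snd_add, h2, h2', GaussianInt.toComplex_add]; ring
  zero_mem' := ⟨0, 0, by simp, by simp⟩
  neg_mem' := by
    rintro l ⟨a, b, h1, h2⟩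
    refine ⟨-a, -b, ?_, ?_⟩
    · simp only [Prod.fst_neg, h1, GaussianInt.toComplex_neg]; ring
    · simp only [Prod.snd_neg, h2, GaussianInt.toComplex_neg]; ring

lemma mem_Lam {l : ℂ × ℂ} : l ∈ Lam ↔ ∃ a b : GaussianInt,
    l.1 = (a : ℂ) + (b : ℂ) * gc ∧ l.2 = (a : ℂ) + (b : ℂ) * (1 - gc) := Iff.rfl

lemma Lam_mul_sq {l : ℂ × ℂ} (hl : l ∈ Lam) : (gc ^ (2 : ℤ) * l.1, gc ^ (-2 : ℤ) * l.2) ∈ Lam := by
  obtain ⟨a, b, h1, h2⟩ := hl
  refine ⟨a + b, a + 2 * b, ?_, ?_⟩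
  · simp only [h1, GaussianInt.toComplex_add, GaussianInt.toComplex_mul, map_ofNat]
    have := gc_sq
    have e : gc ^ (2 : ℤ) = gc + 1 := by exact_mod_cast this
    rw [e]
    linear_combination (b : ℂ) * this
  · simp only [h2, GaussianInt.toComplex_add, GaussianInt.toComplex_mul, map_ofNat]
    have := gc_sq
    have e : gc ^ (-2 : ℤ) = 2 - gc := by
      rw [zpow_neg]
      have h2 : gc ^ (2 : ℤ) = gc + 1 := by exact_mod_cast this
      rw [h2]
      have h3 : gc + 1 ≠ 0 := by rw [← this]; exact pow_ne_zero 2 gc_ne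
      field_simp
      linear_combination this
    rw [e]
    linear_combination (b : ℂ) * this

lemma Lam_mul_sq_inv {l : ℂ × ℂ} (hl : l ∈ Lam) : (gc ^ (-2 : ℤ) * l.1, gc ^ (2 : ℤ) * l.2) ∈ Lam := by
  obtain ⟨a, b, h1, h2⟩ := hl
  have := gc_sq
  have e' : gc ^ (2 : ℤ) = gc + 1 := by exact_mod_cast this
  have e : gc ^ (-2 : ℤ) = 2 - gc := by
    rw [zpow_neg]
    rw [e']
    have h3 : gc + 1 ≠ 0 := by rw [← this]; exact pow_ne_zero 2 gc_ne
    field_simp
    linear_combination this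
  refine ⟨2 * a - b, b - a, ?_, ?_⟩
  · simp only [h1, GaussianInt.toComplex_sub, GaussianInt.toComplex_mul, map_ofNat]
    rw [e]
    linear_combination (-(b : ℂ)) * this
  · simp only [h2, GaussianInt.toComplex_sub, GaussianInt.toComplex_mul, map_ofNat]
    rw [e']
    linear_combination (-(b : ℂ)) * this

lemma Lam_mul_zpow (k : ℤ) {l : ℂ × ℂ} (hl : l ∈ Lam) :
    (gc ^ (2 * k) * l.1, gc ^ (-(2 * k)) * l.2) ∈ Lam := by
  induction k using Int.induction_on with
  | zero => simpa using hl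
  | succ i ih =>
    have := Lam_mul_sq ih
    have e1 : gc ^ (2 * ((i : ℤ) + 1)) = gc ^ (2 : ℤ) * gc ^ (2 * (i : ℤ)) := by
      rw [← zpow_add₀ gc_ne]; congr 1; ring
    have e2 : gc ^ (-(2 * ((i : ℤ) + 1))) = gc ^ (-2 : ℤ) * gc ^ (-(2 * (i : ℤ))) := by
      rw [← zpow_add₀ gc_ne]; congr 1; ring
    rw [e1, e2, mul_assoc, mul_assoc]
    exact this
  | pred i ih =>
    have := Lam_mul_sq_inv ih
    have e1 : gc ^ (2 * (-(i : ℤ) - 1)) = gc ^ (-2 : ℤ) * gc ^ (2 * (-(i : ℤ))) := by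
      rw [← zpow_add₀ gc_ne]; congr 1; ring
    have e2 : gc ^ (-(2 * (-(i : ℤ) - 1))) = gc ^ (2 : ℤ) * gc ^ (-(2 * (-(i : ℤ)))) := by
      rw [← zpow_add₀ gc_ne]; congr 1; ring
    rw [e1, e2, mul_assoc, mul_assoc]
    exact this

/-- the group of all maps `T_l h^k`, `k ∈ ℤ`, `l ∈ Lam`, acting on `U` -/
def Gam : Subgroup (Equiv.Perm UOpen) where
  carrier := {g | ∃ k : ℤ, ∃ l ∈ Lam, ∀ p : UOpen, (g p : E5) = act k l p}
  mul_mem' := by
    rintro g g' ⟨k, l, hl, h⟩ ⟨m, l', hl', h'⟩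
    refine ⟨k + m, _, add_mem hl (Lam_mul_zpow k hl'), fun p => ?_⟩
    rw [Equiv.Perm.mul_apply, h, h', act_act]
    rfl
  one_mem' := ⟨0, 0, zero_mem _, fun p => by simp [act_zero_zero]⟩
  inv_mem' := by
    rintro g ⟨k, l, hl, h⟩
    refine ⟨-k, _, neg_mem (Lam_mul_zpow (-k) hl), fun p => ?_⟩
    obtain ⟨p', rfl⟩ := g.surjective p
    have e : g⁻¹ (g p') = p' := g.symm_apply_apply p'
    rw [e, h, act_act]
    simp only [Prod.fst_neg, Prod.snd_neg, neg_add_cancel]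
    exact (act_zero_zero _).symm

lemma Gam_mem_iff {g : Equiv.Perm UOpen} :
    g ∈ Gam ↔ ∃ k : ℤ, ∃ l ∈ Lam, ∀ p : UOpen, (g p : E5) = act k l p := Iff.rfl

/-- the element `T_l h^k` of the group -/
noncomputable def actPerm (k : ℤ) (l : ℂ × ℂ) : Equiv.Perm UOpen where
  toFun p := ⟨act k l p, act_mem p.2⟩
  invFun p := ⟨act (-k) (-(gc ^ (2 * (-k)) * l.1), -(gc ^ (-(2 * (-k))) * l.2)) p, act_mem p.2⟩
  left_inv p := by
    apply Subtype.ext
    simp only [act_act, neg_add_cancel]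
    exact act_zero_zero _
  right_inv p := by
    apply Subtype.ext
    simp only [act_act, add_neg_cancel]
    convert act_zero_zero _ using 2
    have e1 : gc ^ (2 * k) * gc ^ (2 * (-k)) = 1 := by
      rw [← zpow_add₀ gc_ne]; convert zpow_zero _ using 2; ring
    have e2 : gc ^ (-(2 * k)) * gc ^ (-(2 * (-k))) = 1 := by
      rw [← zpow_add₀ gc_ne]; convert zpow_zero _ using 2; ring
    ext
    · simp only [Prod.fst_zero]
      linear_combination (-l.1) * e1
    · simp only [Prod.snd_zero]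
      linear_combination (-l.2) * e2

lemma actPerm_mem (k : ℤ) {l : ℂ × ℂ} (hl : l ∈ Lam) : actPerm k l ∈ Gam :=
  ⟨k, l, hl, fun _ => rfl⟩

lemma smul_def' (g : Gam) (p : UOpen) : g • p = (g : Equiv.Perm UOpen) p := rfl

lemma exists_smul_eq (g : Gam) : ∃ k : ℤ, ∃ l ∈ Lam, ∀ p : UOpen, ((g • p : UOpen) : E5) = act k l p :=
  g.2

lemma continuous_act (k : ℤ) (l : ℂ × ℂ) : Continuous (act k l) := by
  refine continuous_pi fun i => ?_
  fin_cases i
  · simp only [Fin.zero_eta, act_zero']; fun_prop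
  · simp only [Fin.mk_one, act_one']; fun_prop
  · show Continuous fun p => act k l p 2
    simp only [act_two']; fun_prop
  · show Continuous fun p => act k l p 3
    simp only [act_three']; fun_prop
  · show Continuous fun p => act k l p 4
    simp only [act_four']; fun_prop

instance : ContinuousConstSMul Gam UOpen where
  continuous_const_smul g := by
    obtain ⟨k, l, _, h⟩ := exists_smul_eq g
    rw [continuous_induced_rng]
    have : (Subtype.val ∘ fun p : UOpen => g • p) = fun p : UOpen => act k l p := funext h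
    rw [this]
    exact (continuous_act k l).comp continuous_subtype_val

lemma gr_zpow_inj {k : ℤ} (h : gc ^ k = 1) : k = 0 := by
  have h1 : gr ^ k = 1 := by unfold gc at h; exact_mod_cast h
  rcases lt_trichotomy k 0 with hk | hk | hk
  · exact absurd h1 (zpow_lt_one_of_neg₀ one_lt_gr hk).ne
  · exact hk
  · exact absurd h1 (one_lt_zpow₀ one_lt_gr hk).ne'

lemma act_eq_self {k : ℤ} {l : ℂ × ℂ} {p : E5} (hp : p ∈ USet)
    (h : act k l p = p) : k = 0 ∧ l = 0 := by
  have h0 := congrFun h 0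
  have h1 := congrFun h 1
  have h2 := congrFun h 2
  have h3 := congrFun h 3
  have h4 := congrFun h 4
  simp only [act_zero', act_one', act_two', act_three', act_four'] at h0 h1 h2 h3 h4
  have hk : k = 0 := by
    have : gc ^ (-k) = 1 := by
      rcases hp.1 with h' | h'
      · exact mul_right_cancel₀ h' (by rw [h0, one_mul])
      · exact mul_right_cancel₀ h' (by rw [h1, one_mul])
    have := gr_zpow_inj this
    omega
  subst hk
  simp only [neg_zero, zpow_zero, one_mul, mul_zero, add_eq_left, mul_eq_zero] at h2 h3 h4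
  refine ⟨rfl, ?_⟩
  ext1
  · rcases hp.1 with h' | h'
    · exact h2.resolve_right h'
    · exact h3.resolve_right h'
  · exact h4

instance : IsCancelSMul Gam UOpen where
  left_cancel' g p q h := by
    have := congrArg (fun z => g⁻¹ • z) h
    simpa using this
  right_cancel' g g' p h := by
    have h' : (g'⁻¹ * g) • p = p := by
      rw [mul_smul, h, inv_smul_smul]
    obtain ⟨k, l, _, hh⟩ := exists_smul_eq (g'⁻¹ * g)
    have h2 : act k l p = p := by rw [← hh, h']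
    obtain ⟨rfl, rfl⟩ := act_eq_self p.2 h2
    have h3 : g'⁻¹ * g = 1 := by
      apply Subtype.ext
      apply Equiv.ext
      intro q
      apply Subtype.ext
      rw [← smul_def', hh, act_zero_zero]
      simp
    rw [inv_mul_eq_one] at h3
    exact h3.symm

end Pool.Agent.MEP
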