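import Pool.Agent.MEP.Quot

/-!
# The projection to the disc
-/

set_option autoImplicit false

open Set Filter Topology
open scoped Manifold ContDiff ComplexConjugate

namespace Pool.Agent.MEP

lemma tau_smul (g : Gam) (p : UOpen) : tau ((g • p : UOpen) : E5) = tau p := by
  obtain ⟨k, l, _, h⟩ := exists_smul_eq g
  rw [h, tau_act]

/-- the projection of the deformation -/
def pim : XX → ℂ :=
  Quotient.lift (fun p : UOpen => tau p) (by
    rintro p p' ⟨g, rfl⟩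
    exact tau_smul g p')

@[simp] lemma pim_qm (p : UOpen) : pim (qm p) = tau p := rfl

lemma contDiff_tau : ContDiff ℂ ω tau := by
  unfold tau
  exact ((contDiff_apply ℂ ℂ 0).mul (contDiff_apply ℂ ℂ 3)).sub
    ((contDiff_apply ℂ ℂ 1).mul (contDiff_apply ℂ ℂ 2))

lemma pim_eventually (y : XX) : ∀ᶠ z in 𝓝 y, pim z = tau (sg (cpt y) z) := by
  have h : y ∈ (sg (cpt y)).source := by
    have := qm_mem_sg_source (cpt y)
    rwa [qm_cpt] at this
  filter_upwards [(sg (cpt y)).open_source.mem_nhds h] with z hz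
  rw [← pim_qm, qm_sg hz]

lemma pim_contMDiff : ContMDiff 𝓘(ℂ, E5) 𝓘(ℂ, ℂ) ω pim := by
  intro y
  have h : y ∈ (sg (cpt y)).source := by
    have := qm_mem_sg_source (cpt y)
    rwa [qm_cpt] at this
  have h1 : ContMDiffAt 𝓘(ℂ, E5) 𝓘(ℂ, ℂ) ω (fun z => tau (sg (cpt y) z : E5)) y :=
    contDiff_tau.contMDiff.contMDiffAt.comp y
      ((sg_contMDiffOn (cpt y)).contMDiffAt ((sg (cpt y)).open_source.mem_nhds h))
  exact h1.congr_of_eventuallyEq (pim_eventually y)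

lemma pim_continuous : Continuous pim := pim_contMDiff.continuous

lemma pim_mdifferentiable : MDifferentiable 𝓘(ℂ, E5) 𝓘(ℂ, ℂ) pim :=
  pim_contMDiff.mdifferentiable (by simp)

lemma range_pim : range pim = Metric.ball (0 : ℂ) 1 := by
  ext t
  constructor
  · rintro ⟨y, rfl⟩
    obtain ⟨p, rfl⟩ := qm_surjective y
    rw [pim_qm, mem_ball_zero_iff]
    exact p.2.2
  · intro ht
    rw [mem_ball_zero_iff] at ht
    have h : (![1, 0, 0, t, 0] : E5) ∈ USet := by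
      refine ⟨Or.inl (by simp), ?_⟩
      simp only [tau]
      simpa using ht
    refine ⟨qm ⟨_, h⟩, ?_⟩
    rw [pim_qm]
    simp [tau]

/-- the derivative of `tau` -/
lemma hasFDerivAt_tau (z : E5) : HasFDerivAt tau
    (z 0 • (ContinuousLinearMap.proj 3 : E5 →L[ℂ] ℂ) + z 3 • (ContinuousLinearMap.proj 0 : E5 →L[ℂ] ℂ)
      - (z 1 • (ContinuousLinearMap.proj 2 : E5 →L[ℂ] ℂ) + z 2 • (ContinuousLinearMap.proj 1 : E5 →L[ℂ] ℂ))) z := by
  unfold tau
  exact (((ContinuousLinearMap.proj 0 : E5 →L[ℂ] ℂ).hasFDerivAt).mul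
    ((ContinuousLinearMap.proj 3 : E5 →L[ℂ] ℂ).hasFDerivAt)).sub
    (((ContinuousLinearMap.proj 1 : E5 →L[ℂ] ℂ).hasFDerivAt).mul
    ((ContinuousLinearMap.proj 2 : E5 →L[ℂ] ℂ).hasFDerivAt))

lemma fderiv_tau_surjective {z : E5} (hz : z 0 ≠ 0 ∨ z 1 ≠ 0) :
    Function.Surjective (fderiv ℂ tau z) := by
  rw [(hasFDerivAt_tau z).fderiv]
  intro w
  rcases hz with h | h
  · refine ⟨![0, 0, 0, w / z 0, 0], ?_⟩
    simp
    field_simp
  · refine ⟨![0, 0, -w / z 1, 0, 0], ?_⟩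
    simp
    field_simp

lemma mfderiv_pim_surjective (y : XX) :
    Function.Surjective (mfderiv 𝓘(ℂ, E5) 𝓘(ℂ, ℂ) pim y) := by
  rw [(pim_mdifferentiable y).mfderiv]
  have hz1 : chartAt E5 y y ∈ (chartAt E5 y).target := mem_chart_target E5 y
  obtain ⟨hU, hs⟩ := chartAt_symm_apply hz1
  have h3 : extChartAt 𝓘(ℂ, E5) y y = chartAt E5 y y := by simp [extChartAt, mfld_simps]
  rw [h3]
  have h4 : fderivWithin ℂ (writtenInExtChartAt 𝓘(ℂ, E5) 𝓘(ℂ, ℂ) y pim)
      (range (𝓘(ℂ, E5) : E5 → E5)) (chartAt E5 y y) = fderiv ℂ tau (chartAt E5 y y) := by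
    rw [modelWithCornersSelf_coe, range_id, fderivWithin_univ]
    apply Filter.EventuallyEq.fderiv_eq
    have h2 : ∀ᶠ w in 𝓝 (chartAt E5 y y), w ∈ (chartAt E5 y).target :=
      (chartAt E5 y).open_target.mem_nhds hz1
    filter_upwards [h2] with w hw
    obtain ⟨hw6, hw7⟩ := chartAt_symm_apply hw
    simp only [writtenInExtChartAt, extChartAt, mfld_simps, Function.comp_apply]
    rw [hw7, pim_qm]
  rw [h4]
  exact fderiv_tau_surjective hU.1

/-! ### Connected fibres -/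

/-- parametrisation of the fibre of `tau` over `t` -/
noncomputable def theta (t : ℂ) (w : (ℂ × ℂ) × ℂ × ℂ) : E5 :=
  ![w.1.1, w.1.2,
    (w.1.1 * w.2.1 * (w.1.1 * conj w.1.1 + w.1.2 * conj w.1.2) - conj w.1.2 * t) /
      (w.1.1 * conj w.1.1 + w.1.2 * conj w.1.2),
    (w.1.2 * w.2.1 * (w.1.1 * conj w.1.1 + w.1.2 * conj w.1.2) + conj w.1.1 * t) /
      (w.1.1 * conj w.1.1 + w.1.2 * conj w.1.2),
    w.2.2]

lemma sum_conj_ne_zero {x y : ℂ} (h : x ≠ 0 ∨ y ≠ 0) : x * conj x + y * conj y ≠ 0 := by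
  rw [Complex.mul_conj, Complex.mul_conj]
  have : 0 < Complex.normSq x + Complex.normSq y := by
    rcases h with h | h
    · have := Complex.normSq_pos.mpr h
      have := Complex.normSq_nonneg y
      linarith
    · have := Complex.normSq_pos.mpr h
      have := Complex.normSq_nonneg x
      linarith
  exact_mod_cast this.ne'

lemma isConnected_fibre_E5 (t : ℂ) : IsConnected {p : E5 | (p 0 ≠ 0 ∨ p 1 ≠ 0) ∧ tau p = t} := by
  have hA : IsConnected ({(0 : ℂ × ℂ)}ᶜ : Set (ℂ × ℂ)) := by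
    apply isConnected_compl_singleton_of_one_lt_rank
    rw [rank_prod', Complex.rank_real_complex]
    norm_num
  have hB : IsConnected (({(0 : ℂ × ℂ)}ᶜ : Set (ℂ × ℂ)) ×ˢ (univ : Set (ℂ × ℂ))) :=
    hA.prod isConnected_univ
  have hne : ∀ w ∈ (({(0 : ℂ × ℂ)}ᶜ : Set (ℂ × ℂ)) ×ˢ (univ : Set (ℂ × ℂ))), w.1.1 ≠ 0 ∨ w.1.2 ≠ 0 := by
    rintro ⟨⟨x, y⟩, w⟩ ⟨h, -⟩
    by_contra hcon
    push Not at hcon
    exact h (Prod.ext hcon.1 hcon.2)
  have hcont : ContinuousOn (theta t) (({(0 : ℂ × ℂ)}ᶜ : Set (ℂ × ℂ)) ×ˢ (univ : Set (ℂ × ℂ))) := by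
    have hD : ∀ w ∈ (({(0 : ℂ × ℂ)}ᶜ : Set (ℂ × ℂ)) ×ˢ (univ : Set (ℂ × ℂ))),
        w.1.1 * conj w.1.1 + w.1.2 * conj w.1.2 ≠ 0 := fun w hw => sum_conj_ne_zero (hne w hw)
    refine continuousOn_pi.mpr fun i => ?_
    fin_cases i
    · show ContinuousOn (fun w : (ℂ × ℂ) × ℂ × ℂ => w.1.1) _
      fun_prop
    · show ContinuousOn (fun w : (ℂ × ℂ) × ℂ × ℂ => w.1.2) _
      fun_prop
    · show ContinuousOn (fun w : (ℂ × ℂ) × ℂ × ℂ =>
        (w.1.1 * w.2.1 * (w.1.1 * conj w.1.1 + w.1.2 * conj w.1.2) - conj w.1.2 * t) /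
        (w.1.1 * conj w.1.1 + w.1.2 * conj w.1.2)) _
      refine ContinuousOn.div ?_ ?_ hD
      · refine Continuous.continuousOn ?_
        have := Complex.continuous_conj
        fun_prop
      · refine Continuous.continuousOn ?_
        have := Complex.continuous_conj
        fun_prop
    · show ContinuousOn (fun w : (ℂ × ℂ) × ℂ × ℂ =>
        (w.1.2 * w.2.1 * (w.1.1 * conj w.1.1 + w.1.2 * conj w.1.2) + conj w.1.1 * t) /
        (w.1.1 * conj w.1.1 + w.1.2 * conj w.1.2)) _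
      refine ContinuousOn.div ?_ ?_ hD
      · refine Continuous.continuousOn ?_
        have := Complex.continuous_conj
        fun_prop
      · refine Continuous.continuousOn ?_
        have := Complex.continuous_conj
        fun_prop
    · show ContinuousOn (fun w : (ℂ × ℂ) × ℂ × ℂ => w.2.2) _
      fun_prop
  have himg := hB.image (theta t) hcont
  convert himg using 1
  ext p
  constructor
  · rintro ⟨hp, ht⟩
    have hD := sum_conj_ne_zero hp
    refine ⟨((p 0, p 1), (conj (p 0) * p 2 + conj (p 1) * p 3) /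
      (p 0 * conj (p 0) + p 1 * conj (p 1)), p 4), ⟨?_, mem_univ _⟩, ?_⟩
    · rintro h
      simp only [mem_singleton_iff, Prod.mk_eq_zero] at h
      rcases hp with h' | h'
      · exact h' h.1
      · exact h' h.2
    · apply ext5
      · rfl
      · rfl
      · show (p 0 * ((conj (p 0) * p 2 + conj (p 1) * p 3) /
          (p 0 * conj (p 0) + p 1 * conj (p 1))) * (p 0 * conj (p 0) + p 1 * conj (p 1)) - conj (p 1) * t) /
          (p 0 * conj (p 0) + p 1 * conj (p 1)) = p 2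
        rw [← ht, mul_assoc, div_mul_cancel₀ _ hD, div_eq_iff hD]
        unfold tau
        ring
      · show (p 1 * ((conj (p 0) * p 2 + conj (p 1) * p 3) /
          (p 0 * conj (p 0) + p 1 * conj (p 1))) * (p 0 * conj (p 0) + p 1 * conj (p 1)) + conj (p 0) * t) /
          (p 0 * conj (p 0) + p 1 * conj (p 1)) = p 3
        rw [← ht, mul_assoc, div_mul_cancel₀ _ hD, div_eq_iff hD]
        unfold tau
        ring
      · rfl
  · rintro ⟨w, hw, rfl⟩
    have hD := sum_conj_ne_zero (hne w hw)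
    refine ⟨hne w hw, ?_⟩
    show w.1.1 * ((w.1.2 * w.2.1 * (w.1.1 * conj w.1.1 + w.1.2 * conj w.1.2) + conj w.1.1 * t) /
      (w.1.1 * conj w.1.1 + w.1.2 * conj w.1.2)) - w.1.2 *
      ((w.1.1 * w.2.1 * (w.1.1 * conj w.1.1 + w.1.2 * conj w.1.2) - conj w.1.2 * t) /
      (w.1.1 * conj w.1.1 + w.1.2 * conj w.1.2)) = t
    field_simp
    ring

lemma isConnected_fibre {t : ℂ} (ht : t ∈ Metric.ball (0 : ℂ) 1) : IsConnected (pim ⁻¹' {t}) := by
  rw [mem_ball_zero_iff] at ht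
  have h1 : (Subtype.val : UOpen → E5) '' {p : UOpen | tau p = t} =
      {p : E5 | (p 0 ≠ 0 ∨ p 1 ≠ 0) ∧ tau p = t} := by
    ext p
    constructor
    · rintro ⟨p, hp, rfl⟩
      exact ⟨p.2.1, hp⟩
    · rintro ⟨hp, hpt⟩
      exact ⟨⟨p, hp, by rw [hpt]; exact ht⟩, hpt, rfl⟩
  have h2 : IsConnected {p : UOpen | tau p = t} := by
    refine ⟨?_, ?_⟩
    · obtain ⟨p, hp⟩ := (isConnected_fibre_E5 t).nonempty
      rw [← h1] at hp
      obtain ⟨p', hp', _⟩ := hp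
      exact ⟨p', hp'⟩
    · refine (Topology.IsInducing.subtypeVal.isPreconnected_image).mp ?_
      have h3 := (isConnected_fibre_E5 t).isPreconnected
      rw [← h1] at h3
      exact h3
  have h3 := h2.image qm qm_continuous.continuousOn
  convert h3 using 1
  ext y
  constructor
  · intro hy
    obtain ⟨p, rfl⟩ := qm_surjective y
    exact ⟨p, hy, rfl⟩
  · rintro ⟨p, hp, rfl⟩
    exact hp

/-! ### Properness -/

lemma exists_gaussianInt_near (z : ℂ) : ∃ a : GaussianInt, ‖(a : ℂ) - z‖ ≤ 1 := by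
  refine ⟨⟨round z.re, round z.im⟩, ?_⟩
  have h1 : |((((⟨round z.re, round z.im⟩ : GaussianInt) : ℂ)) - z).re| ≤ 1 / 2 := by
    rw [Complex.sub_re, ← GaussianInt.intCast_re, abs_sub_comm]
    exact abs_sub_round z.re
  have h2 : |((((⟨round z.re, round z.im⟩ : GaussianInt) : ℂ)) - z).im| ≤ 1 / 2 := by
    rw [Complex.sub_im, ← GaussianInt.intCast_im, abs_sub_comm]
    exact abs_sub_round z.im
  have := Complex.norm_le_abs_re_add_abs_im ((((⟨round z.re, round z.im⟩ : GaussianInt) : ℂ)) - z)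
  linarith

lemma exists_lattice_near (c s : ℂ) : ∃ l ∈ Lam, ‖c + l.1‖ ≤ 3 ∧ ‖s + l.2‖ ≤ 3 := by
  have hne : (2 * gc - 1 : ℂ) ≠ 0 := by
    have : 2 * gc - 1 = ((2 * gr - 1 : ℝ) : ℂ) := by unfold gc; push_cast; ring
    rw [this]
    have := one_lt_gr
    have h : (2 * gr - 1 : ℝ) ≠ 0 := by linarith
    exact_mod_cast h
  set β := (s - c) / (2 * gc - 1) with hβ
  have hβ' : β * (2 * gc - 1) = s - c := div_mul_cancel₀ _ hne
  set α := -c - β * gc with hα
  obtain ⟨a, ha⟩ := exists_gaussianInt_near α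
  obtain ⟨b, hb⟩ := exists_gaussianInt_near β
  refine ⟨lam a b, lam_mem a b, ?_, ?_⟩
  · have e : c + (lam a b).1 = ((a : ℂ) - α) + ((b : ℂ) - β) * gc := by
      simp only [lam, hα]; ring
    rw [e]
    calc ‖((a : ℂ) - α) + ((b : ℂ) - β) * gc‖ ≤ ‖(a : ℂ) - α‖ + ‖((b : ℂ) - β) * gc‖ := norm_add_le _ _
      _ = ‖(a : ℂ) - α‖ + ‖(b : ℂ) - β‖ * gr := by rw [norm_mul, norm_gc]
      _ ≤ 1 + 1 * 2 := add_le_add ha (mul_le_mul hb gr_lt_two.le gr_pos.le zero_le_one)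
      _ = 3 := by norm_num
  · have e : s + (lam a b).2 = ((a : ℂ) - α) + ((b : ℂ) - β) * (1 - gc) := by
      simp only [lam, hα]
      linear_combination -hβ'
    have hn : ‖1 - gc‖ ≤ 1 := by
      have : 1 - gc = ((1 - gr : ℝ) : ℂ) := by unfold gc; push_cast; ring
      rw [this, Complex.norm_real, Real.norm_eq_abs, abs_le]
      have := one_lt_gr
      have := gr_lt_two
      constructor <;> linarith
    rw [e]
    calc ‖((a : ℂ) - α) + ((b : ℂ) - β) * (1 - gc)‖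
        ≤ ‖(a : ℂ) - α‖ + ‖((b : ℂ) - β) * (1 - gc)‖ := norm_add_le _ _
      _ = ‖(a : ℂ) - α‖ + ‖(b : ℂ) - β‖ * ‖1 - gc‖ := by rw [norm_mul]
      _ ≤ 1 + 1 * 1 := add_le_add ha (mul_le_mul hb hn (norm_nonneg _) zero_le_one)
      _ ≤ 3 := by norm_num

/-- a compact set meeting every orbit over `K` -/
def CSet (K : Set ℂ) : Set E5 :=
  {p | 1 ≤ N2 p ∧ N2 p ≤ gr ∧ tau p ∈ K ∧
    ‖conj (p 0) * p 2 + conj (p 1) * p 3‖ ≤ 3 * (‖p 0‖ ^ 2 + ‖p 1‖ ^ 2) ∧ ‖p 4‖ ≤ 3}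

lemma isCompact_CSet {K : Set ℂ} (hK : IsCompact K) (hK1 : K ⊆ Metric.ball (0 : ℂ) 1) :
    IsCompact (CSet K) := by
  have hconj := Complex.continuous_conj
  apply Metric.isCompact_of_isClosed_isBounded
  · have h1 : IsClosed {p : E5 | 1 ≤ N2 p} := isClosed_le continuous_const continuous_N2
    have h2 : IsClosed {p : E5 | N2 p ≤ gr} := isClosed_le continuous_N2 continuous_const
    have h3 : IsClosed {p : E5 | tau p ∈ K} := hK.isClosed.preimage continuous_tau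
    have h4 : IsClosed {p : E5 | ‖conj (p 0) * p 2 + conj (p 1) * p 3‖ ≤ 3 * (‖p 0‖ ^ 2 + ‖p 1‖ ^ 2)} :=
      isClosed_le (by fun_prop) (by fun_prop)
    have h5 : IsClosed {p : E5 | ‖p 4‖ ≤ 3} := isClosed_le (by fun_prop) (by fun_prop)
    exact h1.inter (h2.inter (h3.inter (h4.inter h5)))
  · rw [isBounded_iff_forall_norm_le]
    refine ⟨100, fun p hp => ?_⟩
    obtain ⟨h1, h2, h3, h4, h5⟩ := hp
    have h3' : ‖tau p‖ ≤ 1 := by
      have := hK1 h3
      rw [mem_ball_zero_iff] at this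
      exact this.le
    have hx : ‖p 0‖ ≤ 2 := (le_max_left _ _).trans (h2.trans gr_lt_two.le)
    have hy : ‖p 1‖ ≤ 2 := (le_max_right _ _).trans (h2.trans gr_lt_two.le)
    have hD : 1 ≤ ‖p 0‖ ^ 2 + ‖p 1‖ ^ 2 := by
      rcases le_max_iff.mp h1 with h | h
      · nlinarith [sq_nonneg ‖p 1‖]
      · nlinarith [sq_nonneg ‖p 0‖]
    have hDc : ((‖p 0‖ ^ 2 + ‖p 1‖ ^ 2 : ℝ) : ℂ) = p 0 * conj (p 0) + p 1 * conj (p 1) := by
      rw [Complex.mul_conj, Complex.mul_conj, Complex.normSq_eq_norm_sq, Complex.normSq_eq_norm_sq]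
      push_cast; ring
    have hnD : ‖p 0 * conj (p 0) + p 1 * conj (p 1)‖ = ‖p 0‖ ^ 2 + ‖p 1‖ ^ 2 := by
      rw [← hDc, Complex.norm_real, Real.norm_eq_abs, abs_of_nonneg (by positivity)]
    have key : ∀ A : ℂ, (p 0 * conj (p 0) + p 1 * conj (p 1)) * A = A * (p 0 * conj (p 0) + p 1 * conj (p 1)) :=
      fun A => mul_comm _ _
    have h2u : ‖p 2‖ ≤ 100 := by
      have e : (p 0 * conj (p 0) + p 1 * conj (p 1)) * p 2 =
          p 0 * (conj (p 0) * p 2 + conj (p 1) * p 3) - conj (p 1) * tau p := by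
        unfold tau; ring
      have : (‖p 0‖ ^ 2 + ‖p 1‖ ^ 2) * ‖p 2‖ ≤ 2 * (3 * (‖p 0‖ ^ 2 + ‖p 1‖ ^ 2)) + 2 * 1 := by
        rw [← hnD, ← norm_mul, e, hnD]
        refine (norm_sub_le _ _).trans ?_
        rw [norm_mul, norm_mul, RCLike.norm_conj]
        gcongr
      nlinarith
    have h3u : ‖p 3‖ ≤ 100 := by
      have e : (p 0 * conj (p 0) + p 1 * conj (p 1)) * p 3 =
          p 1 * (conj (p 0) * p 2 + conj (p 1) * p 3) + conj (p 0) * tau p := by
        unfold tau; ring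
      have : (‖p 0‖ ^ 2 + ‖p 1‖ ^ 2) * ‖p 3‖ ≤ 2 * (3 * (‖p 0‖ ^ 2 + ‖p 1‖ ^ 2)) + 2 * 1 := by
        rw [← hnD, ← norm_mul, e, hnD]
        refine (norm_add_le _ _).trans ?_
        rw [norm_mul, norm_mul, RCLike.norm_conj]
        gcongr
      nlinarith
    rw [pi_norm_le_iff_of_nonneg (by norm_num)]
    intro i
    fin_cases i
    · exact hx.trans (by norm_num)
    · exact hy.trans (by norm_num)
    · exact h2u
    · exact h3u
    · exact h5.trans (by norm_num)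

lemma CSet_subset {K : Set ℂ} (hK1 : K ⊆ Metric.ball (0 : ℂ) 1) : CSet K ⊆ USet := by
  rintro p ⟨h1, h2, h3, h4, h5⟩
  refine ⟨?_, ?_⟩
  · rcases le_max_iff.mp h1 with h | h
    · left; rw [← norm_pos_iff]; linarith
    · right; rw [← norm_pos_iff]; linarith
  · have := hK1 h3
    rwa [mem_ball_zero_iff] at this

lemma exists_act_mem_CSet {K : Set ℂ} {p : E5} (hp : p ∈ USet) (ht : tau p ∈ K) :
    ∃ k : ℤ, ∃ l ∈ Lam, act k l p ∈ CSet K := by
  obtain ⟨k, hk1, hk2⟩ := exists_mem_Ico_zpow (N2_pos hp) one_lt_gr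
  have hN : ∀ l, N2 (act k l p) = gr ^ (-k) * N2 p := fun l => N2_act k l p
  have hz : 0 < gr ^ (-k) := zpow_pos gr_pos _
  have hzz : gr ^ (-k) * gr ^ k = 1 := by rw [← zpow_add₀ gr_ne]; simp
  have hN1 : 1 ≤ gr ^ (-k) * N2 p := by
    calc 1 = gr ^ (-k) * gr ^ k := hzz.symm
      _ ≤ gr ^ (-k) * N2 p := by gcongr
  have hN2 : gr ^ (-k) * N2 p ≤ gr := by
    calc gr ^ (-k) * N2 p ≤ gr ^ (-k) * gr ^ (k + 1) := by gcongr
      _ = gr := by rw [← zpow_add₀ gr_ne]; simp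
  set p' := act k 0 p with hp'
  have hp'U : p' ∈ USet := act_mem hp
  have hD := sum_conj_ne_zero hp'U.1
  obtain ⟨l, hl, hl1, hl2⟩ := exists_lattice_near
    ((conj (p' 0) * p' 2 + conj (p' 1) * p' 3) / (p' 0 * conj (p' 0) + p' 1 * conj (p' 1))) (p' 4)
  refine ⟨k, l, hl, ?_⟩
  have e0 : act k l p 0 = p' 0 := rfl
  have e1 : act k l p 1 = p' 1 := rfl
  have e2 : act k l p 2 = p' 2 + l.1 * p' 0 := by simp [hp']
  have e3 : act k l p 3 = p' 3 + l.1 * p' 1 := by simp [hp']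
  have e4 : act k l p 4 = p' 4 + l.2 := by simp [hp']
  refine ⟨by rw [hN]; exact hN1, by rw [hN]; exact hN2, by rw [tau_act]; exact ht, ?_, ?_⟩
  · rw [e0, e1, e2, e3]
    have e : conj (p' 0) * (p' 2 + l.1 * p' 0) + conj (p' 1) * (p' 3 + l.1 * p' 1) =
        ((conj (p' 0) * p' 2 + conj (p' 1) * p' 3) / (p' 0 * conj (p' 0) + p' 1 * conj (p' 1)) + l.1) *
        (p' 0 * conj (p' 0) + p' 1 * conj (p' 1)) := by
      rw [add_mul, div_mul_cancel₀ _ hD]
      ring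
    have hDc : ((‖p' 0‖ ^ 2 + ‖p' 1‖ ^ 2 : ℝ) : ℂ) = p' 0 * conj (p' 0) + p' 1 * conj (p' 1) := by
      rw [Complex.mul_conj, Complex.mul_conj, Complex.normSq_eq_norm_sq, Complex.normSq_eq_norm_sq]
      push_cast; ring
    have hnD : ‖p' 0 * conj (p' 0) + p' 1 * conj (p' 1)‖ = ‖p' 0‖ ^ 2 + ‖p' 1‖ ^ 2 := by
      rw [← hDc, Complex.norm_real, Real.norm_eq_abs, abs_of_nonneg (by positivity)]
    rw [e, norm_mul, hnD]
    gcongr
  · rw [e4]; exact hl2

lemma isCompact_preimage {K : Set ℂ} (hK1 : K ⊆ Metric.ball (0 : ℂ) 1) (hK : IsCompact K) :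
    IsCompact (pim ⁻¹' K) := by
  have hC : IsCompact ((Subtype.val : UOpen → E5) ⁻¹' (CSet K)) := by
    rw [Topology.IsInducing.subtypeVal.isCompact_iff]
    have : (Subtype.val : UOpen → E5) '' ((Subtype.val : UOpen → E5) ⁻¹' (CSet K)) = CSet K := by
      ext z
      constructor
      · rintro ⟨z, hz, rfl⟩
        exact hz
      · intro hz
        exact ⟨⟨z, CSet_subset hK1 hz⟩, hz, rfl⟩
    have h3 := isCompact_CSet hK hK1
    rw [← this] at h3
    exact h3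
  have himg := hC.image qm_continuous
  refine himg.of_isClosed_subset (hK.isClosed.preimage pim_continuous) ?_
  intro y hy
  obtain ⟨p, rfl⟩ := qm_surjective y
  obtain ⟨k, l, hl, hmem⟩ := exists_act_mem_CSet p.2 (show tau (p : E5) ∈ K from hy)
  refine ⟨(⟨actPerm k l, actPerm_mem k hl⟩ : Gam) • p, hmem, qm_smul _ _⟩

end Pool.Agent.MEP
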