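import Pool.Agent.MEP.GamRep
import Pool.Agent.Levi.Extend

/-!
# Local lifts of a map `D → X_t`, and their matrix parts over the envelope of holomorphy
-/

set_option autoImplicit false
set_option linter.unusedSectionVars false

open Set Filter Topology
open scoped Manifold ContDiff

namespace Pool.Agent.MEP

section LocalLifts

variable {n : ℕ} {S : Type} [TopologicalSpace S] [SecondCountableTopology S]
  [ChartedSpace (Fin n → ℂ) S]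

/-- local lifts through the covering `qm` -/
theorem exists_local_lifts {D : Set S} (hD : IsOpen D) {f : S → XX}
    (hf : MDifferentiableOn 𝓘(ℂ, Fin n → ℂ) 𝓘(ℂ, E5) f D) :
    ∃ (κ : Type) (_ : Countable κ) (N : κ → Set S) (L : κ → S → UOpen),
      (∀ j, IsOpen (N j)) ∧ (⋃ j, N j) = D ∧ (∀ j, ∀ x ∈ N j, qm (L j x) = f x) ∧
      (∀ j, MDifferentiableOn 𝓘(ℂ, Fin n → ℂ) 𝓘(ℂ, E5) (fun x => (L j x : E5)) (N j)) ∧
      ∀ j k, ∀ x ∈ N j ∩ N k, ∃ g : Gam, ∀ᶠ y in 𝓝 x, L k y = g • L j y := by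
  have hfc : ContinuousOn f D := hf.continuousOn
  set N₀ : S → Set S := fun j => D ∩ f ⁻¹' (sg (cpt (f j))).source with hN₀
  have hN₀o : ∀ j, IsOpen (N₀ j) := fun j =>
    hfc.isOpen_inter_preimage hD (sg (cpt (f j))).open_source
  have hself : ∀ x ∈ D, x ∈ N₀ x := by
    intro x hx
    refine ⟨hx, ?_⟩
    have := qm_mem_sg_source (cpt (f x))
    rwa [qm_cpt] at this
  obtain ⟨J, hJD, hJc, hJ⟩ := TopologicalSpace.countable_cover_nhdsWithin (f := N₀) (s := D)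
    (fun x hx => mem_nhdsWithin_of_mem_nhds ((hN₀o x).mem_nhds (hself x hx)))
  set L₀ : S → S → UOpen := fun j x => sg (cpt (f j)) (f x) with hL₀
  have hq : ∀ j, ∀ x ∈ N₀ j, qm (L₀ j x) = f x := fun j x hx => qm_sg hx.2
  have hLd : ∀ j, MDifferentiableOn 𝓘(ℂ, Fin n → ℂ) 𝓘(ℂ, E5) (fun x => (L₀ j x : E5)) (N₀ j) := by
    intro j x hx
    have h2 : MDifferentiableAt 𝓘(ℂ, E5) 𝓘(ℂ, E5) (fun y => (sg (cpt (f j)) y : E5)) (f x) :=
      ((sg_contMDiffOn (cpt (f j))).contMDiffAt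
        ((sg (cpt (f j))).open_source.mem_nhds hx.2)).mdifferentiableAt (by simp)
    have h3 : MDifferentiableAt 𝓘(ℂ, Fin n → ℂ) 𝓘(ℂ, E5) f x :=
      (hf x hx.1).mdifferentiableAt (hD.mem_nhds hx.1)
    exact (MDifferentiableAt.comp (g := fun y => (sg (cpt (f j)) y : E5)) x h2
      h3).mdifferentiableWithinAt
  have hLc : ∀ j, ∀ x ∈ N₀ j, ContinuousAt (L₀ j) x := by
    intro j x hx
    exact ContinuousAt.comp ((sg (cpt (f j))).continuousAt hx.2)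
      (hfc.continuousAt (hD.mem_nhds hx.1))
  have htr : ∀ j k, ∀ x ∈ N₀ j ∩ N₀ k, ∃ g : Gam, ∀ᶠ y in 𝓝 x, L₀ k y = g • L₀ j y := by
    rintro j k x ⟨hx, hx'⟩
    have h1 : qm (L₀ j x) ∈ (sg (cpt (f k))).source := by
      rw [hq j x hx]
      exact hx'.2
    obtain ⟨g, -, hg⟩ := sg_qm_eventually h1
    refine ⟨g, ?_⟩
    filter_upwards [(hLc j x hx).eventually hg, (hN₀o j).mem_nhds hx] with y hy hyN
    have h2 := hy.2
    rw [hq j y hyN] at h2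
    exact h2
  refine ⟨J, hJc.to_subtype, fun j => N₀ j, fun j => L₀ j, fun j => hN₀o j, ?_, fun j => hq j,
    fun j => hLd j, fun j k => htr j k⟩
  apply Subset.antisymm
  · exact iUnion_subset fun j => inter_subset_left
  · intro x hx
    obtain ⟨j, hj, hxj⟩ := mem_iUnion₂.mp (hJ hx)
    exact mem_iUnion.mpr ⟨⟨j, hj⟩, hxj⟩

end LocalLifts

open Pool.Agent.Levi

open Classical in
/-- an invertible matrix as a unit -/
noncomputable def toGL (A : Mat2) : GL2 := if h : IsUnit A then h.unit else 1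

lemma coe_toGL {A : Mat2} (h : IsUnit A) : ((toGL A : GL2) : Mat2) = A := by
  rw [toGL, dif_pos h, IsUnit.unit_spec]

lemma inv_mul_toGL {A B : Mat2} (hA : IsUnit A) (hB : IsUnit B) :
    (((toGL A)⁻¹ * toGL B : GL2) : Mat2) = A⁻¹ * B := by
  rw [Units.val_mul, Matrix.coe_units_inv, coe_toGL hA, coe_toGL hB]

section Frames

variable {n : ℕ} {S : Type} [TopologicalSpace S] [T2Space S] [SecondCountableTopology S]
  [ConnectedSpace S] [ChartedSpace (Fin n → ℂ) S] [IsManifold 𝓘(ℂ, Fin n → ℂ) ω S]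

lemma mdifferentiableOn_coord {L : S → E5} {N : Set S}
    (hL : MDifferentiableOn 𝓘(ℂ, Fin n → ℂ) 𝓘(ℂ, E5) L N) (i : Fin 5) :
    MDifferentiableOn 𝓘(ℂ, Fin n → ℂ) 𝓘(ℂ, ℂ) (fun x => L x i) N := by
  intro x hx
  have h2 : MDifferentiableAt 𝓘(ℂ, E5) 𝓘(ℂ, ℂ) (fun w : E5 => w i) (L x) := by
    apply DifferentiableAt.mdifferentiableAt
    exact differentiableAt_apply i _
  exact MDifferentiableAt.comp_mdifferentiableWithinAt (g := fun w : E5 => w i) x h2 (hL x hx)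

lemma mdifferentiableOn_mx {L : S → E5} {N : Set S}
    (hL : MDifferentiableOn 𝓘(ℂ, Fin n → ℂ) 𝓘(ℂ, E5) L N) (a b : Fin 2) :
    MDifferentiableOn 𝓘(ℂ, Fin n → ℂ) 𝓘(ℂ, ℂ) (fun x => mx (L x) a b) N := by
  fin_cases a <;> fin_cases b
  · exact mdifferentiableOn_coord hL 0
  · exact mdifferentiableOn_coord hL 2
  · exact mdifferentiableOn_coord hL 1
  · exact mdifferentiableOn_coord hL 3

/-- The matrix parts of the local lifts extend, up to the group `Gam`, to frames over `S`. -/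
theorem exists_Gam_frames {D : Set S} (hS : IsEnvelopeOfHolomorphy n D) {t : ℂ} (ht : t ≠ 0)
    {κ : Type} [Countable κ] {N : κ → Set S} {L : κ → S → UOpen} (hN : ∀ j, IsOpen (N j))
    (hND : (⋃ j, N j) = D)
    (hL : ∀ j, MDifferentiableOn 𝓘(ℂ, Fin n → ℂ) 𝓘(ℂ, E5) (fun x => (L j x : E5)) (N j))
    (hLt : ∀ j, ∀ x ∈ N j, tau (L j x : E5) = t)
    (hLL : ∀ j k, ∀ x ∈ N j ∩ N k, ∃ g : Gam, ∀ᶠ y in 𝓝 x, L k y = g • L j y) :
    ∃ (ι : Type) (U : ι → Set S) (GG : ι → S → GL2),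
      (∀ α, IsOpen (U α)) ∧ (∀ x, ∃ α, x ∈ U α) ∧
      (∀ α a b, MDifferentiableOn 𝓘(ℂ, Fin n → ℂ) 𝓘(ℂ, ℂ)
        (fun x => (GG α x : Mat2) a b) (U α)) ∧
      (∀ α β, ∀ x ∈ U α ∩ U β,
        ∀ᶠ y in 𝓝 x, (GG α y)⁻¹ * GG β y = (GG α x)⁻¹ * GG β x) ∧
      (∀ α β, ∀ x ∈ U α ∩ U β, ∃ γ : Gam, GG β x = GG α x * MgU γ) ∧
      ∀ α j, ∀ x ∈ U α ∩ N j, ∃ γ : Gam,
        ∀ᶠ y in 𝓝 x, mx (L j y : E5) = (GG α y : Mat2) * Mg γ := by
  classical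
  have htau : ∀ j, ∀ x ∈ N j, tau (L j x : E5) ≠ 0 := fun j x hx => by rw [hLt j x hx]; exact ht
  have hYu : ∀ j, ∀ x ∈ N j, IsUnit (mx (L j x : E5)) := fun j x hx => isUnit_mx (htau j x hx)
  obtain ⟨U, g, hU, hcov, hg, hgu, hgg, hgY⟩ := exists_flat_frames hS N hN hND
    (fun j x => mx (L j x : E5)) (fun j a b => mdifferentiableOn_mx (hL j) a b) hYu (by
      rintro j k x ⟨hx, hx'⟩
      obtain ⟨γ, hγ⟩ := hLL j k x ⟨hx, hx'⟩
      have h0 : ∀ y, y ∈ N j → L k y = γ • L j y →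
          (mx (L j y : E5))⁻¹ * mx (L k y : E5) = Mg γ := by
        intro y hy h
        rw [h, mx_smul, Matrix.nonsing_inv_mul_cancel_left]
        exact (Matrix.isUnit_iff_isUnit_det _).mp (hYu j y hy)
      filter_upwards [hγ, (hN j).mem_nhds hx] with y hy hyN
      rw [h0 y hyN hy, h0 x hx hγ.self_of_nhds])
  -- units
  set GU : ℕ → S → GL2 := fun i x => toGL (g i x) with hGU
  set YU : κ → S → GL2 := fun j x => toGL (mx (L j x : E5)) with hYU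
  have hGUc : ∀ i, ∀ x ∈ U i, ((GU i x : GL2) : Mat2) = g i x := fun i x hx =>
    coe_toGL (hgu i x hx)
  have hYUc : ∀ j, ∀ x ∈ N j, ((YU j x : GL2) : Mat2) = mx (L j x : E5) := fun j x hx =>
    coe_toGL (hYu j x hx)
  have hGG : ∀ i j, ∀ x ∈ U i ∩ U j, ∀ᶠ y in 𝓝 x, (GU i y)⁻¹ * GU j y = (GU i x)⁻¹ * GU j x := by
    rintro i j x ⟨hx, hx'⟩
    filter_upwards [hgg i j x ⟨hx, hx'⟩, (hU i).mem_nhds hx, (hU j).mem_nhds hx'] with y h1 h2 h3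
    apply Units.ext
    rw [inv_mul_toGL (hgu i y h2) (hgu j y h3), inv_mul_toGL (hgu i x hx) (hgu j x hx'), h1]
  have hGY : ∀ i j, ∀ x ∈ U i ∩ N j, ∀ᶠ y in 𝓝 x, (GU i y)⁻¹ * YU j y = (GU i x)⁻¹ * YU j x := by
    rintro i j x ⟨hx, hx'⟩
    filter_upwards [hgY i j x ⟨hx, hx'⟩, (hU i).mem_nhds hx, (hN j).mem_nhds hx'] with y h1 h2 h3
    apply Units.ext
    rw [inv_mul_toGL (hgu i y h2) (hYu j y h3), inv_mul_toGL (hgu i x hx) (hYu j x hx'), h1]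
  have hYY : ∀ j k, ∀ x ∈ N j ∩ N k, ∃ γ : Gam, YU k x = YU j x * MgU γ := by
    rintro j k x ⟨hx, hx'⟩
    obtain ⟨γ, hγ⟩ := hLL j k x ⟨hx, hx'⟩
    refine ⟨γ, Units.ext ?_⟩
    rw [Units.val_mul, hYUc k x hx', hYUc j x hx, hγ.self_of_nhds, mx_smul, coe_MgU]
  -- the countable group
  set T₁ : Set GL2 := ⋃ i, ⋃ j, (fun x => (GU j x)⁻¹ * GU i x) '' (U i ∩ U j) with hT₁
  set T₂ : Set GL2 := ⋃ i, ⋃ j, (fun x => (GU i x)⁻¹ * YU j x) '' (U i ∩ N j) with hT₂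
  have hc₁ : T₁.Countable := countable_iUnion fun i => countable_iUnion fun j =>
    countable_image_of_locallyConstant fun x hx => hGG j i x ⟨hx.2, hx.1⟩
  have hc₂ : T₂.Countable := countable_iUnion fun i => countable_iUnion fun j =>
    countable_image_of_locallyConstant fun x hx => hGY i j x hx
  have hc₃ : (GamGL : Set GL2).Countable := countable_range MgU
  set Pi : Subgroup GL2 := Subgroup.closure (T₁ ∪ T₂ ∪ GamGL) with hPi
  have hPic : Countable Pi := countable_closure ((hc₁.union hc₂).union hc₃)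
  have hm₁ : ∀ i j, ∀ x ∈ U i ∩ U j, (GU j x)⁻¹ * GU i x ∈ Pi := fun i j x hx =>
    Subgroup.subset_closure (Or.inl (Or.inl (mem_iUnion.mpr ⟨i, mem_iUnion.mpr ⟨j, x, hx, rfl⟩⟩)))
  have hm₂ : ∀ i j, ∀ x ∈ U i ∩ N j, (GU i x)⁻¹ * YU j x ∈ Pi := fun i j x hx =>
    Subgroup.subset_closure (Or.inl (Or.inr (mem_iUnion.mpr ⟨i, mem_iUnion.mpr ⟨j, x, hx, rfl⟩⟩)))
  set H : Subgroup Pi := GamGL.subgroupOf Pi with hH
  -- the cocycle
  set c : ℕ → ℕ → S → Pi := fun i j x =>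
    if h : x ∈ U i ∩ U j then ⟨(GU j x)⁻¹ * GU i x, hm₁ i j x h⟩ else 1 with hc
  have hcv : ∀ i j, ∀ x ∈ U i ∩ U j, ((c i j x : Pi) : GL2) = (GU j x)⁻¹ * GU i x := by
    intro i j x hx
    simp only [hc, dif_pos hx]
  have hcl : ∀ i j, ∀ x ∈ U i ∩ U j, ∀ᶠ y in 𝓝 x, c i j y = c i j x := by
    intro i j x hx
    filter_upwards [hGG j i x ⟨hx.2, hx.1⟩, ((hU i).inter (hU j)).mem_nhds hx] with y h1 h2
    apply Subtype.ext
    rw [hcv i j y h2, hcv i j x hx, h1]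
  have hcc : ∀ i j k, ∀ x ∈ U i ∩ U j ∩ U k, c j k x * c i j x = c i k x := by
    rintro i j k x ⟨⟨h1, h2⟩, h3⟩
    apply Subtype.ext
    rw [Subgroup.coe_mul, hcv j k x ⟨h2, h3⟩, hcv i j x ⟨h1, h2⟩, hcv i k x ⟨h1, h3⟩]
    group
  -- the section over `D`
  have hjj : ∀ x, x ∈ D → ∃ j, x ∈ N j := by
    intro x hx
    rw [← hND] at hx
    exact mem_iUnion.mp hx
  set r : ℕ → S → Pi := fun i x =>
    if h : x ∈ U i ∧ ∃ j, x ∈ N j then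
      ⟨(GU i x)⁻¹ * YU h.2.choose x, hm₂ i _ x ⟨h.1, h.2.choose_spec⟩⟩ else 1 with hr
  have hrv : ∀ i j, ∀ x ∈ U i ∩ N j, ∃ γ : Gam,
      ((r i x : Pi) : GL2) = (GU i x)⁻¹ * YU j x * MgU γ := by
    intro i j x hx
    have h : x ∈ U i ∧ ∃ j, x ∈ N j := ⟨hx.1, j, hx.2⟩
    obtain ⟨γ, hγ⟩ := hYY j h.2.choose x ⟨hx.2, h.2.choose_spec⟩
    refine ⟨γ, ?_⟩
    simp only [hr, dif_pos h]
    rw [hγ, mul_assoc]
  have hmk : ∀ (a b : Pi) (γ : Gam), (b : GL2) = a * MgU γ →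
      (QuotientGroup.mk a : Pi ⧸ H) = QuotientGroup.mk b := by
    intro a b γ hab
    rw [QuotientGroup.eq, hH, Subgroup.mem_subgroupOf, mem_GamGL]
    refine ⟨γ, ?_⟩
    rw [Subgroup.coe_mul, Subgroup.coe_inv, hab]
    group
  have hmk' : ∀ (a b : Pi), (QuotientGroup.mk a : Pi ⧸ H) = QuotientGroup.mk b →
      ∃ γ : Gam, (b : GL2) = a * MgU γ := by
    intro a b hab
    rw [QuotientGroup.eq, hH, Subgroup.mem_subgroupOf, mem_GamGL] at hab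
    obtain ⟨γ, hγ⟩ := hab
    refine ⟨γ, ?_⟩
    rw [hγ, Subgroup.coe_mul, Subgroup.coe_inv]
    group
  obtain ⟨ℓ, hℓf, hℓ⟩ := exists_length_quotient Pi H
  have hQc : Countable (Pi ⧸ H) := (QuotientGroup.mk_surjective (s := H)).countable
  obtain ⟨s', hs'l, hs'c, hs'D⟩ := section_extends hS ℓ hℓf hℓ U hU hcov c hcl hcc
    (fun i x => (QuotientGroup.mk (r i x) : Pi ⧸ H))
    (by
      rintro i x ⟨hxi, hxD⟩
      obtain ⟨j, hj⟩ := hjj x hxD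
      obtain ⟨γ₀, hγ₀⟩ := hrv i j x ⟨hxi, hj⟩
      filter_upwards [hGY i j x ⟨hxi, hj⟩, (hU i).mem_nhds hxi, (hN j).mem_nhds hj]
        with y h1 h2 h3
      obtain ⟨γ, hγ⟩ := hrv i j y ⟨h2, h3⟩
      rw [h1] at hγ
      refine hmk _ _ (γ₀ * γ⁻¹) ?_
      rw [hγ, hγ₀, MgU_mul, MgU_inv]
      group)
    (by
      rintro i j x ⟨⟨hxi, hxj⟩, hxD⟩
      obtain ⟨k, hk⟩ := hjj x hxD
      obtain ⟨γ, hγ⟩ := hrv i k x ⟨hxi, hk⟩
      obtain ⟨γ', hγ'⟩ := hrv j k x ⟨hxj, hk⟩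
      change (QuotientGroup.mk (r j x) : Pi ⧸ H) = QuotientGroup.mk (c i j x * r i x)
      refine hmk _ _ (γ * γ'⁻¹) ?_
      rw [Subgroup.coe_mul, hcv i j x ⟨hxi, hxj⟩, hγ, hγ', MgU_mul, MgU_inv]
      group)
  have hs'v : ∀ i x (a : Pi), x ∈ U i → s' i x = QuotientGroup.mk a → ∀ j, x ∈ U j →
      s' j x = QuotientGroup.mk (c i j x * a) := by
    intro i x a hx ha j hxj
    rw [hs'c i j x ⟨hx, hxj⟩, ha]
    rfl
  refine ⟨ℕ × Pi, fun α => {x | x ∈ U α.1 ∧ s' α.1 x = QuotientGroup.mk α.2},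
    fun α x => GU α.1 x * α.2, ?_, ?_, ?_, ?_, ?_, ?_⟩
  · rintro ⟨i, a⟩
    rw [isOpen_iff_mem_nhds]
    rintro x ⟨hx, hxa⟩
    filter_upwards [(hU i).mem_nhds hx, hs'l i x hx] with y h1 h2
    exact ⟨h1, h2.trans hxa⟩
  · intro x
    obtain ⟨i, hi⟩ := hcov x
    exact ⟨(i, (s' i x).out), hi, (QuotientGroup.out_eq' _).symm⟩
  · rintro ⟨i, a⟩ p q
    have h1 : MDifferentiableOn 𝓘(ℂ, Fin n → ℂ) 𝓘(ℂ, ℂ)
        (fun x => ∑ k, g i x p k * ((a : GL2) : Mat2) k q)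
        {x | x ∈ U i ∧ s' i x = QuotientGroup.mk a} := by
      simp only [Fin.sum_univ_two]
      have h2 : ∀ k : Fin 2, MDifferentiableOn 𝓘(ℂ, Fin n → ℂ) 𝓘(ℂ, ℂ)
          (fun x => g i x p k * ((a : GL2) : Mat2) k q)
          {x | x ∈ U i ∧ s' i x = QuotientGroup.mk a} := fun k =>
        ((hg i p k).mono fun x hx => hx.1).mul mdifferentiableOn_const
      exact (h2 0).add (h2 1)
    refine h1.congr ?_
    rintro x ⟨hx, -⟩
    change ((GU i x * (a : GL2) : GL2) : Mat2) p q = _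
    rw [Units.val_mul, hGUc i x hx, Matrix.mul_apply]
  · rintro ⟨i, a⟩ ⟨j, b⟩ x ⟨⟨hx, -⟩, ⟨hx', -⟩⟩
    filter_upwards [hGG i j x ⟨hx, hx'⟩] with y hy
    have h3 : ∀ z, (GU i z * (a : GL2))⁻¹ * (GU j z * (b : GL2)) =
        (a : GL2)⁻¹ * ((GU i z)⁻¹ * GU j z) * b := by
      intro z
      group
    rw [h3, h3, hy]
  · rintro ⟨i, a⟩ ⟨j, b⟩ x ⟨⟨hx, hxa⟩, ⟨hx', hxb⟩⟩
    have h1 := hs'v i x a hx hxa j hx'
    change s' j x = QuotientGroup.mk b at hxb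
    rw [hxb] at h1
    obtain ⟨γ, hγ⟩ := hmk' _ _ h1.symm
    refine ⟨γ, ?_⟩
    change GU j x * (b : GL2) = GU i x * (a : GL2) * MgU γ
    rw [hγ, Subgroup.coe_mul, hcv i j x ⟨hx, hx'⟩]
    group
  · rintro ⟨i, a⟩ j x ⟨⟨hx, hxa⟩, hxj⟩
    have hxD : x ∈ D := by
      rw [← hND]
      exact mem_iUnion.mpr ⟨j, hxj⟩
    change s' i x = QuotientGroup.mk a at hxa
    rw [hs'D i x ⟨hx, hxD⟩] at hxa
    obtain ⟨γ₁, hγ₁⟩ := hrv i j x ⟨hx, hxj⟩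
    obtain ⟨γ₂, hγ₂⟩ := hmk' _ _ hxa
    -- `a = r * M γ₂ = GU⁻¹ YU M γ₁ M γ₂`
    refine ⟨(γ₂ * γ₁)⁻¹, ?_⟩
    filter_upwards [hGY i j x ⟨hx, hxj⟩, (hU i).mem_nhds hx, (hN j).mem_nhds hxj] with y h1 h2 h3
    rw [← hYUc j y h3, ← coe_MgU, ← Units.val_mul, Units.val_inj]
    change YU j y = GU i y * (a : GL2) * MgU (γ₂ * γ₁)⁻¹
    rw [hγ₂, hγ₁, ← h1, MgU_inv, MgU_mul]
    group

end Frames

end Pool.Agent.MEP
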