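import Pool.Agent.MEP.Frames

/-!
# Extension of holomorphic maps into the fibres `X_t`, `t ≠ 0`, to the envelope of holomorphy
-/

set_option autoImplicit false
set_option linter.unusedSectionVars false

open Set Filter Topology
open scoped Manifold ContDiff

namespace Pool.Agent.MEP

open Pool.Agent.Levi

lemma mx_apply (p : E5) : mx p 0 0 = p 0 ∧ mx p 1 0 = p 1 ∧ mx p 0 1 = p 2 ∧ mx p 1 1 = p 3 := by
  simp [mx]

lemma UOpen_ext {p q : UOpen} (h : mx (p : E5) = mx (q : E5)) (h4 : (p : E5) 4 = (q : E5) 4) :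
    p = q := by
  apply Subtype.ext
  obtain ⟨a0, a1, a2, a3⟩ := mx_apply (p : E5)
  obtain ⟨b0, b1, b2, b3⟩ := mx_apply (q : E5)
  refine ext5 ?_ ?_ ?_ ?_ h4
  · rw [← a0, ← b0, h]
  · rw [← a1, ← b1, h]
  · rw [← a2, ← b2, h]
  · rw [← a3, ← b3, h]

lemma lift_unique {p q : UOpen} (hp : tau (p : E5) ≠ 0) (hq : qm q = qm p)
    (h : mx (q : E5) = mx (p : E5)) : q = p := by
  obtain ⟨g, hg⟩ := qm_eq_iff.mp hq
  have h1 : Mg g = 1 := by
    apply mx_cancel hp
    rw [← mx_smul, hg, h, mul_one]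
  have h2 : g = 1 := Mg_injective (by rw [h1, Mg_one])
  rw [← hg, h2, one_smul]

lemma Ag_mulVec (g : Gam) (v : Fin 2 → ℂ) :
    (AgHom g).mulVec v = ![gc ^ (-(2 * kk g)) * v 0 + (ll g).2 * v 1, v 1] := by
  change (Ag g).mulVec v = _
  ext i
  fin_cases i <;> simp [Ag, Matrix.mulVec, dotProduct, Fin.sum_univ_two]

section

variable {n : ℕ} {S : Type} [TopologicalSpace S] [T2Space S] [SecondCountableTopology S]
  [ConnectedSpace S] [ChartedSpace (Fin n → ℂ) S] [IsManifold 𝓘(ℂ, Fin n → ℂ) ω S]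

/-- compatible local holomorphic functions that are constant on an open set are constant -/
lemma glue_const {D : Set S} (hD : IsOpen D) (hDn : D.Nonempty) {ι : Type} {U : ι → Set S}
    (hU : ∀ i, IsOpen (U i)) (hcov : ∀ x, ∃ i, x ∈ U i) {h : ι → S → ℂ}
    (hh : ∀ i, MDifferentiableOn 𝓘(ℂ, Fin n → ℂ) 𝓘(ℂ, ℂ) (h i) (U i))
    (hc : ∀ i j, ∀ x ∈ U i ∩ U j, h j x = h i x) {c : ℂ} (hcD : ∀ i, ∀ x ∈ U i ∩ D, h i x = c) :
    ∀ i, ∀ x ∈ U i, h i x = c := by
  choose a ha using hcov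
  set g : S → ℂ := fun x => h (a x) x - c with hg
  have hgd : MDifferentiable 𝓘(ℂ, Fin n → ℂ) 𝓘(ℂ, ℂ) g := by
    intro x
    have h1 : MDifferentiableAt 𝓘(ℂ, Fin n → ℂ) 𝓘(ℂ, ℂ) (fun y => h (a x) y - c) x :=
      ((hh (a x) x (ha x)).mdifferentiableAt ((hU _).mem_nhds (ha x))).sub mdifferentiableAt_const
    refine h1.congr_of_eventuallyEq ?_
    filter_upwards [(hU _).mem_nhds (ha x)] with y hy
    change h (a y) y - c = h (a x) y - c
    rw [hc (a x) (a y) y ⟨hy, ha y⟩]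
  obtain ⟨x0, hx0⟩ := hDn
  have h0 := eq_zero_of_connected (n := n) hgd (x0 := x0) (by
    filter_upwards [hD.mem_nhds hx0] with y hy
    change h (a y) y - c = 0
    rw [hcD (a y) y ⟨ha y, hy⟩, sub_self])
  intro i x hx
  rw [hc (a x) i x ⟨ha x, hx⟩]
  exact sub_eq_zero.mp (h0 x)

/-- **Extension theorem**: a holomorphic map from `D` into the fibre `X_t`, `t ≠ 0`, extends to the
envelope of holomorphy of `D`. -/
theorem extend_map {D : Set S} (hS : IsEnvelopeOfHolomorphy n D) {f : S → XX}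
    (hf : MDifferentiableOn 𝓘(ℂ, Fin n → ℂ) 𝓘(ℂ, E5) f D) {t : ℂ} (ht : t ≠ 0) (ht1 : ‖t‖ < 1)
    (hft : ∀ q ∈ D, pim (f q) = t) :
    ∃ F : S → XX, MDifferentiable 𝓘(ℂ, Fin n → ℂ) 𝓘(ℂ, E5) F ∧ (∀ q ∈ D, F q = f q) ∧
      ∀ q, pim (F q) = t := by
  classical
  have hDo : IsOpen D := hS.2.1
  obtain ⟨κ, hκ, N, L, hN, hND, hLf, hLd, hLL⟩ := exists_local_lifts hDo hf
  have hNsub : ∀ j, N j ⊆ D := fun j => by rw [← hND]; exact subset_iUnion N j
  have hLt : ∀ j, ∀ x ∈ N j, tau (L j x : E5) = t := by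
    intro j x hx
    rw [← pim_qm, hLf j x hx, hft x (hNsub j hx)]
  obtain ⟨ι, U, GG, hU, hcov, hGd, hGl, hGc, hGL⟩ := exists_Gam_frames hS ht hN hND hLd hLt hLL
  -- the cocycle with values in `Gam`
  set C : ι → ι → S → Gam := fun α β x =>
    if h : x ∈ U α ∩ U β then (hGc α β x h).choose else 1 with hC
  have hCv : ∀ α β, ∀ x ∈ U α ∩ U β, GG β x = GG α x * MgU (C α β x) := by
    intro α β x hx
    simp only [hC, dif_pos hx]
    exact (hGc α β x hx).choose_spec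
  have hCm : ∀ α β, ∀ x ∈ U α ∩ U β, (GG β x : Mat2) = (GG α x : Mat2) * Mg (C α β x) := by
    intro α β x hx
    rw [hCv α β x hx, Units.val_mul, coe_MgU]
  have hCl : ∀ α β, ∀ x ∈ U α ∩ U β, ∀ᶠ y in 𝓝 x, C α β y = C α β x := by
    intro α β x hx
    filter_upwards [hGl α β x hx, ((hU α).inter (hU β)).mem_nhds hx] with y h1 h2
    apply MgU_injective
    rw [hCv α β y h2, hCv α β x hx, inv_mul_cancel_left, inv_mul_cancel_left] at h1
    exact h1
  have hCc : ∀ α β δ, ∀ x ∈ U α ∩ U β ∩ U δ, C β δ x * C α β x = C α δ x := by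
    rintro α β δ x ⟨⟨h1, h2⟩, h3⟩
    apply MgU_injective
    have h4 := hCv α δ x ⟨h1, h3⟩
    rw [hCv β δ x ⟨h2, h3⟩, hCv α β x ⟨h1, h2⟩, mul_assoc] at h4
    rw [MgU_mul]
    exact mul_left_cancel h4
  -- the unique lifts over `U α ∩ D`
  have hjj : ∀ x, x ∈ D → ∃ j, x ∈ N j := by
    intro x hx
    rw [← hND] at hx
    exact mem_iUnion.mp hx
  have hloc : ∀ α, ∀ x ∈ U α ∩ D, ∃ j, x ∈ N j ∧ ∃ γ : Gam, ∀ᶠ y in 𝓝 x,
      qm (γ • L j y) = f y ∧ mx ((γ • L j y : UOpen) : E5) = GG α y := by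
    rintro α x ⟨hx, hxD⟩
    obtain ⟨j, hj⟩ := hjj x hxD
    obtain ⟨γ, hγ⟩ := hGL α j x ⟨hx, hj⟩
    refine ⟨j, hj, γ⁻¹, ?_⟩
    filter_upwards [hγ, (hN j).mem_nhds hj] with y h1 h2
    refine ⟨by rw [qm_smul, hLf j y h2], ?_⟩
    rw [mx_smul, h1, Matrix.mul_assoc, ← Mg_mul, inv_mul_cancel, Mg_one, mul_one]
  have hex : ∀ α, ∀ x ∈ U α ∩ D, ∃ P : UOpen, qm P = f x ∧ mx (P : E5) = GG α x := by
    intro α x hx
    obtain ⟨j, -, γ, hγ⟩ := hloc α x hx
    exact ⟨_, hγ.self_of_nhds⟩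
  set P : ι → S → UOpen := fun α x =>
    if h : ∃ P : UOpen, qm P = f x ∧ mx (P : E5) = GG α x then h.choose else bp 0 with hP
  have hPs : ∀ α, ∀ x ∈ U α ∩ D, qm (P α x) = f x ∧ mx (P α x : E5) = GG α x := by
    intro α x hx
    have h := hex α x hx
    simp only [hP, dif_pos h]
    exact h.choose_spec
  have htq : ∀ (p : UOpen) (x : S), x ∈ D → qm p = f x → tau (p : E5) = t := by
    intro p x hx h
    rw [← pim_qm, h, hft x hx]
  have hPu : ∀ α, ∀ x ∈ U α ∩ D, ∀ q : UOpen, qm q = f x → mx (q : E5) = GG α x → q = P α x := by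
    intro α x hx q h1 h2
    obtain ⟨h3, h4⟩ := hPs α x hx
    apply lift_unique
    · rw [htq _ x hx.2 h3]
      exact ht
    · rw [h1, h3]
    · rw [h2, h4]
  have hPl : ∀ α, ∀ x ∈ U α ∩ D, ∃ j, x ∈ N j ∧ ∃ γ : Gam, ∀ᶠ y in 𝓝 x, P α y = γ • L j y := by
    intro α x hx
    obtain ⟨j, hj, γ, hγ⟩ := hloc α x hx
    refine ⟨j, hj, γ, ?_⟩
    filter_upwards [hγ, ((hU α).inter hDo).mem_nhds hx] with y h1 h2
    exact (hPu α y h2 _ h1.1 h1.2).symm
  have hPC : ∀ α β, ∀ x ∈ U α ∩ U β ∩ D, P β x = C α β x • P α x := by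
    rintro α β x ⟨⟨h1, h2⟩, h3⟩
    obtain ⟨h4, h5⟩ := hPs α x ⟨h1, h3⟩
    refine (hPu β x ⟨h2, h3⟩ _ ?_ ?_).symm
    · rw [qm_smul, h4]
    · rw [mx_smul, h5, hCm α β x ⟨h1, h2⟩]
  -- the section of the flat vector bundle
  obtain ⟨v', hv'd, hv'c, hv'D⟩ := flat_section_extends hS AgHom U hU hcov C hCl hCc
    (fun α x => ![(P α x : E5) 4, 1])
    (by
      intro α x hx
      obtain ⟨j, hj, γ, hγ⟩ := hPl α x hx
      have h1 : MDifferentiableAt 𝓘(ℂ, Fin n → ℂ) 𝓘(ℂ, Fin 2 → ℂ)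
          (fun y => ![gc ^ (-(2 * kk γ)) * (L j y : E5) 4 + (ll γ).2, 1]) x := by
        apply mdifferentiableAt_pi_of
        have h2 : MDifferentiableAt 𝓘(ℂ, Fin n → ℂ) 𝓘(ℂ, ℂ) (fun y => (L j y : E5) 4) x :=
          (mdifferentiableOn_coord (hLd j) 4 x hj).mdifferentiableAt ((hN j).mem_nhds hj)
        intro i
        fin_cases i
        · exact (mdifferentiableAt_const.mul h2).add mdifferentiableAt_const
        · exact mdifferentiableAt_const
      apply MDifferentiableAt.mdifferentiableWithinAt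
      refine h1.congr_of_eventuallyEq ?_
      filter_upwards [hγ] with y hy
      rw [hy, last_smul])
    (by
      intro α β x hx
      change ![(P β x : E5) 4, 1] = _
      rw [Ag_mulVec, hPC α β x hx, last_smul]
      simp)
  -- the second coordinate is one
  have hv1 : ∀ α, ∀ x ∈ U α, v' α x 1 = 1 := by
    refine glue_const (n := n) (h := fun α x => v' α x 1) hDo hS.2.2.1.nonempty hU hcov ?_ ?_ ?_
    · intro α x hx
      have h2 : MDifferentiableAt 𝓘(ℂ, Fin 2 → ℂ) 𝓘(ℂ, ℂ) (fun w : Fin 2 → ℂ => w 1) (v' α x) := by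
        apply DifferentiableAt.mdifferentiableAt
        exact differentiableAt_apply 1 _
      exact MDifferentiableAt.comp_mdifferentiableWithinAt (g := fun w : Fin 2 → ℂ => w 1) x h2
        (hv'd α x hx)
    · intro α β x hx
      rw [hv'c α β x hx, Ag_mulVec]
      rfl
    · intro α x hx
      rw [hv'D α x hx]
      rfl
  -- the determinant is `t`
  have hdet : ∀ α, ∀ x ∈ U α, (GG α x : Mat2).det = t := by
    refine glue_const (n := n) (h := fun α x => (GG α x : Mat2).det) hDo hS.2.2.1.nonempty hU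
      hcov ?_ ?_ ?_
    · intro α
      simp only [Matrix.det_fin_two]
      exact ((hGd α 0 0).mul (hGd α 1 1)).sub ((hGd α 0 1).mul (hGd α 1 0))
    · intro α β x hx
      rw [hCm α β x hx, Matrix.det_mul, det_Mg, mul_one]
    · intro α x hx
      obtain ⟨h3, h4⟩ := hPs α x hx
      rw [← h4, det_mx, htq _ x hx.2 h3]
  -- the extension
  set Q : ι → S → E5 := fun α x => ![(GG α x : Mat2) 0 0, (GG α x : Mat2) 1 0, (GG α x : Mat2) 0 1,
    (GG α x : Mat2) 1 1, v' α x 0] with hQ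
  have hQm : ∀ α x, mx (Q α x) = GG α x := by
    intro α x
    ext i j
    fin_cases i <;> fin_cases j <;> simp [mx, hQ]
  have hQ4 : ∀ α x, Q α x 4 = v' α x 0 := fun α x => rfl
  have hQt : ∀ α, ∀ x ∈ U α, tau (Q α x) = t := by
    intro α x hx
    rw [← det_mx, hQm, hdet α x hx]
  have hQU : ∀ α, ∀ x ∈ U α, Q α x ∈ USet := by
    intro α x hx
    have h1 := hQt α x hx
    refine ⟨?_, by rw [h1]; exact ht1⟩
    by_contra hcon
    push Not at hcon
    rw [tau, hcon.1, hcon.2] at h1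
    simp only [zero_mul, sub_zero] at h1
    exact ht h1.symm
  have hQd : ∀ α, ∀ x ∈ U α, MDifferentiableAt 𝓘(ℂ, Fin n → ℂ) 𝓘(ℂ, E5) (Q α) x := by
    intro α x hx
    apply mdifferentiableAt_pi_of
    have hn := (hU α).mem_nhds hx
    intro i
    fin_cases i
    · exact (hGd α 0 0 x hx).mdifferentiableAt hn
    · exact (hGd α 1 0 x hx).mdifferentiableAt hn
    · exact (hGd α 0 1 x hx).mdifferentiableAt hn
    · exact (hGd α 1 1 x hx).mdifferentiableAt hn
    · have h2 : MDifferentiableAt 𝓘(ℂ, Fin 2 → ℂ) 𝓘(ℂ, ℂ) (fun w : Fin 2 → ℂ => w 0)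
          (v' α x) := by
        apply DifferentiableAt.mdifferentiableAt
        exact differentiableAt_apply 0 _
      exact MDifferentiableAt.comp (g := fun w : Fin 2 → ℂ => w 0) x h2
        ((hv'd α x hx).mdifferentiableAt hn)
  have hQC : ∀ α β, ∀ x ∈ U α ∩ U β, qE (Q β x) = qE (Q α x) := by
    intro α β x hx
    rw [qE_of_mem (hQU β x hx.2), qE_of_mem (hQU α x hx.1)]
    have h1 : (⟨Q β x, hQU β x hx.2⟩ : UOpen) = C α β x • (⟨Q α x, hQU α x hx.1⟩ : UOpen) := by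
      apply UOpen_ext
      · rw [mx_smul]
        change mx (Q β x) = mx (Q α x) * _
        rw [hQm, hQm, hCm α β x hx]
      · rw [last_smul]
        change v' β x 0 = _ * v' α x 0 + _
        rw [hv'c α β x hx, Ag_mulVec, hv1 α x hx.1]
        simp
    rw [h1, qm_smul]
  choose a ha using hcov
  have hFe : ∀ x, ∀ᶠ y in 𝓝 x, qE (Q (a y) y) = qE (Q (a x) y) := by
    intro x
    filter_upwards [(hU _).mem_nhds (ha x)] with y hy
    exact hQC (a x) (a y) y ⟨hy, ha y⟩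
  refine ⟨fun x => qE (Q (a x) x), ?_, ?_, ?_⟩
  · intro x
    have h1 : MDifferentiableAt 𝓘(ℂ, Fin n → ℂ) 𝓘(ℂ, E5) (fun y => qE (Q (a x) y)) x :=
      MDifferentiableAt.comp (g := qE) x (qE_mdifferentiableAt (hQU _ x (ha x))) (hQd _ x (ha x))
    exact h1.congr_of_eventuallyEq (hFe x)
  · intro x hx
    change qE (Q (a x) x) = f x
    rw [qE_of_mem (hQU _ x (ha x)), ← (hPs (a x) x ⟨ha x, hx⟩).1]
    congr 1
    apply UOpen_ext
    · change mx (Q (a x) x) = _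
      rw [hQm, (hPs (a x) x ⟨ha x, hx⟩).2]
    · change v' (a x) x 0 = _
      rw [hv'D (a x) x ⟨ha x, hx⟩]
      rfl
  · intro x
    change pim (qE (Q (a x) x)) = t
    rw [pim_qE (hQU _ x (ha x)), hQt _ x (ha x)]

end

/-- the fibres over `t ≠ 0` have the meromorphic extension property -/
theorem hasExtensionProperty_fibre {t : ℂ} (ht : t ≠ 0) (ht1 : ‖t‖ < 1) :
    HasExtensionProperty (m := 5) (pim ⁻¹' {t}) := by
  intro n S _ _ _ _ _ _ D hD A f hf
  have hDo : IsOpen D := hD.2.1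
  obtain ⟨f', hf', hf'f, hf't⟩ := removable hDo hf.indeterminacy_analytic hf.indeterminacy_codim
    hf.holomorphic ht ht1 (fun q hq => hf.mapsTo hq)
  obtain ⟨F, hF, hFf, hFt⟩ := extend_map hD hf' ht ht1 hf't
  refine ⟨∅, F, isMeromorphicMap_of_mdifferentiableOn isOpen_univ hF.mdifferentiableOn
    (fun q _ => hFt q), ?_⟩
  rintro q ⟨hq, hqA⟩
  rw [hFf q hq, hf'f q ⟨hq, fun h => hqA (Or.inl h)⟩]

/-- the extension property implies the one for simply connected domains -/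
theorem HasExtensionProperty.sc {m : ℕ} {X : Type} [TopologicalSpace X]
    [ChartedSpace (Fin m → ℂ) X] {Y : Set X} (h : HasExtensionProperty (m := m) Y) :
    HasExtensionPropertySC (m := m) Y := by
  intro n S _ _ _ _ _ _ D hD _ A f hf
  exact h n S D hD A f hf

end Pool.Agent.MEP
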