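import Pool.Agent.MEP.Action

/-!
# Proper discontinuity of the action
-/

set_option autoImplicit false

open Set Filter Topology

namespace Pool.Agent.MEP

lemma finite_gaussianInt (C : ℝ) : {a : GaussianInt | ‖(a : ℂ)‖ ≤ C}.Finite := by
  have hinj : Function.Injective (fun a : GaussianInt => (a.re, a.im)) := by
    intro a b h
    simp only [Prod.mk.injEq] at h
    exact Zsqrtd.ext h.1 h.2
  have hfin : ((Set.Icc (-⌈C⌉) ⌈C⌉) ×ˢ (Set.Icc (-⌈C⌉) ⌈C⌉) : Set (ℤ × ℤ)).Finite :=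
    (Set.finite_Icc _ _).prod (Set.finite_Icc _ _)
  refine (hfin.preimage hinj.injOn).subset ?_
  intro a ha
  have h1 : |((a : ℂ)).re| ≤ C := (Complex.abs_re_le_norm _).trans ha
  have h2 : |((a : ℂ)).im| ≤ C := (Complex.abs_im_le_norm _).trans ha
  rw [← GaussianInt.intCast_re] at h1
  rw [← GaussianInt.intCast_im] at h2
  have h1' := abs_le.mp (h1.trans (Int.le_ceil C))
  have h2' := abs_le.mp (h2.trans (Int.le_ceil C))
  simp only [mem_preimage, mem_prod, mem_Icc]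
  refine ⟨⟨?_, ?_⟩, ⟨?_, ?_⟩⟩
  · exact_mod_cast h1'.1
  · exact_mod_cast h1'.2
  · exact_mod_cast h2'.1
  · exact_mod_cast h2'.2

lemma norm_gc : ‖gc‖ = gr := by
  unfold gc; rw [Complex.norm_real]; exact abs_of_pos gr_pos

lemma norm_gc_zpow (k : ℤ) : ‖gc ^ k‖ = gr ^ k := by
  rw [norm_zpow, norm_gc]

/-- the size of the first two coordinates -/
noncomputable def N2 (p : E5) : ℝ := max ‖p 0‖ ‖p 1‖

lemma continuous_N2 : Continuous N2 := by unfold N2; fun_prop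

lemma N2_pos {p : E5} (hp : p ∈ USet) : 0 < N2 p := by
  rcases hp.1 with h | h
  · exact lt_max_of_lt_left (norm_pos_iff.mpr h)
  · exact lt_max_of_lt_right (norm_pos_iff.mpr h)

lemma N2_act (k : ℤ) (l : ℂ × ℂ) (p : E5) : N2 (act k l p) = gr ^ (-k) * N2 p := by
  unfold N2
  rw [act_zero', act_one', norm_mul, norm_mul, norm_gc_zpow]
  rw [mul_max_of_nonneg _ _ (zpow_nonneg gr_pos.le _)]

/-- The lattice element with coordinates `a`, `b`. -/
noncomputable def lam (a b : GaussianInt) : ℂ × ℂ :=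
  ((a : ℂ) + (b : ℂ) * gc, (a : ℂ) + (b : ℂ) * (1 - gc))

lemma lam_mem (a b : GaussianInt) : lam a b ∈ Lam := ⟨a, b, rfl, rfl⟩

lemma exists_lam {l : ℂ × ℂ} (hl : l ∈ Lam) : ∃ a b, l = lam a b := by
  obtain ⟨a, b, h1, h2⟩ := hl
  exact ⟨a, b, Prod.ext h1 h2⟩

lemma lam_bound {a b : GaussianInt} {C : ℝ} (h1 : ‖(lam a b).1‖ ≤ C) (h2 : ‖(lam a b).2‖ ≤ C) :
    ‖(a : ℂ)‖ ≤ 5 * C ∧ ‖(b : ℂ)‖ ≤ 5 * C := by
  have hC : 0 ≤ C := (norm_nonneg _).trans h1
  have hb : (b : ℂ) * (2 * gc - 1) = (lam a b).1 - (lam a b).2 := by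
    simp only [lam]; ring
  have hn : 1 ≤ ‖2 * gc - 1‖ := by
    have : 2 * gc - 1 = ((2 * gr - 1 : ℝ) : ℂ) := by unfold gc; push_cast; ring
    rw [this, Complex.norm_real, Real.norm_eq_abs, le_abs]
    left
    have := one_lt_gr
    linarith
  have hb' : ‖(b : ℂ)‖ ≤ 2 * C := by
    calc ‖(b : ℂ)‖ ≤ ‖(b : ℂ)‖ * ‖2 * gc - 1‖ := le_mul_of_one_le_right (norm_nonneg _) hn
      _ = ‖(lam a b).1 - (lam a b).2‖ := by rw [← norm_mul, hb]
      _ ≤ ‖(lam a b).1‖ + ‖(lam a b).2‖ := norm_sub_le _ _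
      _ ≤ 2 * C := by linarith
  have ha : (a : ℂ) = (lam a b).1 - (b : ℂ) * gc := by simp only [lam]; ring
  have ha' : ‖(a : ℂ)‖ ≤ 5 * C := by
    calc ‖(a : ℂ)‖ = ‖(lam a b).1 - (b : ℂ) * gc‖ := by rw [← ha]
      _ ≤ ‖(lam a b).1‖ + ‖(b : ℂ) * gc‖ := norm_sub_le _ _
      _ = ‖(lam a b).1‖ + ‖(b : ℂ)‖ * gr := by rw [norm_mul, norm_gc]
      _ ≤ C + (2 * C) * 2 :=
        add_le_add h1 (mul_le_mul hb' gr_lt_two.le gr_pos.le (by positivity))
      _ = 5 * C := by ring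
  exact ⟨ha', by linarith⟩

/-- the group element `T_{lam a b} h^k` -/
noncomputable def gel (t : ℤ × GaussianInt × GaussianInt) : Gam :=
  ⟨actPerm t.1 (lam t.2.1 t.2.2), actPerm_mem _ (lam_mem _ _)⟩

lemma gel_smul (t : ℤ × GaussianInt × GaussianInt) (p : UOpen) :
    ((gel t • p : UOpen) : E5) = act t.1 (lam t.2.1 t.2.2) p := rfl

lemma exists_gel (g : Gam) : ∃ t, gel t = g := by
  obtain ⟨k, l, hl, h⟩ := exists_smul_eq g
  obtain ⟨a, b, rfl⟩ := exists_lam hl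
  refine ⟨(k, a, b), ?_⟩
  apply Subtype.ext
  apply Equiv.ext
  intro p
  apply Subtype.ext
  exact (h p).symm

lemma exists_bounds {K : Set UOpen} (hK : IsCompact K) :
    ∃ m M : ℝ, 0 < m ∧ 0 < M ∧ (∀ p ∈ K, m ≤ N2 p) ∧ ∀ p ∈ K, ∀ i, ‖(p : E5) i‖ ≤ M := by
  rcases K.eq_empty_or_nonempty with rfl | hne
  · exact ⟨1, 1, one_pos, one_pos, by simp, by simp⟩
  obtain ⟨p0, hp0, hmin⟩ := hK.exists_isMinOn hne
    ((continuous_N2.comp continuous_subtype_val).continuousOn)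
  obtain ⟨p1, hp1, hmax⟩ := hK.exists_isMaxOn hne
    ((continuous_norm.comp continuous_subtype_val).continuousOn)
  refine ⟨N2 p0, ‖(p1 : E5)‖ + 1, N2_pos p0.2, by positivity, fun p hp => hmin hp, ?_⟩
  intro p hp i
  have h1 : ‖(p : E5) i‖ ≤ ‖(p : E5)‖ := norm_le_pi_norm _ _
  have h2 : ‖(p : E5)‖ ≤ ‖(p1 : E5)‖ := hmax hp
  linarith

lemma N2_le {p : E5} {M : ℝ} (h : ∀ i, ‖p i‖ ≤ M) : N2 p ≤ M := max_le (h 0) (h 1)

lemma zpow_bound {R : ℝ} : ∃ n0 : ℕ, ∀ k : ℤ, gr ^ k ≤ R → gr ^ (-k) ≤ R → k ∈ Icc (-(n0 : ℤ)) n0 := by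
  obtain ⟨n0, hn0⟩ := pow_unbounded_of_one_lt R one_lt_gr
  refine ⟨n0, fun k h1 h2 => ⟨?_, ?_⟩⟩
  · by_contra hcon
    push Not at hcon
    have : gr ^ (n0 : ℤ) ≤ gr ^ (-k) := zpow_le_zpow_right₀ one_lt_gr.le (by omega)
    rw [zpow_natCast] at this
    linarith
  · by_contra hcon
    push Not at hcon
    have : gr ^ (n0 : ℤ) ≤ gr ^ k := zpow_le_zpow_right₀ one_lt_gr.le (by omega)
    rw [zpow_natCast] at this
    linarith

instance : ProperlyDiscontinuousSMul Gam UOpen where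
  finite_disjoint_inter_image := by
    intro K L hK hL
    obtain ⟨m, M, hm, hM, hmK, hMK⟩ := exists_bounds (hK.union hL)
    set R := M / m with hR
    have hR0 : 0 < R := div_pos hM hm
    obtain ⟨n0, hn0⟩ := zpow_bound (R := R)
    set C := (M + R * M) / m + (M + R ^ 2 * M) with hC
    have hfin : ((Icc (-(n0 : ℤ)) n0) ×ˢ ({a : GaussianInt | ‖(a : ℂ)‖ ≤ 5 * C} ×ˢ
        {a : GaussianInt | ‖(a : ℂ)‖ ≤ 5 * C}) : Set (ℤ × GaussianInt × GaussianInt)).Finite :=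
      (Set.finite_Icc _ _).prod ((finite_gaussianInt _).prod (finite_gaussianInt _))
    refine (hfin.image gel).subset ?_
    rintro g ⟨q, ⟨p, hpK, hpq⟩, hqL⟩
    obtain ⟨⟨k, a, b⟩, rfl⟩ := exists_gel g
    refine ⟨(k, a, b), ?_, rfl⟩
    have hq : (q : E5) = act k (lam a b) p := by
      rw [← hpq]; exact gel_smul _ _
    have hpN := hmK p (Or.inl hpK)
    have hqN := hmK q (Or.inr hqL)
    have hpM := hMK p (Or.inl hpK)
    have hqM := hMK q (Or.inr hqL)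
    have hN : N2 (q : E5) = gr ^ (-k) * N2 (p : E5) := by rw [hq, N2_act]
    have hz : 0 < gr ^ (-k) := zpow_pos gr_pos _
    have hz' : 0 < gr ^ k := zpow_pos gr_pos _
    have hzz : gr ^ k * gr ^ (-k) = 1 := by rw [← zpow_add₀ gr_ne]; simp
    have hk2 : gr ^ (-k) ≤ R := by
      rw [hR, le_div_iff₀ hm]
      calc gr ^ (-k) * m ≤ gr ^ (-k) * N2 (p : E5) := by gcongr
        _ = N2 (q : E5) := hN.symm
        _ ≤ M := N2_le hqM
    have hk1 : gr ^ k ≤ R := by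
      rw [hR, le_div_iff₀ hm]
      calc gr ^ k * m ≤ gr ^ k * N2 (q : E5) := by gcongr
        _ = (gr ^ k * gr ^ (-k)) * N2 (p : E5) := by rw [hN]; ring
        _ = N2 (p : E5) := by rw [hzz, one_mul]
        _ ≤ M := N2_le hpM
    have hk := hn0 k hk1 hk2
    have hl1 : ‖(lam a b).1‖ ≤ (M + R * M) / m := by
      rw [le_div_iff₀ hm]
      have key : ∀ i j : Fin 5, (q : E5) j = gc ^ k * (p : E5) j + (lam a b).1 * (q : E5) i →
          m ≤ ‖(q : E5) i‖ → ‖(lam a b).1‖ * m ≤ M + R * M := by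
        intro i j hij hmi
        calc ‖(lam a b).1‖ * m ≤ ‖(lam a b).1‖ * ‖(q : E5) i‖ := by gcongr
          _ = ‖(q : E5) j - gc ^ k * (p : E5) j‖ := by rw [hij, add_sub_cancel_left, norm_mul]
          _ ≤ ‖(q : E5) j‖ + ‖gc ^ k * (p : E5) j‖ := norm_sub_le _ _
          _ = ‖(q : E5) j‖ + gr ^ k * ‖(p : E5) j‖ := by rw [norm_mul, norm_gc_zpow]
          _ ≤ M + R * M := by
            gcongr
            · exact hqM j
            · exact hpM j
      rcases le_max_iff.mp hqN with h | h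
      · exact key 0 2 (by rw [hq]; simp) h
      · exact key 1 3 (by rw [hq]; simp) h
    have hl2 : ‖(lam a b).2‖ ≤ M + R ^ 2 * M := by
      have h4 : (lam a b).2 = (q : E5) 4 - gc ^ (-(2 * k)) * (p : E5) 4 := by rw [hq]; simp
      have h5 : gr ^ (-(2 * k)) = gr ^ (-k) * gr ^ (-k) := by
        rw [← zpow_add₀ gr_ne]; congr 1; ring
      calc ‖(lam a b).2‖ = ‖(q : E5) 4 - gc ^ (-(2 * k)) * (p : E5) 4‖ := by rw [h4]
        _ ≤ ‖(q : E5) 4‖ + ‖gc ^ (-(2 * k)) * (p : E5) 4‖ := norm_sub_le _ _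
        _ = ‖(q : E5) 4‖ + (gr ^ (-k) * gr ^ (-k)) * ‖(p : E5) 4‖ := by
          rw [norm_mul, norm_gc_zpow, h5]
        _ ≤ M + (R * R) * M := by
          gcongr
          · exact hqM 4
          · exact hpM 4
        _ = M + R ^ 2 * M := by ring
    have hA : 0 ≤ (M + R * M) / m := by positivity
    have hB : 0 ≤ M + R ^ 2 * M := by positivity
    obtain ⟨h6, h7⟩ := lam_bound (a := a) (b := b) (C := C) (by linarith) (by linarith)
    exact ⟨hk, h6, h7⟩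

end Pool.Agent.MEP
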