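import Pool.Agent.MEP.Mero
import Pool.Agent.MEP.Proper

/-!
# Two matrix representations of the group `Gam`
-/

set_option autoImplicit false

open Set Filter Topology
open scoped Manifold ContDiff

namespace Pool.Agent.MEP

/-- 2x2 matrices -/
abbrev Mat2 := Matrix (Fin 2) (Fin 2) ℂ

/-- the matrix part of a point of `ℂ⁵` -/
def mx (p : E5) : Mat2 := !![p 0, p 2; p 1, p 3]

lemma det_mx (p : E5) : (mx p).det = tau p := by
  simp only [mx, Matrix.det_fin_two_of, tau]
  ring

lemma isUnit_mx {p : E5} (h : tau p ≠ 0) : IsUnit (mx p) := by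
  rw [Matrix.isUnit_iff_isUnit_det, det_mx]
  exact isUnit_iff_ne_zero.mpr h

noncomputable def kk (g : Gam) : ℤ := (exists_smul_eq g).choose

noncomputable def ll (g : Gam) : ℂ × ℂ := (exists_smul_eq g).choose_spec.choose

lemma ll_mem (g : Gam) : ll g ∈ Lam := (exists_smul_eq g).choose_spec.choose_spec.1

lemma smul_eq_act (g : Gam) (p : UOpen) : ((g • p : UOpen) : E5) = act (kk g) (ll g) p :=
  (exists_smul_eq g).choose_spec.choose_spec.2 p

/-- the matrix by which `g` multiplies the matrix part from the right -/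
noncomputable def Mg (g : Gam) : Mat2 := !![gc ^ (-kk g), (ll g).1 * gc ^ (-kk g); 0, gc ^ (kk g)]

/-- the affine map by which `g` acts on the last coordinate -/
noncomputable def Ag (g : Gam) : Mat2 := !![gc ^ (-(2 * kk g)), (ll g).2; 0, 1]

lemma mx_act (k : ℤ) (l : ℂ × ℂ) (p : E5) :
    mx (act k l p) = mx p * !![gc ^ (-k), l.1 * gc ^ (-k); 0, gc ^ k] := by
  ext i j
  fin_cases i <;> fin_cases j <;> simp [mx, Matrix.mul_apply, Fin.sum_univ_two] <;> ring

lemma mx_smul (g : Gam) (p : UOpen) : mx ((g • p : UOpen) : E5) = mx p * Mg g := by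
  rw [smul_eq_act, mx_act, Mg]

lemma last_smul (g : Gam) (p : UOpen) :
    ((g • p : UOpen) : E5) 4 = gc ^ (-(2 * kk g)) * (p : E5) 4 + (ll g).2 := by
  rw [smul_eq_act, act_four']

lemma det_Mg (g : Gam) : (Mg g).det = 1 := by
  simp only [Mg, Matrix.det_fin_two_of, mul_zero, sub_zero]
  exact gc_zpow_neg_mul _

/-- base point with invertible matrix part and prescribed last coordinate -/
noncomputable def bp (s : ℂ) : UOpen := ⟨![1, 0, 0, 1 / 2, s], by
  refine ⟨Or.inl (by simp), ?_⟩
  simp [tau]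
  norm_num⟩

lemma tau_bp (s : ℂ) : tau (bp s : E5) ≠ 0 := by
  simp [bp, tau]

lemma bp_four (s : ℂ) : (bp s : E5) 4 = s := rfl

lemma mx_cancel {p : UOpen} (hp : tau (p : E5) ≠ 0) {A B : Mat2} (h : mx p * A = mx p * B) :
    A = B := (isUnit_mx hp).mul_left_cancel h

lemma Mg_mul (g g' : Gam) : Mg (g * g') = Mg g' * Mg g := by
  apply mx_cancel (tau_bp 0)
  rw [← mx_smul, mul_smul, mx_smul, mx_smul, Matrix.mul_assoc]

lemma Mg_one : Mg 1 = 1 := by
  apply mx_cancel (tau_bp 0)
  rw [← mx_smul, one_smul, mul_one]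

lemma Ag_mul (g g' : Gam) : Ag (g * g') = Ag g * Ag g' := by
  have h0 : ∀ s : ℂ, gc ^ (-(2 * kk (g * g'))) * s + (ll (g * g')).2 =
      gc ^ (-(2 * kk g)) * (gc ^ (-(2 * kk g')) * s + (ll g').2) + (ll g).2 := by
    intro s
    rw [← bp_four s, ← last_smul, mul_smul, last_smul, last_smul]
  have h1 := h0 0
  have h2 := h0 1
  simp only [mul_zero, zero_add, mul_one] at h1 h2
  ext i j
  fin_cases i <;> fin_cases j
  · simp [-zpow_neg, Ag, Matrix.mul_apply, Fin.sum_univ_two]
    linear_combination h2 - h1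
  · simp [-zpow_neg, Ag, Matrix.mul_apply, Fin.sum_univ_two]
    linear_combination h1
  · simp [Ag, Matrix.mul_apply, Fin.sum_univ_two]
  · simp [Ag, Matrix.mul_apply, Fin.sum_univ_two]

lemma Ag_one : Ag 1 = 1 := by
  have h0 : ∀ s : ℂ, gc ^ (-(2 * kk 1)) * s + (ll 1).2 = s := by
    intro s
    rw [← bp_four s, ← last_smul, one_smul]
  have h1 := h0 0
  have h2 := h0 1
  simp only [mul_zero, zero_add, mul_one] at h1 h2
  ext i j
  fin_cases i <;> fin_cases j
  · simp [-zpow_neg, Ag]
    linear_combination h2 - h1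
  · simp [-zpow_neg, Ag]
    linear_combination h1
  · simp [Ag]
  · simp [Ag]

/-- `Ag` as a homomorphism -/
noncomputable def AgHom : Gam →* Mat2 where
  toFun := Ag
  map_one' := Ag_one
  map_mul' := Ag_mul

lemma gauss_irr {a b : ℤ} (h : (a : ℝ) + b * gr = 0) : a = 0 ∧ b = 0 := by
  have hb : b = 0 := by
    by_contra hb
    have hb' : (b : ℝ) ≠ 0 := by exact_mod_cast hb
    have h1 : gr = ((-a / b : ℚ) : ℝ) := by
      push_cast
      rw [eq_div_iff hb']
      linarith
    have h2 : Irrational gr := Real.goldenRatio_irrational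
    exact h2 ⟨_, h1.symm⟩
  subst hb
  simp only [Int.cast_zero, zero_mul, add_zero, Int.cast_eq_zero] at h
  exact ⟨h, rfl⟩

lemma lam_fst_zero {l : ℂ × ℂ} (hl : l ∈ Lam) (h : l.1 = 0) : l.2 = 0 := by
  obtain ⟨a, b, h1, h2⟩ := hl
  rw [h] at h1
  have hre := congrArg Complex.re h1
  have him := congrArg Complex.im h1
  simp only [Complex.zero_re, Complex.zero_im, Complex.add_re, Complex.add_im, Complex.mul_re,
    Complex.mul_im, gc, Complex.ofReal_re, Complex.ofReal_im, mul_zero, sub_zero, zero_add,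
    ← GaussianInt.intCast_re, ← GaussianInt.intCast_im] at hre him
  obtain ⟨ha1, hb1⟩ := gauss_irr hre.symm
  obtain ⟨ha2, hb2⟩ := gauss_irr him.symm
  have ha : a = 0 := Zsqrtd.ext ha1 ha2
  have hb : b = 0 := Zsqrtd.ext hb1 hb2
  rw [h2, ha, hb]
  simp

lemma Mg_injective : Function.Injective Mg := by
  intro g g' h
  have h00 := congrFun (congrFun h 0) 0
  have h01 := congrFun (congrFun h 0) 1
  simp only [Mg, Matrix.of_apply, Matrix.cons_val', Matrix.cons_val_zero, Matrix.cons_val_one,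
    Matrix.cons_val_fin_one] at h00 h01
  have hk : kk g = kk g' := by
    have h1 : gc ^ (-kk g + kk g') = 1 := by
      rw [zpow_add₀ gc_ne, h00, gc_zpow_neg_mul]
    have := gr_zpow_inj h1
    omega
  have hl1 : (ll g).1 = (ll g').1 := by
    rw [hk] at h01
    exact mul_right_cancel₀ (zpow_ne_zero _ gc_ne) h01
  have hl2 : (ll g).2 = (ll g').2 := by
    have h1 := lam_fst_zero (sub_mem (ll_mem g) (ll_mem g')) (by
      rw [Prod.fst_sub, hl1, sub_self])
    rw [Prod.snd_sub, sub_eq_zero] at h1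
    exact h1
  have hl : ll g = ll g' := Prod.ext hl1 hl2
  apply Subtype.ext
  apply Equiv.ext
  intro p
  apply Subtype.ext
  rw [← smul_def', ← smul_def', smul_eq_act, smul_eq_act, hk, hl]

instance : Countable GaussianInt := by
  have h : Function.Injective (fun a : GaussianInt => (a.re, a.im)) := by
    intro a b hab
    simp only [Prod.mk.injEq] at hab
    exact Zsqrtd.ext hab.1 hab.2
  exact h.countable

instance : Countable Gam := by
  have h : Function.Surjective gel := fun g => exists_gel g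
  exact h.countable

/-- the units of the matrix ring -/
abbrev GL2 := Mat2ˣ

/-- `Mg` with values in the group of invertible matrices -/
noncomputable def MgU (g : Gam) : GL2 :=
  ⟨Mg g, Mg g⁻¹, by rw [← Mg_mul, inv_mul_cancel, Mg_one], by rw [← Mg_mul, mul_inv_cancel, Mg_one]⟩

lemma coe_MgU (g : Gam) : (MgU g : Mat2) = Mg g := rfl

lemma MgU_mul (g g' : Gam) : MgU (g * g') = MgU g' * MgU g := Units.ext (Mg_mul g g')

lemma MgU_one : MgU 1 = 1 := Units.ext Mg_one

lemma MgU_inv (g : Gam) : MgU g⁻¹ = (MgU g)⁻¹ := by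
  rw [eq_inv_iff_mul_eq_one, ← MgU_mul, mul_inv_cancel, MgU_one]

lemma MgU_injective : Function.Injective MgU := fun _ _ h =>
  Mg_injective (congrArg Units.val h)

/-- the image of `Gam` in `GL₂(ℂ)` -/
noncomputable def GamGL : Subgroup GL2 where
  carrier := range MgU
  mul_mem' := by
    rintro _ _ ⟨g, rfl⟩ ⟨g', rfl⟩
    exact ⟨g' * g, MgU_mul _ _⟩
  one_mem' := ⟨1, MgU_one⟩
  inv_mem' := by
    rintro _ ⟨g, rfl⟩
    exact ⟨g⁻¹, MgU_inv g⟩

lemma mem_GamGL {A : GL2} : A ∈ GamGL ↔ ∃ g, MgU g = A := Iff.rfl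

/-- a subgroup generated by a countable set is countable -/
lemma countable_closure {G : Type} [Group G] {s : Set G} (hs : s.Countable) :
    Countable (Subgroup.closure s) := by
  have : Countable s := hs.to_subtype
  rw [FreeGroup.closure_eq_range]
  exact (MonoidHom.rangeRestrict_surjective (FreeGroup.lift ((↑) : s → G))).countable

/-- locally constant functions have countable image -/
lemma countable_image_of_locallyConstant {S α : Type} [TopologicalSpace S]
    [SecondCountableTopology S] {U : Set S} {f : S → α}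
    (h : ∀ x ∈ U, ∀ᶠ y in 𝓝 x, f y = f x) : (f '' U).Countable := by
  obtain ⟨t, htU, htc, hUt⟩ := TopologicalSpace.countable_cover_nhdsWithin
    (f := fun x => {y | f y = f x}) (s := U) (fun x hx => mem_nhdsWithin_of_mem_nhds (h x hx))
  refine (htc.image f).mono ?_
  rintro _ ⟨y, hy, rfl⟩
  obtain ⟨x, hx, hyx⟩ := mem_iUnion₂.mp (hUt hy)
  exact ⟨x, hx, hyx.symm⟩

end Pool.Agent.MEP
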