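import Mathlib

/-!
# Identity principle in one variable for maps into manifolds; contractibility lemmas
-/

set_option autoImplicit false

open Set Filter Topology Metric
open scoped Manifold ContDiff unitInterval

namespace Pool.Agent.MEP

section

variable {E X : Type*} [NormedAddCommGroup E] [NormedSpace ℂ E] [CompleteSpace E]
  [TopologicalSpace X] [ChartedSpace E X] [IsManifold 𝓘(ℂ, E) 1 X] [T2Space X]

/-- local identity principle for maps from the plane to a complex manifold -/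
lemma eventually_eq_of_frequently_eq {f g : ℂ → X} {a : ℂ}
    (hf : ∀ᶠ z in 𝓝 a, MDifferentiableAt 𝓘(ℂ, ℂ) 𝓘(ℂ, E) f z)
    (hg : ∀ᶠ z in 𝓝 a, MDifferentiableAt 𝓘(ℂ, ℂ) 𝓘(ℂ, E) g z)
    (h : ∃ᶠ z in 𝓝[≠] a, f z = g z) : ∀ᶠ z in 𝓝 a, f z = g z := by
  have hfa : ContinuousAt f a := hf.self_of_nhds.continuousAt
  have hga : ContinuousAt g a := hg.self_of_nhds.continuousAt
  have h0 : f a = g a := by
    by_contra hne
    have h1 : ∀ᶠ z in 𝓝 a, f z ≠ g z := by
      have := (hfa.prodMk hga).eventually ((isClosed_diagonal (X := X)).isOpen_compl.mem_nhds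
        (show (f a, g a) ∈ (diagonal X)ᶜ from hne))
      exact this
    exact h ((h1.filter_mono nhdsWithin_le_nhds).mono fun z hz => hz)
  set e := chartAt E (f a) with he
  have hfs : ∀ᶠ z in 𝓝 a, f z ∈ e.source :=
    hfa.eventually (e.open_source.mem_nhds (mem_chart_source E (f a)))
  have hgs : ∀ᶠ z in 𝓝 a, g z ∈ e.source :=
    hga.eventually (e.open_source.mem_nhds (by rw [← h0]; exact mem_chart_source E (f a)))
  have hφ : ∀ᶠ z in 𝓝 a, DifferentiableAt ℂ (fun z => e (f z)) z := by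
    filter_upwards [hf, hfs] with z hz hzs
    rw [← mdifferentiableAt_iff_differentiableAt]
    exact MDifferentiableAt.comp (g := e) z
      (mdifferentiableAt_atlas (chart_mem_atlas E (f a)) hzs) hz
  have hψ : ∀ᶠ z in 𝓝 a, DifferentiableAt ℂ (fun z => e (g z)) z := by
    filter_upwards [hg, hgs] with z hz hzs
    rw [← mdifferentiableAt_iff_differentiableAt]
    exact MDifferentiableAt.comp (g := e) z
      (mdifferentiableAt_atlas (chart_mem_atlas E (f a)) hzs) hz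
  have hφa : AnalyticAt ℂ (fun z => e (f z)) a :=
    Complex.analyticAt_iff_eventually_differentiableAt.mpr hφ
  have hψa : AnalyticAt ℂ (fun z => e (g z)) a :=
    Complex.analyticAt_iff_eventually_differentiableAt.mpr hψ
  have h1 : ∃ᶠ z in 𝓝[≠] a, e (f z) = e (g z) := h.mono fun z hz => by rw [hz]
  have h2 := (hφa.frequently_eq_iff_eventually_eq hψa).mp h1
  filter_upwards [h2, hfs, hgs] with z hz h3 h4
  exact e.injOn h3 h4 hz

/-- identity principle on a preconnected open subset of the plane -/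
lemma eqOn_of_preconnected {f g : ℂ → X} {N : Set ℂ} (hN : IsOpen N) (hc : IsPreconnected N)
    (hf : ∀ z ∈ N, MDifferentiableAt 𝓘(ℂ, ℂ) 𝓘(ℂ, E) f z)
    (hg : ∀ z ∈ N, MDifferentiableAt 𝓘(ℂ, ℂ) 𝓘(ℂ, E) g z) {c : ℂ} (hcN : c ∈ N)
    (h : ∀ᶠ z in 𝓝 c, f z = g z) : ∀ z ∈ N, f z = g z := by
  have hsub : N ⊆ {a | ∀ᶠ z in 𝓝 a, f z = g z} := by
    refine hc.subset_of_closure_inter_subset ?_ ⟨c, hcN, h⟩ ?_
    · exact isOpen_setOfPred_eventually_nhds
    · rintro a ⟨ha, haN⟩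
      refine eventually_eq_of_frequently_eq
        ((hN.mem_nhds haN) |> fun h => (eventually_of_mem h fun z hz => hf z hz))
        ((hN.mem_nhds haN) |> fun h => (eventually_of_mem h fun z hz => hg z hz)) ?_
      by_contra hne
      rw [not_frequently] at hne
      -- a punctured neighbourhood without equality
      rw [mem_closure_iff_frequently] at ha
      have h1 : ∀ᶠ z in 𝓝 a, z ≠ a → ¬ f z = g z := by
        rwa [eventually_nhdsWithin_iff] at hne
      obtain ⟨b, hb, hb'⟩ := (ha.and_eventually (eventually_eventually_nhds.mpr h1)).exists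
      have h2 : ∀ᶠ z in 𝓝 b, z = a := by
        filter_upwards [hb, hb'] with z hz hz'
        by_contra hza
        exact hz' hza hz
      have h3 : ({a} : Set ℂ) ∈ 𝓝 b := h2
      have h4 : b = a := h2.self_of_nhds
      rw [h4] at h3
      exact not_isOpen_singleton a (isOpen_singleton_iff_nhds_eq_pure a |>.mpr
        (le_antisymm (by rwa [le_pure_iff]) (pure_le_nhds a)))
  intro z hz
  exact (hsub hz).self_of_nhds

lemma isPreconnected_punctured_ball (a : ℂ) (r : ℝ) : IsPreconnected (ball a r \ {a}) := by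
  rcases le_or_gt r 0 with hr | hr
  · rw [ball_eq_empty.mpr hr]; simp [isPreconnected_empty]
  have h1 : IsPreconnected {w : ℂ | w.re < Real.log r} := by
    apply Convex.isPreconnected
    exact convex_halfSpace_re_lt _
  have h2 : (fun w : ℂ => a + Complex.exp w) '' {w : ℂ | w.re < Real.log r} = ball a r \ {a} := by
    ext z
    constructor
    · rintro ⟨w, hw, rfl⟩
      refine ⟨?_, by simp [Complex.exp_ne_zero]⟩
      rw [mem_ball_iff_norm, add_sub_cancel_left, Complex.norm_exp]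
      exact (Real.lt_log_iff_exp_lt hr).mp hw
    · rintro ⟨hz, hza⟩
      have hne : z - a ≠ 0 := sub_ne_zero.mpr hza
      refine ⟨Complex.log (z - a), ?_, ?_⟩
      · rw [mem_ofPred_eq, Complex.log_re]
        rw [mem_ball_iff_norm] at hz
        exact Real.log_lt_log (norm_pos_iff.mpr hne) hz
      · simp [Complex.exp_log hne]
  rw [← h2]
  exact h1.image _ (by fun_prop)

/-- Identity principle away from an exceptional set `Z` that is locally discrete or everything. -/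
lemma eq_of_slice {f g : ℂ → X} {R : ℝ} {Z : Set ℂ}
    (hZ : ∀ a ∈ ball (0 : ℂ) R, (∀ᶠ z in 𝓝[≠] a, z ∉ Z) ∨ (∀ᶠ z in 𝓝[≠] a, z ∈ Z))
    (hf : ∀ z ∈ ball (0 : ℂ) R \ Z, MDifferentiableAt 𝓘(ℂ, ℂ) 𝓘(ℂ, E) f z)
    (hg : ∀ z ∈ ball (0 : ℂ) R \ Z, MDifferentiableAt 𝓘(ℂ, ℂ) 𝓘(ℂ, E) g z)
    {c : ℂ} (hc : c ∈ ball (0 : ℂ) R) (h : ∀ᶠ z in 𝓝 c, z ∉ Z ∧ f z = g z) :
    ∀ z ∈ ball (0 : ℂ) R \ Z, f z = g z := by
  set u : Set ℂ := {a | ∀ᶠ z in 𝓝[≠] a, z ∉ Z ∧ f z = g z} with hu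
  have huo : IsOpen u := by
    rw [isOpen_iff_mem_nhds]
    intro a ha
    have h1 : ∀ᶠ z in 𝓝 a, z ≠ a → (z ∉ Z ∧ f z = g z) := eventually_nhdsWithin_iff.mp ha
    have h2 := eventually_eventually_nhds.mpr h1
    filter_upwards [h2] with b hb
    by_cases hba : b = a
    · rw [hba]; exact ha
    · have h3 : ∀ᶠ z in 𝓝 b, z ≠ a := isOpen_ne.mem_nhds hba
      exact ((hb.and h3).mono fun z hz => hz.1 hz.2).filter_mono nhdsWithin_le_nhds
  have hsub : ball (0 : ℂ) R ⊆ u := by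
    refine isPreconnected_ball.subset_of_closure_inter_subset huo
      ⟨c, hc, h.filter_mono nhdsWithin_le_nhds⟩ ?_
    rintro a ⟨ha, haR⟩
    rw [mem_closure_iff_frequently] at ha
    have hRa : ∀ᶠ z in 𝓝 a, z ∈ ball (0 : ℂ) R := isOpen_ball.mem_nhds haR
    rcases hZ a haR with hZa | hZa
    · have h1 : ∀ᶠ z in 𝓝 a, z ∈ ball (0 : ℂ) R ∧ (z ≠ a → z ∉ Z) :=
        hRa.and (eventually_nhdsWithin_iff.mp hZa)
      obtain ⟨ε, hε, hεb⟩ := Metric.eventually_nhds_iff_ball.mp h1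
      obtain ⟨b, hb, hbε⟩ := (ha.and_eventually (ball_mem_nhds a hε)).exists
      -- a point `c'` in the punctured ball near `b`
      have h2 : ∀ᶠ z in 𝓝 b, z ≠ b → (z ∉ Z ∧ f z = g z) := eventually_nhdsWithin_iff.mp hb
      have h3 : ∀ᶠ z in 𝓝[≠] b, z ≠ a ∧ z ∈ ball a ε ∧ ∀ᶠ w in 𝓝 z, f w = g w := by
        have h4 : ∀ᶠ z in 𝓝[≠] b, z ≠ b := eventually_mem_nhdsWithin
        have h5 : ∀ᶠ z in 𝓝[≠] b, z ≠ a := by
          by_cases hba : b = a
          · rw [← hba]; exact h4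
          · exact (isOpen_ne.mem_nhds hba : {z | z ≠ a} ∈ 𝓝 b) |> fun h =>
              (show ∀ᶠ z in 𝓝 b, z ≠ a from h).filter_mono nhdsWithin_le_nhds
        have h6 : ∀ᶠ z in 𝓝[≠] b, z ∈ ball a ε :=
          (show ∀ᶠ z in 𝓝 b, z ∈ ball a ε from isOpen_ball.mem_nhds hbε).filter_mono
            nhdsWithin_le_nhds
        have h7 : ∀ᶠ z in 𝓝[≠] b, ∀ᶠ w in 𝓝 z, w ≠ b → (w ∉ Z ∧ f w = g w) :=
          (eventually_eventually_nhds.mpr h2).filter_mono nhdsWithin_le_nhds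
        filter_upwards [h4, h5, h6, h7] with z h4 h5 h6 h7
        refine ⟨h5, h6, ?_⟩
        filter_upwards [h7, isOpen_ne.mem_nhds h4] with w hw hwb
        exact (hw hwb).2
      obtain ⟨c', hc'a, hc'ε, hc'⟩ := h3.exists
      have h8 := eqOn_of_preconnected (f := f) (g := g)
        (N := ball a ε \ {a}) (isOpen_ball.sdiff isClosed_singleton)
        (isPreconnected_punctured_ball a ε)
        (fun z hz => hf z ⟨(hεb z hz.1).1, (hεb z hz.1).2 hz.2⟩)
        (fun z hz => hg z ⟨(hεb z hz.1).1, (hεb z hz.1).2 hz.2⟩) (c := c') ⟨hc'ε, hc'a⟩ hc'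
      show ∀ᶠ z in 𝓝[≠] a, z ∉ Z ∧ f z = g z
      rw [eventually_nhdsWithin_iff]
      filter_upwards [ball_mem_nhds a hε] with z hz hza
      exact ⟨(hεb z hz).2 hza, h8 z ⟨hz, hza⟩⟩
    · exfalso
      have h1 : ∀ᶠ z in 𝓝 a, z ≠ a → z ∈ Z := eventually_nhdsWithin_iff.mp hZa
      obtain ⟨b, hb, hb'⟩ := (ha.and_eventually (eventually_eventually_nhds.mpr h1)).exists
      have h2 : ∀ᶠ z in 𝓝[≠] b, z = a := by
        filter_upwards [hb, hb'.filter_mono nhdsWithin_le_nhds] with z hz hz'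
        by_contra hza
        exact hz.1 (hz' hza)
      by_cases hba : b = a
      · rw [hba] at h2
        have h3 : ∀ᶠ z in 𝓝[≠] a, False := by
          filter_upwards [h2, eventually_mem_nhdsWithin] with z hz hz'
          exact hz' hz
        exact h3.exists.elim fun _ h => h
      · have h3 : ∀ᶠ z in 𝓝[≠] b, False := by
          filter_upwards [h2, (isOpen_ne.mem_nhds hba : {z | z ≠ a} ∈ 𝓝 b) |> fun h =>
              (show ∀ᶠ z in 𝓝 b, z ≠ a from h).filter_mono nhdsWithin_le_nhds] with z hz hz'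
          exact hz' hz
        exact h3.exists.elim fun _ h => h
  rintro z ⟨hz, hzZ⟩
  have h1 := hsub hz
  have h2 : ContinuousAt f z := (hf z ⟨hz, hzZ⟩).continuousAt
  have h3 : ContinuousAt g z := (hg z ⟨hz, hzZ⟩).continuousAt
  by_contra hne
  have h4 : ∀ᶠ w in 𝓝 z, f w ≠ g w :=
    (h2.prodMk h3).eventually ((isClosed_diagonal (X := X)).isOpen_compl.mem_nhds
      (show (f z, g z) ∈ (diagonal X)ᶜ from hne))
  have h5 : ∀ᶠ w in 𝓝[≠] z, False := by
    filter_upwards [h1, h4.filter_mono nhdsWithin_le_nhds] with w hw hw'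
    exact hw' hw.2
  exact h5.exists.elim fun _ h => h

end

section Contractible

variable {F : Type*} [NormedAddCommGroup F] [NormedSpace ℝ F]

/-- contractibility of Hartogs type figures -/
lemma contractible_figure {A A0 : Set ℂ} {V V0 : Set F} (hA : StarConvex ℝ (0 : ℂ) A)
    (hA0 : A0 ⊆ A) (hV : Convex ℝ V) (hV0 : Convex ℝ V0) (hsub : V0 ⊆ V) (h0A : (0 : ℂ) ∈ A)
    (hne : V0.Nonempty) : ContractibleSpace ↥(A ×ˢ V0 ∪ A0 ×ˢ V) := by
  obtain ⟨y0, hy0⟩ := hne
  set Q : Set (ℂ × F) := A ×ˢ V0 ∪ A0 ×ˢ V with hQ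
  have hy0V : y0 ∈ V := hsub hy0
  -- first homotopy
  have hm1 : ∀ (s : I) (p : Q), ((p : ℂ × F).1, (1 - (s : ℝ)) • (p : ℂ × F).2 + (s : ℝ) • y0) ∈ Q := by
    rintro s ⟨p, hp⟩
    have hs0 : (0 : ℝ) ≤ 1 - s := by linarith [s.2.2]
    rcases hp with hp | hp
    · exact Or.inl ⟨hp.1, hV0 hp.2 hy0 hs0 s.2.1 (by ring)⟩
    · exact Or.inr ⟨hp.1, hV hp.2 hy0V hs0 s.2.1 (by ring)⟩
  have hm2 : ∀ (s : I) (p : Q), ((1 - (s : ℝ)) • (p : ℂ × F).1, y0) ∈ Q := by
    rintro s ⟨p, hp⟩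
    have hpA : p.1 ∈ A := by
      rcases hp with hp | hp
      · exact hp.1
      · exact hA0 hp.1
    refine Or.inl ⟨?_, hy0⟩
    exact hA.smul_mem hpA (by linarith [s.2.2]) (by linarith [s.2.1])
  have hm3 : ∀ p : Q, ((p : ℂ × F).1, y0) ∈ Q := by
    rintro ⟨p, hp⟩
    rcases hp with hp | hp
    · exact Or.inl ⟨hp.1, hy0⟩
    · exact Or.inr ⟨hp.1, hy0V⟩
  have hm4 : ((0 : ℂ), y0) ∈ Q := Or.inl ⟨h0A, hy0⟩
  let g : C(Q, Q) := ⟨fun p => ⟨((p : ℂ × F).1, y0), hm3 p⟩, by fun_prop⟩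
  have H1 : (ContinuousMap.id Q).Homotopic g :=
    ⟨{ toFun := fun sp => ⟨_, hm1 sp.1 sp.2⟩
       continuous_toFun := by fun_prop
       map_zero_left := fun p => by
         apply Subtype.ext
         simp
       map_one_left := fun p => by
         apply Subtype.ext
         simp [g] }⟩
  have H2 : g.Homotopic (ContinuousMap.const Q ⟨_, hm4⟩) :=
    ⟨{ toFun := fun sp => ⟨_, hm2 sp.1 sp.2⟩
       continuous_toFun := by fun_prop
       map_zero_left := fun p => by
         apply Subtype.ext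
         simp [g]
       map_one_left := fun p => by
         apply Subtype.ext
         simp }⟩
  rw [contractible_iff_id_nullhomotopic]
  exact ⟨_, H1.trans H2⟩

end Contractible

end Pool.Agent.MEP
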