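import Pool.Agent.MEP.Lift
import Pool.Agent.MEP.Ident

/-!
# Local extension of holomorphic maps to the fibres over `t ≠ 0` across points of codimension two
-/

set_option autoImplicit false

open Set Filter Topology Metric
open scoped Manifold ContDiff

namespace Pool.Agent.MEP

/-- local extension across a point of codimension at least two, Euclidean version -/
theorem local_extension {E : Type} [NormedAddCommGroup E] [NormedSpace ℂ E] [FiniteDimensional ℂ E]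
    {W A : Set E} (hW : IsOpen W) (hWA : IsOpen (W \ A)) {p : E} (hp : p ∈ W) {v w : E}
    (hcodim : ∀ᶠ z : ℂ × ℂ in 𝓝[≠] 0, p + z.1 • v + z.2 • w ∉ A)
    (hslice : ∀ q v : E, ∀ a : ℂ, q + a • v ∈ W →
      (∀ᶠ z : ℂ in 𝓝[≠] a, q + z • v ∉ A) ∨ (∀ᶠ z : ℂ in 𝓝[≠] a, q + z • v ∈ A))
    {f : E → XX} (hf : MDifferentiableOn 𝓘(ℂ, E) 𝓘(ℂ, E5) f (W \ A)) {t : ℂ} (ht : t ≠ 0)
    (hft : ∀ q ∈ W \ A, pim (f q) = t) (hne : ‖t‖ < 1) :
    ∃ W' : Set E, IsOpen W' ∧ p ∈ W' ∧ W' ⊆ W ∧ ∃ F : E → XX,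
      MDifferentiableOn 𝓘(ℂ, E) 𝓘(ℂ, E5) F W' ∧ (∀ q ∈ W' \ A, F q = f q) ∧
      ∀ q ∈ W', pim (F q) = t := by
  have : ProperSpace E := FiniteDimensional.proper ℂ E
  -- the map of the plane
  have hPc : Continuous fun x : (ℂ × ℂ) × E => p + x.1.1 • v + x.1.2 • w + x.2 := by fun_prop
  have hW0 : ∀ᶠ z : ℂ × ℂ in 𝓝 0, p + z.1 • v + z.2 • w ∈ W := by
    have hc : Continuous fun z : ℂ × ℂ => p + z.1 • v + z.2 • w := by fun_prop
    have := hc.continuousAt (x := (0 : ℂ × ℂ))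
    apply this.eventually
    apply hW.mem_nhds
    simpa using hp
  have hev : ∀ᶠ z : ℂ × ℂ in 𝓝 0, p + z.1 • v + z.2 • w ∈ W ∧
      (z ≠ 0 → p + z.1 • v + z.2 • w ∉ A) := hW0.and (eventually_nhdsWithin_iff.mp hcodim)
  obtain ⟨ε, hε, hεb⟩ := Metric.eventually_nhds_iff_ball.mp hev
  set r := ε / 2 with hr
  have hr0 : 0 < r := by positivity
  have hcb : closedBall (0 : ℂ × ℂ) r ⊆ ball 0 ε := closedBall_subset_ball (by rw [hr]; linarith)
  set K : Set (ℂ × ℂ) := {z | z ∈ closedBall (0 : ℂ × ℂ) r ∧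
    (r / 2 ≤ ‖z.1‖ ∨ z.2 ∈ closedBall ((r / 2 : ℝ) : ℂ) (r / 4))} with hK
  have hKc : IsCompact K := by
    refine (isCompact_closedBall (0 : ℂ × ℂ) r).inter_right ?_
    exact (isClosed_le continuous_const continuous_fst.norm).union
      (isClosed_closedBall.preimage continuous_snd)
  have hK0 : ∀ z ∈ K, z ≠ 0 := by
    rintro z ⟨_, hz⟩ rfl
    rcases hz with hz | hz
    · simp only [Prod.fst_zero, norm_zero] at hz; linarith
    · simp only [Prod.snd_zero, mem_closedBall, dist_eq_norm, zero_sub, norm_neg,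
        Complex.norm_real, Real.norm_eq_abs, abs_of_pos (half_pos hr0)] at hz
      linarith
  obtain ⟨u1, v1, hu1, hv1, hKu1, hv10, huv1⟩ := generalized_tube_lemma hKc
    (isCompact_singleton (x := (0 : E))) (n := {x | p + x.1.1 • v + x.1.2 • w + x.2 ∈ W \ A})
    (hWA.preimage hPc) (by
      rintro ⟨z, y⟩ ⟨hz, hy⟩
      rw [mem_singleton_iff] at hy
      subst hy
      have h1 := hεb z (hcb hz.1)
      simpa using And.intro h1.1 (h1.2 (hK0 z hz)))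
  obtain ⟨u2, v2, hu2, hv2, hKu2, hv20, huv2⟩ := generalized_tube_lemma
    (isCompact_closedBall (0 : ℂ × ℂ) r)
    (isCompact_singleton (x := (0 : E))) (n := {x | p + x.1.1 • v + x.1.2 • w + x.2 ∈ W})
    (hW.preimage hPc) (by
      rintro ⟨z, y⟩ ⟨hz, hy⟩
      rw [mem_singleton_iff] at hy
      subst hy
      simpa using (hεb z (hcb hz)).1)
  obtain ⟨δ, hδ, hδb⟩ := Metric.mem_nhds_iff.mp
    (inter_mem (hv1.mem_nhds (hv10 (mem_singleton 0))) (hv2.mem_nhds (hv20 (mem_singleton 0))))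
  have hmem1 : ∀ z ∈ K, ∀ y ∈ ball (0 : E) δ, p + z.1 • v + z.2 • w + y ∈ W \ A :=
    fun z hz y hy => huv1 (show (z, y) ∈ u1 ×ˢ v1 from ⟨hKu1 hz, (hδb hy).1⟩)
  have hmem2 : ∀ z ∈ closedBall (0 : ℂ × ℂ) r, ∀ y ∈ ball (0 : E) δ,
      p + z.1 • v + z.2 • w + y ∈ W :=
    fun z hz y hy => huv2 (show (z, y) ∈ u2 ×ˢ v2 from ⟨hKu2 hz, (hδb hy).2⟩)
  -- the figure
  set V : Set (ℂ × E) := ball (0 : ℂ) r ×ˢ ball (0 : E) δ with hV
  set V0 : Set (ℂ × E) := ball ((r / 2 : ℝ) : ℂ) (r / 4) ×ˢ ball (0 : E) δ with hV0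
  have hVo : IsOpen V := isOpen_ball.prod isOpen_ball
  have hV0o : IsOpen V0 := isOpen_ball.prod isOpen_ball
  have hVc : Convex ℝ V := (convex_ball _ _).prod (convex_ball _ _)
  have hV0c : Convex ℝ V0 := (convex_ball _ _).prod (convex_ball _ _)
  have hr2 : ∀ b ∈ closedBall ((r / 2 : ℝ) : ℂ) (r / 4), ‖b‖ < r := by
    intro b hb
    rw [mem_closedBall, dist_eq_norm] at hb
    calc ‖b‖ = ‖(b - ((r / 2 : ℝ) : ℂ)) + ((r / 2 : ℝ) : ℂ)‖ := by congr 1; abel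
      _ ≤ ‖b - ((r / 2 : ℝ) : ℂ)‖ + ‖((r / 2 : ℝ) : ℂ)‖ := norm_add_le _ _
      _ ≤ r / 4 + r / 2 := by
        refine add_le_add hb ?_
        rw [Complex.norm_real, Real.norm_eq_abs, abs_of_pos (half_pos hr0)]
      _ < r := by linarith
  have hV0V : V0 ⊆ V := by
    rintro ⟨b, y⟩ ⟨hb, hy⟩
    exact ⟨mem_ball_zero_iff.mpr (hr2 b (ball_subset_closedBall hb)), hy⟩
  have hV0m : (((r / 2 : ℝ) : ℂ), (0 : E)) ∈ V0 :=
    ⟨mem_ball_self (by positivity), mem_ball_self hδ⟩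
  set Q : Set (ℂ × ℂ × E) := ball (0 : ℂ) r ×ˢ V0 ∪ {a : ℂ | r / 2 < ‖a‖ ∧ ‖a‖ < r} ×ˢ V with hQ
  have hann : IsOpen {a : ℂ | r / 2 < ‖a‖ ∧ ‖a‖ < r} :=
    (isOpen_lt continuous_const continuous_norm).inter (isOpen_lt continuous_norm continuous_const)
  have hQo : IsOpen Q := (isOpen_ball.prod hV0o).union (hann.prod hVo)
  set Ψ : ℂ × ℂ × E → E := fun x => p + x.1 • v + x.2.1 • w + x.2.2 with hΨ
  have hΨd : Differentiable ℂ Ψ := by
    simp only [hΨ]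
    fun_prop
  have hΨQ : MapsTo Ψ Q (W \ A) := by
    rintro ⟨a, b, y⟩ hx
    rcases hx with ⟨ha, hb, hy⟩ | ⟨ha, hb, hy⟩
    · refine hmem1 (a, b) ⟨?_, Or.inr (ball_subset_closedBall hb)⟩ y hy
      rw [mem_closedBall_zero_iff]
      refine max_le ?_ ?_
      · exact (mem_ball_zero_iff.mp ha).le
      · exact (hr2 b (ball_subset_closedBall hb)).le
    · refine hmem1 (a, b) ⟨?_, Or.inl ha.1.le⟩ y hy
      rw [mem_closedBall_zero_iff]
      refine max_le ?_ ?_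
      · exact ha.2.le
      · exact (mem_ball_zero_iff.mp hb).le
  have hcontr : ContractibleSpace Q := by
    refine contractible_figure ?_ ?_ hVc hV0c hV0V (mem_ball_self hr0) ⟨_, hV0m⟩
    · exact (convex_ball (0 : ℂ) r).starConvex (mem_ball_self hr0)
    · intro a ha
      exact mem_ball_zero_iff.mpr ha.2
  have hfΨ : MDifferentiableOn 𝓘(ℂ, ℂ × ℂ × E) 𝓘(ℂ, E5) (fun x => f (Ψ x)) Q := by
    intro x hx
    have h1 : MDifferentiableAt 𝓘(ℂ, E) 𝓘(ℂ, E5) f (Ψ x) :=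
      (hf _ (hΨQ hx)).mdifferentiableAt (hWA.mem_nhds (hΨQ hx))
    exact (MDifferentiableAt.comp (g := f) x h1 (hΨd x).mdifferentiableAt).mdifferentiableWithinAt
  obtain ⟨G0, hG0c, hG0U, hG0q⟩ := exists_lift (M := ℂ × ℂ × E) (D := Q) inferInstance
    hQo.locallyPathConnectedSpace (f := fun x => f (Ψ x)) hfΨ.continuousOn
  have hG0d : DifferentiableOn ℂ G0 Q := by
    have := lift_mdifferentiableOn hQo hfΨ hG0c hG0U hG0q
    rwa [mdifferentiableOn_iff_differentiableOn] at this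
  have hG0t : ∀ x ∈ Q, tau (G0 x) = t := by
    intro x hx
    rw [← pim_qE (hG0U hx), hG0q x hx, hft _ (hΨQ hx)]
  set R := 3 * r / 4 with hR
  have hR0 : 0 < R := by rw [hR]; linarith
  have hRr : R < r := by rw [hR]; linarith
  have hG0i : ∀ i, DifferentiableOn ℂ (fun x => G0 x i) Q := fun i =>
    (differentiableOn_pi.mp hG0d) i
  choose G hGd hG1 hG2 using fun i : Fin 5 => hartogs_extension (r := r) (R := R) (ρ := r / 2)
    (by positivity) (by rw [hR]; linarith) hRr hVo hVc hV0o hV0V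
    ⟨_, hV0m⟩ hQo (subset_union_left) (subset_union_right) (hG0i i)
  set Gv : ℂ × ℂ × E → E5 := fun x i => G i x with hGv
  have hGvd : DifferentiableOn ℂ Gv (ball (0 : ℂ) R ×ˢ V) := differentiableOn_pi.mpr hGd
  have hGv1 : ∀ a ∈ ball (0 : ℂ) R, ∀ y ∈ V0, Gv (a, y) = G0 (a, y) :=
    fun a ha y hy => funext fun i => hG1 i a ha y hy
  have hGv2 : ∀ a ∈ ball (0 : ℂ) R, r / 2 < ‖a‖ → ∀ y ∈ V, Gv (a, y) = G0 (a, y) :=
    fun a ha hra y hy => funext fun i => hG2 i a ha hra y hy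
  have hRQ : ∀ a ∈ ball (0 : ℂ) R, a ∈ ball (0 : ℂ) r := fun a ha => ball_subset_ball hRr.le ha
  have htau : ∀ x ∈ ball (0 : ℂ) R ×ˢ V, tau (Gv x) = t := by
    have h1 : DifferentiableOn ℂ (fun x => tau (Gv x)) (ball (0 : ℂ) R ×ˢ V) :=
      (contDiff_tau.differentiable (by simp)).comp_differentiableOn hGvd
    refine eqOn_of_convex (h := fun x => tau (Gv x)) (k := fun _ => t)
      ((convex_ball (0 : ℂ) R).prod hVc) (isOpen_ball.prod hVo) h1
      (differentiableOn_const t) (x0 := ((0 : ℂ), (((r / 2 : ℝ) : ℂ), (0 : E))))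
      ⟨mem_ball_self hR0, hV0V hV0m⟩ ?_
    have h2 : ball (0 : ℂ) R ×ˢ V0 ∈ 𝓝 ((0 : ℂ), (((r / 2 : ℝ) : ℂ), (0 : E))) :=
      (isOpen_ball.prod hV0o).mem_nhds ⟨mem_ball_self hR0, hV0m⟩
    filter_upwards [h2] with x hx
    have h3 : Gv x = G0 x := hGv1 x.1 hx.1 x.2 hx.2
    rw [h3]
    exact hG0t x (Or.inl ⟨hRQ _ hx.1, hx.2⟩)
  have hGvU : ∀ x ∈ ball (0 : ℂ) R ×ˢ V, Gv x ∈ USet := by
    intro x hx
    have h1 := htau x hx
    refine ⟨?_, by rw [h1]; exact hne⟩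
    by_contra hcon
    push Not at hcon
    rw [tau, hcon.1, hcon.2] at h1
    simp only [zero_mul, sub_zero] at h1
    exact ht h1.symm
  have hqG : ∀ x ∈ ball (0 : ℂ) R ×ˢ V, MDifferentiableAt 𝓘(ℂ, ℂ × ℂ × E) 𝓘(ℂ, E5)
      (fun x => qE (Gv x)) x := by
    intro x hx
    have h1 : MDifferentiableAt 𝓘(ℂ, ℂ × ℂ × E) 𝓘(ℂ, E5) Gv x :=
      ((hGvd x hx).differentiableAt ((isOpen_ball.prod hVo).mem_nhds hx)).mdifferentiableAt
    exact MDifferentiableAt.comp (g := qE) x (qE_mdifferentiableAt (hGvU x hx)) h1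
  have h0V : ∀ y ∈ ball (0 : E) δ, ((0 : ℂ), y) ∈ V := fun y hy => ⟨mem_ball_self hr0, hy⟩
  have hyb : ∀ q ∈ ball p δ, q - p ∈ ball (0 : E) δ := by
    intro q hq
    rwa [mem_ball_zero_iff, ← mem_ball_iff_norm]
  refine ⟨ball p δ, isOpen_ball, mem_ball_self hδ, ?_, fun q => qE (Gv (0, (0, q - p))), ?_, ?_, ?_⟩
  · intro q hq
    have := hmem2 (0, 0) (by simp [hr0.le]) (q - p) (hyb q hq)
    simpa using this
  · intro q hq
    have h1 := hqG (0, (0, q - p)) ⟨mem_ball_self hR0, h0V _ (hyb q hq)⟩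
    have h2 : MDifferentiableAt 𝓘(ℂ, E) 𝓘(ℂ, ℂ × ℂ × E)
        (fun q : E => ((0 : ℂ), ((0 : ℂ), q - p))) q := by
      apply DifferentiableAt.mdifferentiableAt
      fun_prop
    exact (MDifferentiableAt.comp (g := fun x => qE (Gv x)) q h1 h2).mdifferentiableWithinAt
  · rintro q ⟨hq, hqA⟩
    have hy := hyb q hq
    have hWa : ∀ a ∈ ball (0 : ℂ) R, q + a • v ∈ W := by
      intro a ha
      have h1 := hmem2 (a, 0) (by
        rw [mem_closedBall_zero_iff]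
        exact max_le (by exact (mem_ball_zero_iff.mp (hRQ a ha)).le) (by simp [hr0.le])) (q - p) hy
      have h2 : p + (a, (0 : ℂ)).1 • v + (a, (0 : ℂ)).2 • w + (q - p) = q + a • v := by
        simp only [zero_smul, add_zero]; abel
      rwa [h2] at h1
    have key := eq_of_slice (X := XX) (E := E5) (f := fun a => qE (Gv (a, (0, q - p))))
      (g := fun a => f (q + a • v)) (R := R) (Z := {a | q + a • v ∈ A})
      (fun a ha => hslice q v a (hWa a ha)) ?_ ?_ (c := ((5 * r / 8 : ℝ) : ℂ)) ?_ ?_ 0 ?_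
    · simpa using key
    · rintro a ⟨ha, _⟩
      have h1 := hqG (a, (0, q - p)) ⟨ha, h0V _ hy⟩
      have h2 : MDifferentiableAt 𝓘(ℂ, ℂ) 𝓘(ℂ, ℂ × ℂ × E)
          (fun a : ℂ => (a, ((0 : ℂ), q - p))) a := by
        apply DifferentiableAt.mdifferentiableAt
        fun_prop
      exact MDifferentiableAt.comp (g := fun x => qE (Gv x)) a h1 h2
    · rintro a ⟨ha, haA⟩
      have hm : q + a • v ∈ W \ A := ⟨hWa a ha, haA⟩
      have h1 : MDifferentiableAt 𝓘(ℂ, E) 𝓘(ℂ, E5) f (q + a • v) :=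
        (hf _ hm).mdifferentiableAt (hWA.mem_nhds hm)
      have h2 : MDifferentiableAt 𝓘(ℂ, ℂ) 𝓘(ℂ, E) (fun a : ℂ => q + a • v) a := by
        apply DifferentiableAt.mdifferentiableAt
        fun_prop
      exact MDifferentiableAt.comp (g := f) a h1 h2
    · rw [mem_ball_zero_iff, Complex.norm_real, Real.norm_eq_abs, abs_of_pos (by positivity)]
      rw [hR]; linarith
    · have h1 : IsOpen ({a : ℂ | r / 2 < ‖a‖ ∧ ‖a‖ < r} ∩ ball (0 : ℂ) R) := hann.inter isOpen_ball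
      have h58 : ‖((5 * r / 8 : ℝ) : ℂ)‖ = 5 * r / 8 := by
        rw [Complex.norm_real, Real.norm_eq_abs, abs_of_pos (by positivity)]
      have h2 : ((5 * r / 8 : ℝ) : ℂ) ∈ {a : ℂ | r / 2 < ‖a‖ ∧ ‖a‖ < r} ∩ ball (0 : ℂ) R := by
        refine ⟨⟨?_, ?_⟩, ?_⟩
        · rw [h58]; linarith
        · rw [h58]; linarith
        · rw [mem_ball_zero_iff, h58, hR]; linarith
      filter_upwards [h1.mem_nhds h2] with a ha
      have hV' := h0V _ hy
      have hQm : (a, ((0 : ℂ), q - p)) ∈ Q := Or.inr ⟨ha.1, hV'⟩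
      have hΨe : Ψ (a, ((0 : ℂ), q - p)) = q + a • v := by
        simp only [hΨ, zero_smul, add_zero]; abel
      have h3 := hΨQ hQm
      rw [hΨe] at h3
      refine ⟨h3.2, ?_⟩
      rw [hGv2 a ha.2 ha.1.1 _ hV', hG0q _ hQm, hΨe]
    · exact ⟨mem_ball_self hR0, by simpa using hqA⟩
  · intro q hq
    have hm : ((0 : ℂ), ((0 : ℂ), q - p)) ∈ ball (0 : ℂ) R ×ˢ V :=
      ⟨mem_ball_self hR0, h0V _ (hyb q hq)⟩
    rw [pim_qE (hGvU _ hm), htau _ hm]

end Pool.Agent.MEP
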