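import Pool.Agent.MEP.Defs
import Pool.Agent.MEP.LocalExt

/-!
# Holomorphic maps to the fibres over `t ≠ 0` extend across analytic subsets of codimension two
-/

set_option autoImplicit false

open Set Filter Topology Metric
open scoped Manifold ContDiff

namespace Pool.Agent.MEP

section Analytic

variable {E H M : Type} [NormedAddCommGroup E] [NormedSpace ℂ E] [TopologicalSpace H]
  {I : ModelWithCorners ℂ E H} [TopologicalSpace M] [ChartedSpace H M]

lemma IsAnalyticSubset.isOpen_diff {Ω A : Set M} (hA : IsAnalyticSubset I Ω A) :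
    IsOpen (Ω \ A) := by
  rw [isOpen_iff_mem_nhds]
  rintro q ⟨hq, hqA⟩
  obtain ⟨V, hVo, hqV, hVΩ, k, g, hg, hgA⟩ := hA.2 q hq
  have h1 : ∃ i, g i q ≠ 0 := by
    by_contra hcon
    push Not at hcon
    exact hqA ((hgA q hqV).mpr hcon)
  obtain ⟨i, hi⟩ := h1
  have h2 : ContinuousAt (g i) q := ((hg i q hqV).mdifferentiableAt (hVo.mem_nhds hqV)).continuousAt
  filter_upwards [hVo.mem_nhds hqV, h2.eventually (isOpen_ne.mem_nhds hi)] with y hy hy'
  exact ⟨hVΩ hy, fun hyA => hy' ((hgA y hy).mp hyA i)⟩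

/-- restriction of an analytic set to the image of a disc is locally discrete or everything -/
lemma IsAnalyticSubset.slice {Ω A : Set M} (hA : IsAnalyticSubset I Ω A) {γ : ℂ → M} {a : ℂ}
    (hγ : ∀ᶠ z in 𝓝 a, MDifferentiableAt 𝓘(ℂ, ℂ) I γ z) (ha : γ a ∈ Ω) :
    (∀ᶠ z in 𝓝[≠] a, γ z ∉ A) ∨ (∀ᶠ z in 𝓝[≠] a, γ z ∈ A) := by
  obtain ⟨V, hVo, hqV, hVΩ, k, g, hg, hgA⟩ := hA.2 _ ha
  have hγc : ContinuousAt γ a := hγ.self_of_nhds.continuousAt
  have hV : ∀ᶠ z in 𝓝 a, γ z ∈ V := hγc.eventually (hVo.mem_nhds hqV)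
  have han : ∀ i, AnalyticAt ℂ (fun z => g i (γ z)) a := by
    intro i
    rw [Complex.analyticAt_iff_eventually_differentiableAt]
    filter_upwards [hγ, hV] with z hz hzV
    rw [← mdifferentiableAt_iff_differentiableAt]
    exact MDifferentiableAt.comp (g := g i) z ((hg i _ hzV).mdifferentiableAt (hVo.mem_nhds hzV)) hz
  by_cases h : ∃ i, ∀ᶠ z in 𝓝[≠] a, g i (γ z) ≠ 0
  · obtain ⟨i, hi⟩ := h
    left
    filter_upwards [hi, hV.filter_mono nhdsWithin_le_nhds] with z hz hzV hzA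
    exact hz ((hgA _ hzV).mp hzA i)
  · right
    push Not at h
    have h1 : ∀ i, ∀ᶠ z in 𝓝[≠] a, g i (γ z) = 0 := by
      intro i
      rcases (han i).eventually_eq_zero_or_eventually_ne_zero with h2 | h2
      · exact h2.filter_mono nhdsWithin_le_nhds
      · exact absurd h2 (h i)
    have h2 : ∀ᶠ z in 𝓝[≠] a, ∀ i, g i (γ z) = 0 := eventually_all.mpr h1
    filter_upwards [h2, hV.filter_mono nhdsWithin_le_nhds] with z hz hzV
    exact (hgA _ hzV).mpr hz

end Analytic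

variable {n : ℕ} {S : Type} [TopologicalSpace S] [ChartedSpace (Fin n → ℂ) S]

/-- analytic sets of codimension two have dense complement -/
lemma mem_closure_diff {D A : Set S} (hD : IsOpen D) (hcodim : CodimGeTwo (n := n) A) {p : S}
    (hp : p ∈ D) : p ∈ closure (D \ A) := by
  by_cases hpA : p ∈ A
  · obtain ⟨v, w, _, hvw⟩ := hcodim p hpA
    set e := chartAt (Fin n → ℂ) p with he
    have h1 : Tendsto (fun z : ℂ × ℂ => e.symm (e p + z.1 • v + z.2 • w)) (𝓝 0) (𝓝 p) := by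
      have h2 : Tendsto (fun z : ℂ × ℂ => e p + z.1 • v + z.2 • w) (𝓝 0) (𝓝 (e p)) := by
        have hc : Continuous fun z : ℂ × ℂ => e p + z.1 • v + z.2 • w := by fun_prop
        have := hc.tendsto (0 : ℂ × ℂ)
        simpa using this
      have h3 : Tendsto e.symm (𝓝 (e p)) (𝓝 p) := by
        have h4 := e.continuousAt_symm (mem_chart_target (Fin n → ℂ) p)
        have h5 : e.symm (e p) = p := e.left_inv (mem_chart_source (Fin n → ℂ) p)
        rw [ContinuousAt] at h4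
        rwa [← he, h5] at h4
      exact h3.comp h2
    rw [mem_closure_iff_nhds]
    intro U hU
    have h6 : ∀ᶠ z : ℂ × ℂ in 𝓝[≠] 0, e.symm (e p + z.1 • v + z.2 • w) ∈ U ∩ D :=
      (h1.eventually (inter_mem hU (hD.mem_nhds hp))).filter_mono nhdsWithin_le_nhds
    obtain ⟨z, hz1, hz2⟩ := (hvw.and h6).exists
    exact ⟨_, hz2.1, hz2.2, hz1⟩
  · exact subset_closure ⟨hp, hpA⟩

variable [IsManifold 𝓘(ℂ, Fin n → ℂ) ω S]

/-- removability of analytic subsets of codimension two for holomorphic maps to the fibre over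
`t ≠ 0` -/
theorem removable {D A : Set S} (hD : IsOpen D) (hA : IsAnalyticSubset 𝓘(ℂ, Fin n → ℂ) D A)
    (hcodim : CodimGeTwo (n := n) A) {f : S → XX}
    (hf : MDifferentiableOn 𝓘(ℂ, Fin n → ℂ) 𝓘(ℂ, E5) f (D \ A)) {t : ℂ} (ht : t ≠ 0)
    (ht1 : ‖t‖ < 1) (hft : ∀ q ∈ D \ A, pim (f q) = t) :
    ∃ f' : S → XX, MDifferentiableOn 𝓘(ℂ, Fin n → ℂ) 𝓘(ℂ, E5) f' D ∧
      (∀ q ∈ D \ A, f' q = f q) ∧ ∀ q ∈ D, pim (f' q) = t := by
  have hDA : IsOpen (D \ A) := hA.isOpen_diff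
  have hloc : ∀ p : D, ∃ N : Set S, IsOpen N ∧ (p : S) ∈ N ∧ N ⊆ D ∧ ∃ F : S → XX,
      MDifferentiableOn 𝓘(ℂ, Fin n → ℂ) 𝓘(ℂ, E5) F N ∧ (∀ q ∈ N \ A, F q = f q) ∧
      ∀ q ∈ N, pim (F q) = t := by
    rintro ⟨p, hp⟩
    by_cases hpA : p ∈ A
    · obtain ⟨v, w, _, hvw⟩ := hcodim p hpA
      set e := chartAt (Fin n → ℂ) p with he
      set W : Set (Fin n → ℂ) := e.target ∩ e.symm ⁻¹' D with hW
      set A' : Set (Fin n → ℂ) := e.symm ⁻¹' A with hA'
      have hWo : IsOpen W := e.isOpen_inter_preimage_symm hD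
      have hWA : W \ A' = e.target ∩ e.symm ⁻¹' (D \ A) := by
        ext x; simp only [hW, hA', Set.mem_sdiff, mem_inter_iff, mem_preimage]; tauto
      have hWAo : IsOpen (W \ A') := by rw [hWA]; exact e.isOpen_inter_preimage_symm hDA
      have hes : ∀ x ∈ e.target, MDifferentiableAt 𝓘(ℂ, Fin n → ℂ) 𝓘(ℂ, Fin n → ℂ) e.symm x :=
        fun x hx => mdifferentiableAt_atlas_symm (chart_mem_atlas _ p) hx
      have hps : p ∈ e.source := mem_chart_source (Fin n → ℂ) p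
      have hpt : e p ∈ e.target := mem_chart_target (Fin n → ℂ) p
      have hpe : e.symm (e p) = p := e.left_inv hps
      have hsl : ∀ q v : Fin n → ℂ, ∀ a : ℂ, q + a • v ∈ W →
          (∀ᶠ z : ℂ in 𝓝[≠] a, q + z • v ∉ A') ∨ (∀ᶠ z : ℂ in 𝓝[≠] a, q + z • v ∈ A') := by
        intro q v a hqa
        have h0 : ∀ᶠ z : ℂ in 𝓝 a, MDifferentiableAt 𝓘(ℂ, ℂ) 𝓘(ℂ, Fin n → ℂ)
            (fun z : ℂ => e.symm (q + z • v)) z := by
          have h1 : ∀ᶠ z : ℂ in 𝓝 a, q + z • v ∈ e.target := by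
            have hc : Continuous fun z : ℂ => q + z • v := by fun_prop
            exact hc.continuousAt.eventually (e.open_target.mem_nhds hqa.1)
          filter_upwards [h1] with z hz
          have h2 : MDifferentiableAt 𝓘(ℂ, ℂ) 𝓘(ℂ, Fin n → ℂ) (fun z : ℂ => q + z • v) z := by
            apply DifferentiableAt.mdifferentiableAt
            fun_prop
          exact MDifferentiableAt.comp (g := e.symm) z (hes _ hz) h2
        exact hA.slice h0 hqa.2
      have hfW : MDifferentiableOn 𝓘(ℂ, Fin n → ℂ) 𝓘(ℂ, E5) (fun x => f (e.symm x)) (W \ A') := by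
        rw [hWA]
        rintro x ⟨hx, hxD⟩
        have h1 : MDifferentiableAt 𝓘(ℂ, Fin n → ℂ) 𝓘(ℂ, E5) f (e.symm x) :=
          (hf _ hxD).mdifferentiableAt (hDA.mem_nhds hxD)
        exact (MDifferentiableAt.comp (g := f) x h1 (hes x hx)).mdifferentiableWithinAt
      have hftW : ∀ x ∈ W \ A', pim (f (e.symm x)) = t := by
        rw [hWA]
        rintro x ⟨hx, hxD⟩
        exact hft _ hxD
      obtain ⟨W', hW'o, hpW', hW'W, F, hF, hFf, hFt⟩ := local_extension (E := Fin n → ℂ) hWo hWAo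
        (p := e p) ⟨hpt, by rw [mem_preimage, hpe]; exact hp⟩ (v := v) (w := w) hvw hsl hfW ht
        hftW ht1
      refine ⟨e.source ∩ e ⁻¹' W', e.isOpen_inter_preimage hW'o, ⟨hps, hpW'⟩, ?_,
        fun q => F (e q), ?_, ?_, ?_⟩
      · rintro q ⟨hq, hqW'⟩
        have := (hW'W hqW').2
        rwa [mem_preimage, e.left_inv hq] at this
      · rintro q ⟨hq, hqW'⟩
        have h1 : MDifferentiableAt 𝓘(ℂ, Fin n → ℂ) 𝓘(ℂ, E5) F (e q) :=
          (hF _ hqW').mdifferentiableAt (hW'o.mem_nhds hqW')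
        exact (MDifferentiableAt.comp (g := F) q h1
          (mdifferentiableAt_atlas (chart_mem_atlas _ p) hq)).mdifferentiableWithinAt
      · rintro q ⟨⟨hq, hqW'⟩, hqA⟩
        have h1 := hFf (e q) ⟨hqW', by rw [hA', mem_preimage, e.left_inv hq]; exact hqA⟩
        show F (e q) = f q
        rw [h1, e.left_inv hq]
      · rintro q ⟨hq, hqW'⟩
        exact hFt _ hqW'
    · exact ⟨D \ A, hDA, ⟨hp, hpA⟩, sdiff_subset, f, hf, fun _ _ => rfl, hft⟩
  choose N hNo hpN hND F hF hFf hFt using hloc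
  have hagree : ∀ (p p' : D) (q : S), q ∈ N p → q ∈ N p' → F p q = F p' q := by
    intro p p' q hq hq'
    have h1 : ContinuousAt (F p) q := ((hF p q hq).mdifferentiableAt ((hNo p).mem_nhds hq)).continuousAt
    have h2 : ContinuousAt (F p') q :=
      ((hF p' q hq').mdifferentiableAt ((hNo p').mem_nhds hq')).continuousAt
    by_contra hne
    have h3 : ∀ᶠ x in 𝓝 q, F p x ≠ F p' x :=
      (h1.prodMk h2).eventually ((isClosed_diagonal (X := XX)).isOpen_compl.mem_nhds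
        (show (F p q, F p' q) ∈ (diagonal XX)ᶜ from hne))
    have h4 := mem_closure_diff hD hcodim (hND p hq)
    rw [mem_closure_iff_nhds] at h4
    obtain ⟨x, ⟨⟨hx1, hx2⟩, hx3⟩, hxD, hxA⟩ := h4 _ (inter_mem (inter_mem h3 ((hNo p).mem_nhds hq))
      ((hNo p').mem_nhds hq'))
    exact hx1 (by rw [hFf p x ⟨hx2, hxA⟩, hFf p' x ⟨hx3, hxA⟩])
  classical
  refine ⟨fun q => if h : q ∈ D then F ⟨q, h⟩ q else f q, ?_, ?_, ?_⟩
  · intro p hp
    have h1 : MDifferentiableAt 𝓘(ℂ, Fin n → ℂ) 𝓘(ℂ, E5) (F ⟨p, hp⟩) p :=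
      (hF ⟨p, hp⟩ p (hpN _)).mdifferentiableAt ((hNo _).mem_nhds (hpN _))
    refine (h1.congr_of_eventuallyEq ?_).mdifferentiableWithinAt
    filter_upwards [(hNo ⟨p, hp⟩).mem_nhds (hpN _)] with q hq
    have hqD := hND _ hq
    simp only [hqD, dite_true]
    exact hagree _ _ q (hpN _) hq
  · rintro q ⟨hq, hqA⟩
    simp only [hq, dite_true]
    exact hFf _ q ⟨hpN _, hqA⟩
  · intro q hq
    simp only [hq, dite_true]
    exact hFt _ q (hpN _)

end Pool.Agent.MEP
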