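import Pool.Agent.MEP.Deform
import Pool.Agent.MEP.SCV

/-!
# Lifting holomorphic maps through the covering
-/

set_option autoImplicit false

open Set Filter Topology
open scoped Manifold ContDiff

namespace Pool.Agent.MEP

lemma basepoint_mem : (![1, 0, 0, 0, 0] : E5) ∈ USet :=
  ⟨Or.inl (by simp), by simp [tau]⟩

open Classical in
/-- view a point of `USet` as a point of `UOpen` (junk value outside) -/
noncomputable def toU (p : E5) : UOpen :=
  if h : p ∈ USet then ⟨p, h⟩ else ⟨_, basepoint_mem⟩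

lemma toU_of_mem {p : E5} (h : p ∈ USet) : toU p = ⟨p, h⟩ := dif_pos h

lemma coe_toU {p : E5} (h : p ∈ USet) : (toU p : E5) = p := by rw [toU_of_mem h]

@[simp] lemma toU_coe (p : UOpen) : toU (p : E5) = p := toU_of_mem p.2

/-- the quotient map on `ℂ⁵` (junk value outside `USet`) -/
noncomputable def qE (p : E5) : XX := qm (toU p)

@[simp] lemma qE_coe (p : UOpen) : qE (p : E5) = qm p := by rw [qE, toU_coe]

lemma qE_of_mem {p : E5} (h : p ∈ USet) : qE p = qm ⟨p, h⟩ := by rw [qE, toU_of_mem h]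

lemma pim_qE {p : E5} (h : p ∈ USet) : pim (qE p) = tau p := by rw [qE_of_mem h, pim_qm]

lemma qE_contMDiffAt {p : E5} (hp : p ∈ USet) : ContMDiffAt 𝓘(ℂ, E5) 𝓘(ℂ, E5) ω qE p := by
  have h := (contMDiffAt_subtype_iff (I := 𝓘(ℂ, E5)) (I' := 𝓘(ℂ, E5)) (n := ω) (U := UOpen)
    (f := qE) (x := ⟨p, hp⟩)).mp ?_
  · exact h
  · have : (fun x : UOpen => qE (x : E5)) = qm := funext qE_coe
    rw [this]
    exact qm_contMDiff _

lemma qE_contMDiffOn : ContMDiffOn 𝓘(ℂ, E5) 𝓘(ℂ, E5) ω qE USet :=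
  fun _ hp => (qE_contMDiffAt hp).contMDiffWithinAt

lemma qE_mdifferentiableAt {p : E5} (hp : p ∈ USet) : MDifferentiableAt 𝓘(ℂ, E5) 𝓘(ℂ, E5) qE p :=
  (qE_contMDiffAt hp).mdifferentiableAt (by simp)

lemma self_mem_sg_target (u : UOpen) : u ∈ (sg u).target :=
  qm_isLocalHomeomorph.self_mem_localInverseAt_target

lemma sg_qm_of_mem {u p : UOpen} (hp : p ∈ (sg u).target) : sg u (qm p) = p := by
  have := (sg u).right_inv hp
  rwa [sg_symm] at this

section

variable {E H M : Type*} [NormedAddCommGroup E] [NormedSpace ℂ E] [TopologicalSpace H]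
  {I : ModelWithCorners ℂ E H} [TopologicalSpace M] [ChartedSpace H M]

/-- near a point a continuous lift is obtained by composing with a local section -/
lemma lift_eventually {D : Set M} (hD : IsOpen D) {f : M → XX} {G : M → E5}
    (hG : ContinuousOn G D) (hGU : MapsTo G D USet) (hq : ∀ x ∈ D, qE (G x) = f x) {x : M}
    (hx : x ∈ D) : ∀ᶠ y in 𝓝 x, y ∈ D ∧ f y ∈ (sg (toU (G x))).source ∧
      G y = (sg (toU (G x)) (f y) : E5) := by
  set u := toU (G x) with hu
  have hux : (u : E5) = G x := coe_toU (hGU hx)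
  have h1 : ∀ᶠ z in 𝓝 (u : E5), ∃ hz : z ∈ USet, (⟨z, hz⟩ : UOpen) ∈ (sg u).target :=
    eventually_UOpen ((sg u).open_target.mem_nhds (self_mem_sg_target u))
  rw [hux] at h1
  have h2 : ContinuousAt G x := hG.continuousAt (hD.mem_nhds hx)
  filter_upwards [h2.eventually h1, hD.mem_nhds hx] with y hy hyD
  obtain ⟨hz, hy⟩ := hy
  have h3 : qm ⟨G y, hz⟩ = f y := by rw [← hq y hyD, qE_of_mem hz]
  refine ⟨hyD, ?_, ?_⟩
  · rw [← h3, ← sg_symm u]; exact (sg u).map_target hy
  · rw [← h3, sg_qm_of_mem hy]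

lemma lift_mdifferentiableOn {D : Set M} (hD : IsOpen D) {f : M → XX}
    (hf : MDifferentiableOn I 𝓘(ℂ, E5) f D) {G : M → E5} (hG : ContinuousOn G D)
    (hGU : MapsTo G D USet) (hq : ∀ x ∈ D, qE (G x) = f x) : MDifferentiableOn I 𝓘(ℂ, E5) G D := by
  intro x hx
  have h1 := lift_eventually hD hG hGU hq hx
  set u := toU (G x) with hu
  have hs : f x ∈ (sg u).source := h1.self_of_nhds.2.1
  have h2 : MDifferentiableAt 𝓘(ℂ, E5) 𝓘(ℂ, E5) (fun y => (sg u y : E5)) (f x) :=
    ((sg_contMDiffOn u).contMDiffAt ((sg u).open_source.mem_nhds hs)).mdifferentiableAt (by simp)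
  have h3 : MDifferentiableAt I 𝓘(ℂ, E5) f x := (hf x hx).mdifferentiableAt (hD.mem_nhds hx)
  have h4 : MDifferentiableAt I 𝓘(ℂ, E5) (fun y => (sg u (f y) : E5)) x :=
    MDifferentiableAt.comp (g := fun y => (sg u y : E5)) x h2 h3
  refine (h4.congr_of_eventuallyEq ?_).mdifferentiableWithinAt
  filter_upwards [h1] with y hy using hy.2.2

end

section

variable {M : Type*} [TopologicalSpace M]

/-- existence of lifts over simply connected open sets -/
lemma exists_lift {D : Set M} (hsc : SimplyConnectedSpace D) (hlp : LocallyPathConnectedSpace D)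
    {f : M → XX} (hf : ContinuousOn f D) :
    ∃ G : M → E5, ContinuousOn G D ∧ MapsTo G D USet ∧ ∀ x ∈ D, qE (G x) = f x := by
  classical
  obtain ⟨a₀⟩ : Nonempty D := inferInstance
  obtain ⟨e₀, he₀⟩ := qm_surjective (f a₀)
  obtain ⟨F, ⟨_, hF⟩, _⟩ := qm_isCoveringMap.existsUnique_continuousMap_lifts
    (⟨D.domRestrict f, hf.domRestrict⟩ : C(D, XX)) a₀ e₀ he₀
  refine ⟨fun x => if h : x ∈ D then (F ⟨x, h⟩ : E5) else 0, ?_, ?_, ?_⟩
  · rw [continuousOn_iff_continuous_domRestrict]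
    have : (D.domRestrict fun x => if h : x ∈ D then (F ⟨x, h⟩ : E5) else 0) =
        fun x : D => (F x : E5) := by
      funext x
      simp [Set.domRestrict]
    rw [this]
    exact continuous_subtype_val.comp F.continuous
  · intro x hx
    simp only [hx, dite_true]
    exact (F ⟨x, hx⟩).2
  · intro x hx
    simp only [hx, dite_true, qE_coe]
    exact congrFun hF ⟨x, hx⟩

end

end Pool.Agent.MEP
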