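import Pool.Agent.MEP.Mero

/-!
# The central fibre does not have the extension property
-/

set_option autoImplicit false

open Set Filter Topology Metric
open scoped Manifold ContDiff

namespace Pool.Agent.MEP

lemma pim_hasRankOneAt (x : XX) : HasRankOneAt (m := 5) pim x := by
  refine ⟨mfderiv 𝓘(ℂ, E5) 𝓘(ℂ, ℂ) pim x, ?_, (pim_mdifferentiable x).hasMFDerivAt⟩
  intro h
  obtain ⟨w, hw⟩ := mfderiv_pim_surjective x (show TangentSpace 𝓘(ℂ, ℂ) (pim x) from (1 : ℂ))
  rw [h] at hw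
  exact zero_ne_one (α := ℂ) hw

section Stein

/-- `ℂⁿ` is a Stein manifold -/
lemma isStein_pi (n : ℕ) : IsStein n (Fin n → ℂ) := by
  have hcoord : ∀ i : Fin n, MDifferentiable 𝓘(ℂ, Fin n → ℂ) 𝓘(ℂ, ℂ) (fun z : Fin n → ℂ => z i) :=
    fun i x => (differentiableAt_apply i x).mdifferentiableAt
  refine ⟨?_, ?_, ?_⟩
  · intro K hK
    apply Metric.isCompact_of_isClosed_isBounded
    · have : {p : Fin n → ℂ | ∀ g : (Fin n → ℂ) → ℂ, MDifferentiable 𝓘(ℂ, Fin n → ℂ) 𝓘(ℂ, ℂ) g →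
          ∀ c : ℝ, (∀ q ∈ K, ‖g q‖ ≤ c) → ‖g p‖ ≤ c} =
          ⋂ (g : (Fin n → ℂ) → ℂ) (_ : MDifferentiable 𝓘(ℂ, Fin n → ℂ) 𝓘(ℂ, ℂ) g) (c : ℝ)
            (_ : ∀ q ∈ K, ‖g q‖ ≤ c), {p | ‖g p‖ ≤ c} := by
        ext p; simp
      rw [holomorphicHull, this]
      refine isClosed_iInter fun g => isClosed_iInter fun hg => isClosed_iInter fun c =>
        isClosed_iInter fun _ => ?_
      exact isClosed_le hg.continuous.norm continuous_const
    · obtain ⟨C, hC⟩ := hK.isBounded.exists_norm_le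
      rw [isBounded_iff_forall_norm_le]
      refine ⟨max C 0, fun p hp => ?_⟩
      rw [pi_norm_le_iff_of_nonneg (le_max_right _ _)]
      intro i
      exact hp _ (hcoord i) _ fun q hq => (norm_le_pi_norm q i).trans ((hC q hq).trans (le_max_left _ _))
  · intro p q hpq
    obtain ⟨i, hi⟩ := Function.ne_iff.mp hpq
    exact ⟨_, hcoord i, hi⟩
  · intro p
    refine ⟨id, mdifferentiable_id, ?_⟩
    have h1 : (id : (Fin n → ℂ) → (Fin n → ℂ)) ∘ (chartAt (Fin n → ℂ) p).symm = id := by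
      funext x
      simp [mfld_simps]
    rw [IsCoordinateAt, h1, fderiv_id]
    exact ⟨ContinuousLinearEquiv.refl ℂ _, rfl⟩

end Stein

section Domain

/-- the domain in `ℂ²` whose envelope of holomorphy is `ℂ²` -/
def DD : Set (Fin 2 → ℂ) := {z | z 0 ≠ 0 ∨ ‖z 1 - 2‖ < 1}

lemma isOpen_DD : IsOpen DD := by
  have h1 : IsOpen {z : Fin 2 → ℂ | z 0 ≠ 0} := isOpen_ne_fun (by fun_prop) (by fun_prop)
  have h2 : IsOpen {z : Fin 2 → ℂ | ‖z 1 - 2‖ < 1} := isOpen_lt (by fun_prop) continuous_const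
  exact h1.union h2

/-- the same domain in `ℂ × ℂ` -/
def DD' : Set (ℂ × ℂ) := univ ×ˢ ball (2 : ℂ) 1 ∪ {a : ℂ | a ≠ 0} ×ˢ univ

lemma mem_DD'_iff (x : ℂ × ℂ) : x ∈ DD' ↔ x.1 ≠ 0 ∨ ‖x.2 - 2‖ < 1 := by
  simp only [DD', mem_union, mem_prod, mem_univ, true_and, mem_ball_iff_norm, mem_ofPred_eq, and_true]
  tauto

instance : ContractibleSpace DD' :=
  contractible_figure (starConvex_univ _) (subset_univ _) convex_univ (convex_ball _ _)
    (subset_univ _) (mem_univ _) ⟨2, mem_ball_self one_pos⟩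

lemma isOpen_DD' : IsOpen DD' :=
  (isOpen_univ.prod isOpen_ball).union (isOpen_ne.prod isOpen_univ)

/-- the two domains are homeomorphic -/
noncomputable def homeoDD : DD ≃ₜ DD' :=
  (Homeomorph.finTwoArrow (X := ℂ)).subtype (fun z => by
    rw [mem_DD'_iff]
    rfl)

instance : ContractibleSpace DD := homeoDD.contractibleSpace

lemma isConnected_DD : IsConnected DD := by
  rw [isConnected_iff_connectedSpace]
  infer_instance

lemma extension_DD (g : (Fin 2 → ℂ) → ℂ)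
    (hg : MDifferentiableOn 𝓘(ℂ, Fin 2 → ℂ) 𝓘(ℂ, ℂ) g DD) :
    ∃ G : (Fin 2 → ℂ) → ℂ, MDifferentiable 𝓘(ℂ, Fin 2 → ℂ) 𝓘(ℂ, ℂ) G ∧ EqOn G g DD := by
  classical
  rw [mdifferentiableOn_iff_differentiableOn] at hg
  have hg' : DifferentiableOn ℂ (fun x : ℂ × ℂ => g ![x.1, x.2]) DD' := by
    intro x hx
    have hx' : ![x.1, x.2] ∈ DD := (mem_DD'_iff x).mp hx
    have h1 : DifferentiableAt ℂ g ![x.1, x.2] := (hg _ hx').differentiableAt (isOpen_DD.mem_nhds hx')
    have h2 : DifferentiableAt ℂ (fun x : ℂ × ℂ => ![x.1, x.2]) x := by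
      rw [differentiableAt_pi]
      intro i
      fin_cases i
      · exact differentiableAt_fst
      · exact differentiableAt_snd
    exact (DifferentiableAt.comp (f := fun x : ℂ × ℂ => ![x.1, x.2]) x h1 h2).differentiableWithinAt
  obtain ⟨G, hG, hG1, hG2⟩ := hartogs_extension (r := 2) (R := 1) (ρ := 0) le_rfl one_pos
    one_lt_two (V := univ) (V0 := ball (2 : ℂ) 1) isOpen_univ convex_univ isOpen_ball
    (subset_univ _) ⟨2, mem_ball_self one_pos⟩ isOpen_DD' (by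
      rintro ⟨a, b⟩ ⟨_, hb⟩
      exact Or.inl ⟨mem_univ _, hb⟩) (by
      rintro ⟨a, b⟩ ⟨ha, _⟩
      exact Or.inr ⟨norm_pos_iff.mp ha.1, mem_univ _⟩) hg'
  set Gt : (Fin 2 → ℂ) → ℂ := fun z => if ‖z 0‖ < 1 then G (z 0, z 1) else g z with hGt
  have hvec : ∀ z : Fin 2 → ℂ, ![z 0, z 1] = z := fun z => by
    funext i
    fin_cases i <;> rfl
  have heq : ∀ z : Fin 2 → ℂ, z 0 ≠ 0 → Gt z = g z := by
    intro z hz
    simp only [hGt]
    split_ifs with h
    · have := hG2 (z 0) (mem_ball_zero_iff.mpr h) (norm_pos_iff.mpr hz) (z 1) (mem_univ _)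
      rw [this]
      simp only [hvec]
    · rfl
  refine ⟨Gt, ?_, ?_⟩
  · intro z
    rw [mdifferentiableAt_iff_differentiableAt]
    by_cases hz : ‖z 0‖ < 1
    · have h1 : (z 0, z 1) ∈ ball (0 : ℂ) 1 ×ˢ (univ : Set ℂ) := ⟨mem_ball_zero_iff.mpr hz, mem_univ _⟩
      have h2 : DifferentiableAt ℂ G (z 0, z 1) :=
        (hG _ h1).differentiableAt ((isOpen_ball.prod isOpen_univ).mem_nhds h1)
      have h3 : DifferentiableAt ℂ (fun z : Fin 2 → ℂ => (z 0, z 1)) z :=
        (differentiableAt_apply 0 z).prodMk (differentiableAt_apply 1 z)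
      have h4 := DifferentiableAt.comp (f := fun z : Fin 2 → ℂ => (z 0, z 1)) z h2 h3
      refine h4.congr_of_eventuallyEq ?_
      have h5 : IsOpen {z : Fin 2 → ℂ | ‖z 0‖ < 1} := isOpen_lt (by fun_prop) continuous_const
      filter_upwards [h5.mem_nhds hz] with y hy
      simp only [hGt]
      rw [if_pos hy]
      rfl
    · have hz0 : z 0 ≠ 0 := by
        rintro h0
        rw [h0, norm_zero] at hz
        exact hz one_pos
      have hzD : z ∈ DD := Or.inl hz0
      have h1 : DifferentiableAt ℂ g z := (hg z hzD).differentiableAt (isOpen_DD.mem_nhds hzD)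
      refine h1.congr_of_eventuallyEq ?_
      have h5 : IsOpen {z : Fin 2 → ℂ | z 0 ≠ 0} := isOpen_ne_fun (by fun_prop) (by fun_prop)
      filter_upwards [h5.mem_nhds hz0] with y hy using heq y hy
  · intro z hz
    by_cases hz0 : z 0 = 0
    · have hz1 : ‖z 1 - 2‖ < 1 := hz.resolve_left (by simpa using hz0)
      simp only [hGt]
      rw [if_pos (by rw [hz0, norm_zero]; exact one_pos),
        hG1 (z 0) (by rw [hz0]; exact mem_ball_self one_pos) (z 1) (mem_ball_iff_norm.mpr hz1)]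
      simp only [hvec]
    · exact heq z hz0

lemma isEnvelope_DD : IsEnvelopeOfHolomorphy 2 DD :=
  ⟨isStein_pi 2, isOpen_DD, isConnected_DD, extension_DD⟩

end Domain

section Map

/-- the lift of the tautological map -/
def lift0 (z : Fin 2 → ℂ) : E5 := ![z 0, z 1, 0, 0, 0]

lemma tau_lift0 (z : Fin 2 → ℂ) : tau (lift0 z) = 0 := by
  simp [tau, lift0]

lemma lift0_mem {z : Fin 2 → ℂ} (hz : z ≠ 0) : lift0 z ∈ USet := by
  refine ⟨?_, by rw [tau_lift0]; simp⟩
  by_contra hcon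
  push Not at hcon
  apply hz
  funext i
  fin_cases i
  · exact hcon.1
  · exact hcon.2

lemma differentiable_lift0 : Differentiable ℂ lift0 := by
  intro z
  rw [differentiableAt_pi]
  intro i
  fin_cases i
  · exact differentiableAt_apply 0 z
  · exact differentiableAt_apply 1 z
  · exact differentiableAt_const 0
  · exact differentiableAt_const 0
  · exact differentiableAt_const 0

/-- the tautological map -/
noncomputable def ff (z : Fin 2 → ℂ) : XX := qE (lift0 z)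

lemma ff_mdifferentiableAt {z : Fin 2 → ℂ} (hz : z ≠ 0) :
    MDifferentiableAt 𝓘(ℂ, Fin 2 → ℂ) 𝓘(ℂ, E5) ff z :=
  MDifferentiableAt.comp (g := qE) z (qE_mdifferentiableAt (lift0_mem hz))
    (differentiable_lift0 z).mdifferentiableAt

lemma pim_ff {z : Fin 2 → ℂ} (hz : z ≠ 0) : pim (ff z) = 0 := by
  rw [ff, pim_qE (lift0_mem hz), tau_lift0]

lemma ne_zero_of_mem_DD {z : Fin 2 → ℂ} (hz : z ∈ DD) : z ≠ 0 := by
  rintro rfl
  rcases hz with h | h
  · exact h rfl
  · norm_num at h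

/-- if two points of a line have the same image then they differ by a power of `φ` -/
lemma ff_eq_ff {d : Fin 2 → ℂ} (hd : d ≠ 0) {c : ℂ} (hc : c ≠ 0) (h : ff (c • d) = ff d) :
    ∃ k : ℤ, c = gc ^ k := by
  have hcd : c • d ≠ 0 := smul_ne_zero hc hd
  rw [ff, ff, qE_of_mem (lift0_mem hcd), qE_of_mem (lift0_mem hd), qm_eq_iff] at h
  obtain ⟨g, hg⟩ := h
  obtain ⟨k, l, _, hkl⟩ := exists_smul_eq g
  have h1 : act k l (lift0 d) = lift0 (c • d) := by
    have := hkl ⟨lift0 d, lift0_mem hd⟩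
    rw [hg] at this
    exact this.symm
  have h2 := congrFun h1 0
  have h3 := congrFun h1 1
  simp only [act_zero', act_one'] at h2 h3
  have h4 : gc ^ (-k) * d 0 = c * d 0 := h2
  have h5 : gc ^ (-k) * d 1 = c * d 1 := h3
  refine ⟨-k, ?_⟩
  by_cases hd0 : d 0 = 0
  · have hd1 : d 1 ≠ 0 := by
      intro hd1
      apply hd
      funext i
      fin_cases i
      · exact hd0
      · exact hd1
    exact (mul_right_cancel₀ hd1 h5).symm
  · exact (mul_right_cancel₀ hd0 h4).symm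

lemma ff_zpow_smul {d : Fin 2 → ℂ} (hd : d ≠ 0) (k : ℤ) : ff (gc ^ (-k) • d) = ff d := by
  have hcd : gc ^ (-k) • d ≠ 0 := smul_ne_zero (zpow_ne_zero _ gc_ne) hd
  rw [ff, ff, qE_of_mem (lift0_mem hcd), qE_of_mem (lift0_mem hd), qm_eq_iff]
  refine ⟨⟨actPerm k 0, actPerm_mem k (zero_mem _)⟩, ?_⟩
  apply Subtype.ext
  show act k 0 (lift0 d) = lift0 (gc ^ (-k) • d)
  apply ext5
  · simp [lift0]
  · simp [lift0]
  · simp [lift0]
  · simp [lift0]
  · simp [lift0]

end Map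

/-- the central fibre does not have the meromorphic extension property -/
theorem not_hasExtensionPropertySC_zero : ¬ HasExtensionPropertySC (m := 5) (pim ⁻¹' {(0 : ℂ)}) := by
  intro hH
  have hmero : IsMeromorphicMap (n := 2) (m := 5) DD (pim ⁻¹' {(0 : ℂ)}) ∅ ff := by
    refine isMeromorphicMap_of_mdifferentiableOn isOpen_DD ?_ ?_
    · intro z hz
      exact (ff_mdifferentiableAt (ne_zero_of_mem_DD hz)).mdifferentiableWithinAt
    · intro z hz
      exact pim_ff (ne_zero_of_mem_DD hz)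
  obtain ⟨B, F, hF, hFf⟩ := hH 2 (Fin 2 → ℂ) DD isEnvelope_DD inferInstance ∅ ff hmero
  rw [empty_union] at hFf
  have hBo : IsOpen (univ \ B) := hF.indeterminacy_analytic.isOpen_diff
  have hBd : Dense (univ \ B) := fun p =>
    mem_closure_diff isOpen_univ hF.indeterminacy_codim (mem_univ p)
  have hlo : IsOpen {z : Fin 2 → ℂ | z 0 ≠ 0} := isOpen_ne_fun (by fun_prop) (by fun_prop)
  have hld : Dense {z : Fin 2 → ℂ | z 0 ≠ 0} := by
    have h1 : (Function.eval (0 : Fin 2) : (Fin 2 → ℂ) → ℂ) ⁻¹' {(0 : ℂ)}ᶜ = {z : Fin 2 → ℂ | z 0 ≠ 0} := rfl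
    rw [← h1]
    exact (dense_compl_singleton (0 : ℂ)).preimage (isOpenMap_eval 0)
  have hdense : Dense ((univ \ B) ∩ {z : Fin 2 → ℂ | z 0 ≠ 0}) := hBd.inter_of_isOpen_right hld hlo
  have heq : ∀ z ∈ (univ \ B) ∩ {z : Fin 2 → ℂ | z 0 ≠ 0}, F z = ff z :=
    fun z hz => hFf ⟨Or.inl hz.2, hz.1.2⟩
  have hFc : ∀ z, z ∉ B → ContinuousAt F z := fun z hz =>
    ((hF.holomorphic z ⟨mem_univ _, hz⟩).mdifferentiableAt
      (hBo.mem_nhds ⟨mem_univ _, hz⟩)).continuousAt
  have hfc : ∀ z, z ≠ 0 → ContinuousAt ff z := fun z hz => (ff_mdifferentiableAt hz).continuousAt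
  -- `F = ff` away from `B` and `0`
  have hFf2 : ∀ z, z ≠ 0 → z ∉ B → F z = ff z := by
    intro z hz hzB
    by_contra hne
    have h4 : ∀ᶠ w in 𝓝 z, F w ≠ ff w :=
      ((hFc z hzB).prodMk (hfc z hz)).eventually ((isClosed_diagonal (X := XX)).isOpen_compl.mem_nhds
        (show (F z, ff z) ∈ (diagonal XX)ᶜ from hne))
    obtain ⟨w, hw1, hw2⟩ := mem_closure_iff_nhds.mp (hdense z) _ h4
    exact hw1 (heq w hw2)
  -- the graph of `ff` is contained in the closure of the graph of `F`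
  have hgraph : ∀ z, z ≠ 0 → (z, ff z) ∈ graphClosure univ B F := by
    intro z hz
    refine ⟨?_, mem_univ _, mem_univ _⟩
    rw [mem_closure_iff_nhds]
    intro U hU
    have h1 : Tendsto (fun w => (w, ff w)) (𝓝 z) (𝓝 (z, ff z)) :=
      continuousAt_id.prodMk (hfc z hz)
    obtain ⟨w, hw1, hw2⟩ := mem_closure_iff_nhds.mp (hdense z) _ (h1 hU)
    exact ⟨(w, ff w), hw1, hw2.1, (heq w hw2).symm⟩
  -- a direction
  have hdir : ∃ d : Fin 2 → ℂ, d ≠ 0 ∧ ∀ᶠ c : ℂ in 𝓝[≠] 0, c • d ∉ B := by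
    by_cases h0 : (0 : Fin 2 → ℂ) ∈ B
    · obtain ⟨v, w, hvw, hev⟩ := hF.indeterminacy_codim 0 h0
      refine ⟨v, ?_, ?_⟩
      · have := hvw.ne_zero (0 : Fin 2)
        simpa using this
      · have h1 : Tendsto (fun c : ℂ => ((c, 0) : ℂ × ℂ)) (𝓝[≠] 0) (𝓝[≠] 0) := by
          apply tendsto_nhdsWithin_of_tendsto_nhds_of_eventually_within
          · have : Continuous fun c : ℂ => ((c, 0) : ℂ × ℂ) := by fun_prop
            exact (this.tendsto 0).mono_left nhdsWithin_le_nhds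
          · filter_upwards [eventually_mem_nhdsWithin] with c hc
            intro hcon
            exact hc (congrArg Prod.fst hcon)
        have h2 := h1.eventually hev
        filter_upwards [h2] with c hc
        simpa [chartAt_self_eq, mfld_simps] using hc
    · refine ⟨![1, 0], ?_, ?_⟩
      · intro h
        have := congrFun h 0
        simp at this
      · have h1 : Tendsto (fun c : ℂ => c • (![1, 0] : Fin 2 → ℂ)) (𝓝 0) (𝓝 0) := by
          have : Continuous fun c : ℂ => c • (![1, 0] : Fin 2 → ℂ) := by fun_prop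
          have := this.tendsto 0
          simpa using this
        have h2 : ∀ᶠ z : Fin 2 → ℂ in 𝓝 0, z ∈ univ \ B := hBo.mem_nhds ⟨mem_univ _, h0⟩
        filter_upwards [(h1.eventually h2).filter_mono nhdsWithin_le_nhds] with c hc
        exact hc.2
  obtain ⟨d, hd, hdB⟩ := hdir
  set γ : ℂ → (Fin 2 → ℂ) × XX := fun c => (c • d, ff d) with hγ
  have hγd : ∀ᶠ z : ℂ in 𝓝 0, MDifferentiableAt 𝓘(ℂ, ℂ)
      (𝓘(ℂ, Fin 2 → ℂ).prod 𝓘(ℂ, Fin 5 → ℂ)) γ z := by
    refine Eventually.of_forall fun z => ?_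
    have h1 : MDifferentiableAt 𝓘(ℂ, ℂ) 𝓘(ℂ, Fin 2 → ℂ) (fun c : ℂ => c • d) z := by
      apply DifferentiableAt.mdifferentiableAt
      fun_prop
    exact h1.prodMk mdifferentiableAt_const
  have hsl := hF.graph_analytic.slice hγd ⟨mem_univ _, mem_univ _⟩
  -- the points `φ⁻ᵏ d`
  have hseq : Tendsto (fun k : ℕ => gc ^ (-(k : ℤ))) atTop (𝓝[≠] 0) := by
    apply tendsto_nhdsWithin_of_tendsto_nhds_of_eventually_within
    · have h1 : (fun k : ℕ => gc ^ (-(k : ℤ))) = fun k : ℕ => (gc⁻¹) ^ k := by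
        funext k
        rw [zpow_neg, zpow_natCast, inv_pow]
      rw [h1]
      apply tendsto_pow_atTop_nhds_zero_of_norm_lt_one
      rw [norm_inv, norm_gc]
      exact inv_lt_one_of_one_lt₀ one_lt_gr
    · exact Eventually.of_forall fun k => zpow_ne_zero _ gc_ne
  have hin : ∀ᶠ c : ℂ in 𝓝[≠] 0, γ c ∈ graphClosure univ B F := by
    rcases hsl with h | h
    · exfalso
      obtain ⟨k, hk⟩ := (hseq.eventually h).exists
      apply hk
      have hne : gc ^ (-(k : ℤ)) • d ≠ 0 := smul_ne_zero (zpow_ne_zero _ gc_ne) hd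
      have := hgraph _ hne
      rwa [ff_zpow_smul hd] at this
    · exact h
  -- a negative real number close to `0`
  have hneg : Tendsto (fun k : ℕ => -gc ^ (-(k : ℤ))) atTop (𝓝[≠] 0) := by
    apply tendsto_nhdsWithin_of_tendsto_nhds_of_eventually_within
    · have := (hseq.mono_right nhdsWithin_le_nhds).neg
      simpa using this
    · exact Eventually.of_forall fun k => neg_ne_zero.mpr (zpow_ne_zero _ gc_ne)
  obtain ⟨k, hk1, hk2⟩ := (hneg.eventually (hin.and hdB)).exists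
  set c : ℂ := -gc ^ (-(k : ℤ)) with hc
  have hc0 : c ≠ 0 := neg_ne_zero.mpr (zpow_ne_zero _ gc_ne)
  have hcd : c • d ≠ 0 := smul_ne_zero hc0 hd
  have hval : ff d = F (c • d) := by
    by_contra hne
    have h3 : ContinuousAt (fun z : (Fin 2 → ℂ) × XX => (z.2, F z.1)) (c • d, ff d) :=
      continuousAt_snd.prodMk (ContinuousAt.comp (g := F) (hFc _ hk2) continuousAt_fst)
    have h4 : ∀ᶠ z : (Fin 2 → ℂ) × XX in 𝓝 (c • d, ff d), z.2 ≠ F z.1 :=
      h3.eventually ((isClosed_diagonal (X := XX)).isOpen_compl.mem_nhds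
        (show (ff d, F (c • d)) ∈ (diagonal XX)ᶜ from hne))
    obtain ⟨z, hz1, hz2⟩ := mem_closure_iff_nhds.mp hk1.1 _ h4
    exact hz1 hz2.2
  rw [hFf2 _ hcd hk2] at hval
  obtain ⟨j, hj⟩ := ff_eq_ff hd hc0 hval.symm
  have h1 : (c.re : ℝ) = gr ^ j := by
    rw [hj]
    unfold gc
    rw [← Complex.ofReal_zpow, Complex.ofReal_re]
  have h2 : (c.re : ℝ) = -gr ^ (-(k : ℤ)) := by
    rw [hc]
    unfold gc
    rw [← Complex.ofReal_zpow, Complex.neg_re, Complex.ofReal_re]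
  have h3 : 0 < gr ^ j := zpow_pos gr_pos _
  have h4 : 0 < gr ^ (-(k : ℤ)) := zpow_pos gr_pos _
  linarith

end Pool.Agent.MEP
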