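import Pool.Agent.MEP.Proper

/-!
# The quotient manifold
-/

set_option autoImplicit false

open Set Filter Topology
open scoped Manifold ContDiff

namespace Pool.Agent.MEP

instance : LocallyCompactSpace UOpen := UOpen.isOpen.locallyCompactSpace

/-- the total space of the deformation -/
abbrev XX : Type := MulAction.orbitRel.Quotient Gam UOpen

/-- the quotient map -/
def qm : UOpen → XX := Quotient.mk (MulAction.orbitRel Gam UOpen)

lemma qm_isQuotientCoveringMap : IsQuotientCoveringMap qm Gam :=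
  isQuotientCoveringMap_quotientMk_of_properlyDiscontinuousSMul

lemma qm_isCoveringMap : IsCoveringMap qm := qm_isQuotientCoveringMap.isCoveringMap

lemma qm_isLocalHomeomorph : IsLocalHomeomorph qm := qm_isCoveringMap.isLocalHomeomorph

lemma qm_surjective : Function.Surjective qm := Quotient.mk_surjective

lemma qm_continuous : Continuous qm := qm_isCoveringMap.continuous

lemma qm_isOpenMap : IsOpenMap qm := qm_isLocalHomeomorph.isOpenMap

lemma qm_smul (g : Gam) (p : UOpen) : qm (g • p) = qm p := qm_isQuotientCoveringMap.map_smul g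

lemma qm_eq_iff {p p' : UOpen} : qm p = qm p' ↔ ∃ g : Gam, g • p' = p := by
  rw [qm_isQuotientCoveringMap.apply_eq_iff_mem_orbit]
  rfl

instance : T2Space XX := inferInstance

instance : SecondCountableTopology XX := ContinuousConstSMul.secondCountableTopology

/-- a local inverse of the quotient map whose target contains `u` -/
noncomputable def sg (u : UOpen) : OpenPartialHomeomorph XX UOpen :=
  qm_isLocalHomeomorph.localInverseAt u

lemma qm_sg {u : UOpen} {y : XX} (hy : y ∈ (sg u).source) : qm (sg u y) = y :=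
  qm_isLocalHomeomorph.apply_localInverseAt_of_mem hy

lemma qm_mem_sg_source (u : UOpen) : qm u ∈ (sg u).source :=
  qm_isLocalHomeomorph.apply_self_mem_localInverseAt_source

lemma sg_apply_self (u : UOpen) : sg u (qm u) = u :=
  qm_isLocalHomeomorph.localInverseAt_apply_self

lemma sg_symm (u : UOpen) : ((sg u).symm : UOpen → XX) = qm :=
  qm_isLocalHomeomorph.localInverseAt_symm u

lemma sg_injOn (u : UOpen) : InjOn qm (sg u).target :=
  qm_isLocalHomeomorph.injOn_localInverseAt_target

/-- Key lemma: in a neighbourhood of `p`, `sg u ∘ qm` is given by a group element. -/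
lemma sg_qm_eventually {u p : UOpen} (hp : qm p ∈ (sg u).source) :
    ∃ g : Gam, sg u (qm p) = g • p ∧ ∀ᶠ p' in 𝓝 p, qm p' ∈ (sg u).source ∧ sg u (qm p') = g • p' := by
  obtain ⟨g, hg⟩ := qm_eq_iff.mp (qm_sg hp)
  refine ⟨g, hg.symm, ?_⟩
  have h1 : ∀ᶠ p' in 𝓝 p, qm p' ∈ (sg u).source :=
    qm_continuous.continuousAt.eventually ((sg u).open_source.mem_nhds hp)
  have hgp : g • p ∈ (sg u).target := by
    rw [hg]; exact (sg u).map_source hp
  have h2 : ∀ᶠ p' in 𝓝 p, g • p' ∈ (sg u).target :=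
    (continuous_const_smul g).continuousAt.eventually ((sg u).open_target.mem_nhds hgp)
  filter_upwards [h1, h2] with p' h1 h2
  refine ⟨h1, sg_injOn u ((sg u).map_source h1) h2 ?_⟩
  rw [qm_sg h1, qm_smul]

lemma contDiff_act (k : ℤ) (l : ℂ × ℂ) : ContDiff ℂ ω (act k l) := by
  rw [contDiff_pi]
  intro i
  fin_cases i
  · simp only [Fin.zero_eta, act_zero']
    exact contDiff_const.mul (contDiff_apply ℂ ℂ 0)
  · simp only [Fin.mk_one, act_one']
    exact contDiff_const.mul (contDiff_apply ℂ ℂ 1)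
  · show ContDiff ℂ ω fun p => act k l p 2
    simp only [act_two']
    exact (contDiff_const.mul (contDiff_apply ℂ ℂ 2)).add
      (contDiff_const.mul (contDiff_const.mul (contDiff_apply ℂ ℂ 0)))
  · show ContDiff ℂ ω fun p => act k l p 3
    simp only [act_three']
    exact (contDiff_const.mul (contDiff_apply ℂ ℂ 3)).add
      (contDiff_const.mul (contDiff_const.mul (contDiff_apply ℂ ℂ 1)))
  · show ContDiff ℂ ω fun p => act k l p 4
    simp only [act_four']
    exact (contDiff_const.mul (contDiff_apply ℂ ℂ 4)).add contDiff_const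

lemma mem_atlas_iff {e : OpenPartialHomeomorph XX E5} :
    e ∈ atlas E5 XX ↔ ∃ y : XX, chartAt E5 y = e := Iff.rfl

/-- the point of `U` used to define the chart at `y` -/
noncomputable def cpt (y : XX) : UOpen := (qm_surjective.hasRightInverse.choose) y

lemma qm_cpt (y : XX) : qm (cpt y) = y := qm_surjective.hasRightInverse.choose_spec y

lemma chartAt_eq (y : XX) : chartAt E5 y = (sg (cpt y)).trans (chartAt E5 (cpt y)) := rfl

lemma chartAt_source (y : XX) : (chartAt E5 y).source = (sg (cpt y)).source := by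
  rw [chartAt_eq, OpenPartialHomeomorph.trans_source]
  have : (chartAt E5 (cpt y)).source = univ := by
    show ((chartAt E5 ((cpt y : UOpen) : E5)).subtypeRestr _).source = univ
    rw [OpenPartialHomeomorph.subtypeRestr_source]
    exact eq_univ_of_forall fun _ => mem_univ _
  rw [this]; simp

lemma chartAt_apply (y z : XX) : chartAt E5 y z = (sg (cpt y) z : E5) := rfl

lemma chartAt_symm_apply {y : XX} {z : E5} (hz : z ∈ (chartAt E5 y).target) :
    ∃ h : z ∈ USet, (chartAt E5 y).symm z = qm ⟨z, h⟩ := by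
  set y' := (chartAt E5 y).symm z with hy'
  have h1 : y' ∈ (chartAt E5 y).source := (chartAt E5 y).map_target hz
  have h2 : chartAt E5 y y' = z := (chartAt E5 y).right_inv hz
  rw [chartAt_apply] at h2
  have h3 : z ∈ USet := by rw [← h2]; exact (sg (cpt y) y').2
  refine ⟨h3, ?_⟩
  rw [chartAt_source] at h1
  have h4 : sg (cpt y) y' = ⟨z, h3⟩ := Subtype.ext h2
  rw [← h4, qm_sg h1]

/-- transport of eventually-statements from `U` to `ℂ⁵` -/
lemma eventually_UOpen {p : UOpen} {P : UOpen → Prop} (h : ∀ᶠ p' in 𝓝 p, P p') :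
    ∀ᶠ z in 𝓝 (p : E5), ∃ hz : z ∈ USet, P ⟨z, hz⟩ := by
  have h1 : ∀ᶠ z in 𝓝 (p : E5), z ∈ USet := isOpen_USet.mem_nhds p.2
  have h2 : map (Subtype.val : UOpen → E5) (𝓝 p) = 𝓝 (p : E5) :=
    (UOpen.isOpen.isOpenEmbedding_subtypeVal).map_nhds_eq p
  rw [← h2, eventually_map]
  filter_upwards [h] with p' hp'
  exact ⟨p'.2, hp'⟩

instance : IsManifold 𝓘(ℂ, E5) ω XX := by
  apply isManifold_of_contDiffOn
  rintro e e' he he'
  obtain ⟨y, rfl⟩ := mem_atlas_iff.mp he
  obtain ⟨y', rfl⟩ := mem_atlas_iff.mp he'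
  simp only [modelWithCornersSelf_coe, modelWithCornersSelf_coe_symm,
    preimage_id, range_id, inter_univ, CompTriple.comp_eq]
  intro z hz
  rw [OpenPartialHomeomorph.trans_source] at hz
  obtain ⟨hz1, hz2⟩ := hz
  simp only [OpenPartialHomeomorph.symm_source, mem_preimage] at hz1 hz2
  obtain ⟨hU, hs⟩ := chartAt_symm_apply hz1
  rw [hs, chartAt_source] at hz2
  obtain ⟨g, hg, hev⟩ := sg_qm_eventually hz2
  obtain ⟨k, l, _, hkl⟩ := exists_smul_eq g
  apply ContDiffAt.contDiffWithinAt
  have h1 := eventually_UOpen hev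
  have h2 : ∀ᶠ w in 𝓝 z, w ∈ (chartAt E5 y).target := (chartAt E5 y).open_target.mem_nhds hz1
  refine ((contDiff_act k l).contDiffAt (x := z)).congr_of_eventuallyEq ?_
  filter_upwards [h1, h2] with w hw1 hw2
  obtain ⟨hw3, hw4, hw5⟩ := hw1
  obtain ⟨hw6, hw7⟩ := chartAt_symm_apply hw2
  simp only [OpenPartialHomeomorph.coe_trans, Function.comp_apply]
  rw [hw7, chartAt_apply, hw5, hkl]

/-- `qm` is holomorphic -/
lemma qm_contMDiff : ContMDiff 𝓘(ℂ, E5) 𝓘(ℂ, E5) ω qm := by
  intro p
  rw [contMDiffAt_iff_target]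
  refine ⟨qm_continuous.continuousAt, ?_⟩
  have hp : qm p ∈ (sg (cpt (qm p))).source := by
    rw [← chartAt_source]; exact mem_chart_source E5 (qm p)
  obtain ⟨g, hg, hev⟩ := sg_qm_eventually hp
  obtain ⟨k, l, _, hkl⟩ := exists_smul_eq g
  have h1 : ContMDiffAt 𝓘(ℂ, E5) 𝓘(ℂ, E5) ω (fun p' : UOpen => act k l (p' : E5)) p :=
    (contDiff_act k l).contMDiff.contMDiffAt.comp p contMDiff_subtype_val.contMDiffAt
  refine h1.congr_of_eventuallyEq ?_
  filter_upwards [hev] with p' hp'
  simp only [extChartAt, mfld_simps, Function.comp_apply]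
  rw [chartAt_apply, hp'.2, hkl]

/-- local inverses of `qm`, seen as maps to `ℂ⁵`, are holomorphic -/
lemma sg_contMDiffOn (u : UOpen) :
    ContMDiffOn 𝓘(ℂ, E5) 𝓘(ℂ, E5) ω (fun y => (sg u y : E5)) (sg u).source := by
  intro y hy
  apply ContMDiffAt.contMDiffWithinAt
  rw [contMDiffAt_iff_source]
  simp only [modelWithCornersSelf_coe, range_id, contMDiffWithinAt_univ]
  apply ContDiffAt.contMDiffAt
  have hz1 : chartAt E5 y y ∈ (chartAt E5 y).target := mem_chart_target E5 y
  obtain ⟨hU, hs⟩ := chartAt_symm_apply hz1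
  have hinv : (chartAt E5 y).symm (chartAt E5 y y) = y :=
    (chartAt E5 y).left_inv (mem_chart_source E5 y)
  rw [hinv] at hs
  have hz2 : qm ⟨chartAt E5 y y, hU⟩ ∈ (sg u).source := by rw [← hs]; exact hy
  obtain ⟨g, hg, hev⟩ := sg_qm_eventually hz2
  obtain ⟨k, l, _, hkl⟩ := exists_smul_eq g
  have h1 := eventually_UOpen hev
  have h2 : ∀ᶠ w in 𝓝 (chartAt E5 y y), w ∈ (chartAt E5 y).target :=
    (chartAt E5 y).open_target.mem_nhds hz1
  have h3 : extChartAt 𝓘(ℂ, E5) y y = chartAt E5 y y := by simp [extChartAt, mfld_simps]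
  rw [h3]
  refine ((contDiff_act k l).contDiffAt (x := chartAt E5 y y)).congr_of_eventuallyEq ?_
  filter_upwards [h1, h2] with w hw1 hw2
  obtain ⟨hw3, hw4, hw5⟩ := hw1
  obtain ⟨hw6, hw7⟩ := chartAt_symm_apply hw2
  simp only [Function.comp_apply, extChartAt, mfld_simps]
  rw [hw7, hw5, hkl]

end Pool.Agent.MEP
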