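import Pool.Agent.MEP.Neg

/-!
# The meromorphic extension property is not closed under deformations (simply connected domains)
-/

set_option autoImplicit false

open Set
open scoped Manifold ContDiff

open Pool.Agent.MEP in
/-- There is a complex deformation over the disc all of whose fibres over `t ≠ 0` have the
meromorphic extension property for simply connected domains, while the central fibre has neither
this property nor the full meromorphic extension property. -/
theorem Pool.Agent.MEP.sc_result :
    ∃ (X : Type) (_ : TopologicalSpace X) (_ : T2Space X) (_ : SecondCountableTopology X)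
      (_ : ChartedSpace (Fin 5 → ℂ) X) (_ : IsManifold 𝓘(ℂ, Fin 5 → ℂ) ω X) (π : X → ℂ),
      IsDeformation (m := 5) π ∧
      (∀ t ∈ Metric.ball (0 : ℂ) 1, t ≠ 0 → HasExtensionPropertySC (m := 5) (π ⁻¹' {t})) ∧
      ¬ HasExtensionPropertySC (m := 5) (π ⁻¹' {(0 : ℂ)}) ∧
      ¬ HasExtensionProperty (m := 5) (π ⁻¹' {(0 : ℂ)}) := by
  refine ⟨XX, inferInstance, inferInstance, inferInstance, inferInstance, inferInstance, pim,
    ⟨pim_mdifferentiable, range_pim, pim_hasRankOneAt, fun K hK1 hK =>
      isCompact_preimage hK1 hK, fun t ht => isConnected_fibre ht⟩, ?_,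
    not_hasExtensionPropertySC_zero, ?_⟩
  · intro t ht ht0
    exact hasExtensionPropertySC_fibre ht0 (by simpa using ht)
  · intro h
    refine not_hasExtensionPropertySC_zero ?_
    intro n S _ _ _ _ _ _ D hD _ A f hf
    exact h n S D hD A f hf
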